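import Pool.Agent.helper71.LVR.Integral

/-!
# The graph is a Lipschitz manifold; charts
-/

open MeasureTheory Set Filter Topology
open scoped ENNReal NNReal

namespace Pool.Agent.helper71.LVR

/-- The intrinsic metric is modelled on the graph. -/
theorem isModel_eY : IsModel eY where
  lip := lipschitz_eY
  surj := by
    rintro ⟨p, x, hx, rfl⟩
    exact ⟨x, hx, Subtype.ext (by show PP (cl x) = PP x; rw [cl_of_mem hx])⟩
  lower := by
    intro x hx y hy
    rw [edist_eY, cl_of_mem hx, cl_of_mem hy]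
    exact edist_le_intrinsicEDist _ _ _
  loc := by
    filter_upwards [ae_mem_TT, ae_norm_lt_one] with x ⟨i, s, _, hT⟩ hx
    filter_upwards [intrinsic_le_local hT hx,
      (isOpen_lt continuous_norm continuous_const).mem_nhds hx] with y hy1 hy2
    have hxD : x ∈ D := by simpa [D] using hx.le
    have hyD : y ∈ D := by simpa [D] using le_of_lt hy2
    rw [edist_comm, edist_eY, cl_of_mem hxD, cl_of_mem hyD, edist_comm (PP y)]
    exact hy1

theorem eY_cl (x : E2) : eY (cl x) = eY x := by
  apply Subtype.ext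
  show PP (cl (cl x)) = PP (cl x)
  rw [cl_of_mem (cl_mem x)]

/-- The (inverse) charts of the square. -/
noncomputable def chi (a b : ℝ) (y : E2) : E2 :=
  ![a * (1 - (y 0 + max (y 1) 0)), b * (1 - (y 0 + max (-y 1) 0))]

/-- The charts of the square. -/
noncomputable def kap (a b : ℝ) (x : E2) : E2 :=
  ![min (1 - a * x 0) (1 - b * x 1), (1 - a * x 0) - (1 - b * x 1)]

theorem max_sub_max_neg (q : ℝ) : max q 0 - max (-q) 0 = q := by
  rcases le_total q 0 with h | h
  · rw [max_eq_right h, max_eq_left (by linarith)]; ring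
  · rw [max_eq_left h, max_eq_right (by linarith)]; ring

theorem min_max_neg (q : ℝ) : min (max q 0) (max (-q) 0) = 0 := by
  rcases le_total q 0 with h | h
  · rw [max_eq_right h, max_eq_left (by linarith : (0 : ℝ) ≤ -q), min_eq_left (by linarith)]
  · rw [max_eq_left h, max_eq_right (by linarith : -q ≤ 0), min_eq_right h]

variable {a b : ℝ}

theorem kap_chi (ha : a * a = 1) (hb : b * b = 1) (y : E2) : kap a b (chi a b y) = y := by
  have e0 : 1 - a * (a * (1 - (y 0 + max (y 1) 0))) = y 0 + max (y 1) 0 := by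
    linear_combination (-(1 - (y 0 + max (y 1) 0))) * ha
  have e1 : 1 - b * (b * (1 - (y 0 + max (-y 1) 0))) = y 0 + max (-y 1) 0 := by
    linear_combination (-(1 - (y 0 + max (-y 1) 0))) * hb
  ext i
  fin_cases i
  · simp only [kap, chi, Fin.zero_eta, Matrix.cons_val_zero, Matrix.cons_val_one]
    rw [e0, e1, min_add_add_left, min_max_neg, add_zero]
  · simp only [kap, chi, Fin.mk_one, Matrix.cons_val_zero, Matrix.cons_val_one]
    rw [e0, e1]
    have := max_sub_max_neg (y 1)
    linarith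

theorem chi_kap (ha : a * a = 1) (hb : b * b = 1) (x : E2) : chi a b (kap a b x) = x := by
  have key : ∀ u v : ℝ, min u v + max (u - v) 0 = u ∧ min u v + max (-(u - v)) 0 = v := by
    intro u v
    rcases le_total u v with h | h
    · rw [min_eq_left h, max_eq_right (by linarith), max_eq_left (by linarith)]
      constructor <;> ring
    · rw [min_eq_right h, max_eq_left (by linarith), max_eq_right (by linarith)]
      constructor <;> ring
  obtain ⟨k1, k2⟩ := key (1 - a * x 0) (1 - b * x 1)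
  ext i
  fin_cases i
  · simp only [kap, chi, Fin.zero_eta, Matrix.cons_val_zero, Matrix.cons_val_one]
    rw [k1]
    linear_combination (x 0) * ha
  · simp only [kap, chi, Fin.mk_one, Matrix.cons_val_zero, Matrix.cons_val_one]
    rw [k2]
    linear_combination (x 1) * hb

theorem abs_eq_one (ha : a * a = 1) : |a| = 1 := by
  have : |a| * |a| = 1 := by rw [abs_mul_abs_self, ha]
  nlinarith [abs_nonneg a]

theorem abs_max_sub_le (p q : ℝ) : |max p 0 - max q 0| ≤ |p - q| := abs_max_sub_max_le_abs p q 0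

theorem norm_chi_sub_le (ha : a * a = 1) (hb : b * b = 1) (y z : E2) :
    ‖chi a b y - chi a b z‖ ≤ 2 * ‖y - z‖ := by
  have h0 := abs_coord_le (y - z) 0
  have h1 := abs_coord_le (y - z) 1
  simp only [Pi.sub_apply] at h0 h1
  rw [pi_norm_le_iff_of_nonneg (by positivity)]
  intro i
  rw [Real.norm_eq_abs]
  fin_cases i
  · simp only [chi, Fin.zero_eta, Pi.sub_apply, Matrix.cons_val_zero]
    have e : a * (1 - (y 0 + max (y 1) 0)) - a * (1 - (z 0 + max (z 1) 0)) =
      a * ((z 0 - y 0) + (max (z 1) 0 - max (y 1) 0)) := by ring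
    rw [e, abs_mul, abs_eq_one ha, one_mul]
    have h2 := abs_max_sub_le (z 1) (y 1)
    rw [abs_sub_comm (z 1)] at h2
    refine (abs_add_le _ _).trans ?_
    rw [abs_sub_comm (z 0)]
    linarith
  · show |b * (1 - (y 0 + max (-y 1) 0)) - b * (1 - (z 0 + max (-z 1) 0))| ≤ _
    have e : b * (1 - (y 0 + max (-y 1) 0)) - b * (1 - (z 0 + max (-z 1) 0)) =
      b * ((z 0 - y 0) + (max (-z 1) 0 - max (-y 1) 0)) := by ring
    rw [e, abs_mul, abs_eq_one hb, one_mul]
    have h2 := abs_max_sub_le (-z 1) (-y 1)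
    have e2 : -z 1 - -y 1 = y 1 - z 1 := by ring
    rw [e2] at h2
    refine (abs_add_le _ _).trans ?_
    rw [abs_sub_comm (z 0)]
    linarith

theorem norm_kap_sub_le (ha : a * a = 1) (hb : b * b = 1) (y z : E2) :
    ‖kap a b y - kap a b z‖ ≤ 2 * ‖y - z‖ := by
  have h0 := abs_coord_le (y - z) 0
  have h1 := abs_coord_le (y - z) 1
  simp only [Pi.sub_apply] at h0 h1
  have g0 : |(1 - a * y 0) - (1 - a * z 0)| ≤ ‖y - z‖ := by
    have e : (1 - a * y 0) - (1 - a * z 0) = a * (z 0 - y 0) := by ring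
    rw [e, abs_mul, abs_eq_one ha, one_mul, abs_sub_comm]
    exact h0
  have g1 : |(1 - b * y 1) - (1 - b * z 1)| ≤ ‖y - z‖ := by
    have e : (1 - b * y 1) - (1 - b * z 1) = b * (z 1 - y 1) := by ring
    rw [e, abs_mul, abs_eq_one hb, one_mul, abs_sub_comm]
    exact h1
  rw [pi_norm_le_iff_of_nonneg (by positivity)]
  intro i
  rw [Real.norm_eq_abs]
  fin_cases i
  · simp only [kap, Fin.zero_eta, Pi.sub_apply, Matrix.cons_val_zero]
    refine (abs_min_sub_min_le_max _ _ _ _).trans ?_
    refine (max_le g0 g1).trans ?_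
    linarith [norm_nonneg (y - z)]
  · show |1 - a * y 0 - (1 - b * y 1) - (1 - a * z 0 - (1 - b * z 1))| ≤ _
    have e : 1 - a * y 0 - (1 - b * y 1) - (1 - a * z 0 - (1 - b * z 1)) =
      ((1 - a * y 0) - (1 - a * z 0)) - ((1 - b * y 1) - (1 - b * z 1)) := by ring
    rw [e]
    refine (abs_sub _ _).trans ?_
    linarith

/-- The open set of the chart domain. -/
def OO : Set E2 := {y | y 0 + max (y 1) 0 < 2 ∧ y 0 + max (-y 1) 0 < 2}

theorem isOpen_OO : IsOpen OO := by
  have h1 : IsOpen {y : E2 | y 0 + max (y 1) 0 < 2} := isOpen_lt (by fun_prop) (by fun_prop)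
  have h2 : IsOpen {y : E2 | y 0 + max (-y 1) 0 < 2} := isOpen_lt (by fun_prop) (by fun_prop)
  exact h1.inter h2

/-- The chart domain. -/
def UC : Set E2 := OO ∩ halfSpace 2

theorem mem_halfSpace_iff (y : E2) : y ∈ halfSpace 2 ↔ 0 ≤ y 0 := by
  unfold halfSpace
  constructor
  · intro h; exact h 0 rfl
  · intro h i hi
    have : i = 0 := Fin.ext hi
    rw [this]; exact h

theorem mul_self_cancel (ha : a * a = 1) (t : ℝ) : a * (a * t) = t := by
  rw [← mul_assoc, ha, one_mul]

theorem chi_mem_iff (ha : a * a = 1) (hb : b * b = 1) (y : E2) :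
    y ∈ UC ↔ (chi a b y ∈ D ∧ -1 < a * chi a b y 0 ∧ -1 < b * chi a b y 1) := by
  have c0 : chi a b y 0 = a * (1 - (y 0 + max (y 1) 0)) := rfl
  have c1 : chi a b y 1 = b * (1 - (y 0 + max (-y 1) 0)) := rfl
  rw [UC, mem_inter_iff, mem_halfSpace_iff, mem_D_iff, Fin.forall_fin_two, c0, c1,
    mul_self_cancel ha, mul_self_cancel hb, abs_mul, abs_mul, abs_eq_one ha, abs_eq_one hb,
    one_mul, one_mul, abs_le, abs_le]
  have m := min_max_neg (y 1)
  have p0 := le_max_right (y 1) 0
  have p1 := le_max_right (-y 1) 0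
  constructor
  · rintro ⟨⟨h1, h2⟩, h3⟩
    refine ⟨⟨⟨by linarith, by linarith⟩, ⟨by linarith, by linarith⟩⟩, by linarith, by linarith⟩
  · rintro ⟨⟨⟨h1, h2⟩, ⟨h3, h4⟩⟩, h5, h6⟩
    refine ⟨⟨by linarith, by linarith⟩, ?_⟩
    rcases min_choice (max (y 1) 0) (max (-y 1) 0) with h | h
    · rw [h] at m; linarith
    · rw [h] at m; linarith

/-- The charts of the graph. -/
noncomputable def phi (a b : ℝ) (y : E2) : Intrinsic YY := eY (chi a b y)

theorem phi_val (ha : a * a = 1) (hb : b * b = 1) {y : E2} (hy : y ∈ UC) :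
    (phi a b y).1 = PP (chi a b y) := by
  show PP (cl (chi a b y)) = _
  rw [cl_of_mem ((chi_mem_iff ha hb y).mp hy).1]

theorem isLipschitzChart_phi (ha : a * a = 1) (hb : b * b = 1) :
    IsLipschitzChart YY UC (phi a b) where
  isOpen_dom := ⟨OO, isOpen_OO, rfl⟩
  biLipschitz := by
    refine ⟨4, fun x hx y hy => ?_⟩
    simp only
    rw [phi_val ha hb hx, phi_val ha hb hy, edist_dist, edist_dist, dist_eq_norm x y]
    have e4 : ((4 : ℝ≥0) : ℝ≥0∞) = ENNReal.ofReal 4 := by simp
    rw [e4, ← ENNReal.ofReal_mul (by norm_num), ← ENNReal.ofReal_mul (by norm_num)]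
    constructor
    · apply ENNReal.ofReal_le_ofReal
      have h1 := dist_PP_le (chi a b x) (chi a b y)
      have h2 := norm_chi_sub_le ha hb x y
      linarith
    · apply ENNReal.ofReal_le_ofReal
      have h1 := le_dist_PP (chi a b x) (chi a b y)
      have h2 := norm_kap_sub_le ha hb (chi a b x) (chi a b y)
      rw [kap_chi ha hb, kap_chi ha hb] at h2
      have h3 : 0 ≤ dist (PP (chi a b x)) (PP (chi a b y)) := dist_nonneg
      linarith
  isOpen_image := by
    refine ⟨{p | -1 < a * p 0 ∧ -1 < b * p 1}, ?_, ?_⟩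
    · have h1 : IsOpen {p : EuclideanSpace ℝ (Fin 3) | -1 < a * p 0} :=
        isOpen_lt (by fun_prop) (by fun_prop)
      have h2 : IsOpen {p : EuclideanSpace ℝ (Fin 3) | -1 < b * p 1} :=
        isOpen_lt (by fun_prop) (by fun_prop)
      exact h1.inter h2
    · ext p
      constructor
      · rintro ⟨y, hy, rfl⟩
        simp only
        rw [phi_val ha hb hy]
        have h := (chi_mem_iff ha hb y).mp hy
        exact ⟨⟨h.2.1, h.2.2⟩, chi a b y, h.1, rfl⟩
      · rintro ⟨⟨h1, h2⟩, x, hx, rfl⟩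
        have hmem : kap a b x ∈ UC := by
          rw [chi_mem_iff ha hb, chi_kap ha hb]
          exact ⟨hx, h1, h2⟩
        refine ⟨kap a b x, hmem, ?_⟩
        simp only
        rw [phi_val ha hb hmem, chi_kap ha hb]

end Pool.Agent.helper71.LVR
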