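import Pool.Agent.helper71.LVR.Chart

/-!
# The current of integration in the charts
-/

open MeasureTheory Set Filter Topology
open scoped ENNReal NNReal

namespace Pool.Agent.helper71.LVR

variable {a b : ℝ}

/-- The derivative of `chi`. -/
noncomputable def chiD (a b : ℝ) (y : E2) : E2 →L[ℝ] E2 :=
  if 0 < y 1 then
    ContinuousLinearMap.pi ![(-a) • ((ContinuousLinearMap.proj 0 : E2 →L[ℝ] ℝ) +
      ContinuousLinearMap.proj 1), (-b) • (ContinuousLinearMap.proj 0 : E2 →L[ℝ] ℝ)]
  else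
    ContinuousLinearMap.pi ![(-a) • (ContinuousLinearMap.proj 0 : E2 →L[ℝ] ℝ),
      (-b) • ((ContinuousLinearMap.proj 0 : E2 →L[ℝ] ℝ) - ContinuousLinearMap.proj 1)]

theorem hasFDerivAt_coord (i : Fin 2) (y : E2) :
    HasFDerivAt (fun z : E2 => z i) (ContinuousLinearMap.proj i : E2 →L[ℝ] ℝ) y :=
  hasFDerivAt_apply i y

theorem hasFDerivAt_chi {y : E2} (hy : y 1 ≠ 0) : HasFDerivAt (chi a b) (chiD a b y) y := by
  unfold chiD
  rcases lt_or_gt_of_ne hy with h | h
  · rw [if_neg (not_lt.mpr h.le)]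
    have e : chi a b =ᶠ[𝓝 y] fun z => ![a * (1 - z 0), b * (1 - (z 0 - z 1))] := by
      filter_upwards [(isOpen_lt (continuous_apply 1) continuous_const).mem_nhds h] with z hz
      have hz' : z 1 < 0 := hz
      unfold chi
      rw [max_eq_right hz'.le, max_eq_left (by linarith : (0 : ℝ) ≤ -z 1)]
      congr 2
      · ring
    refine HasFDerivAt.congr_of_eventuallyEq ?_ e
    rw [hasFDerivAt_pi']
    intro i
    fin_cases i
    · have := ((hasFDerivAt_coord 0 y).const_sub 1).const_mul a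
      refine this.congr_fderiv ?_
      ext v
      simp
    · have := (((hasFDerivAt_coord 0 y).sub (hasFDerivAt_coord 1 y)).const_sub 1).const_mul b
      refine this.congr_fderiv ?_
      ext v
      simp
      ring
  · rw [if_pos h]
    have e : chi a b =ᶠ[𝓝 y] fun z => ![a * (1 - (z 0 + z 1)), b * (1 - z 0)] := by
      filter_upwards [(isOpen_lt continuous_const (continuous_apply 1)).mem_nhds h] with z hz
      have hz' : 0 < z 1 := hz
      unfold chi
      rw [max_eq_left hz'.le, max_eq_right (by linarith : -z 1 ≤ 0)]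
      congr 2
      · ring
    refine HasFDerivAt.congr_of_eventuallyEq ?_ e
    rw [hasFDerivAt_pi']
    intro i
    fin_cases i
    · have := (((hasFDerivAt_coord 0 y).add (hasFDerivAt_coord 1 y)).const_sub 1).const_mul a
      refine this.congr_fderiv ?_
      ext v
      simp
      ring
    · have := ((hasFDerivAt_coord 0 y).const_sub 1).const_mul b
      refine this.congr_fderiv ?_
      ext v
      simp

theorem chiD_pos {y : E2} (h : 0 < y 1) (v : E2) :
    chiD a b y v = ![-a * (v 0 + v 1), -b * v 0] := by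
  unfold chiD
  rw [if_pos h]
  ext i
  fin_cases i
  · simp
    ring
  · simp

theorem chiD_neg {y : E2} (h : ¬ 0 < y 1) (v : E2) :
    chiD a b y v = ![-a * v 0, -b * (v 0 - v 1)] := by
  unfold chiD
  rw [if_neg h]
  ext i
  fin_cases i <;> simp

theorem ee_zero_zero : ee 0 0 = 1 := by simp [ee]
theorem ee_zero_one : ee 0 1 = 0 := by simp [ee]
theorem ee_one_zero : ee 1 0 = 0 := by simp [ee]
theorem ee_one_one : ee 1 1 = 1 := by simp [ee]

theorem det_chiD (y : E2) : (chiD a b y).det = -(a * b) := by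
  rw [det_eq]
  by_cases h : 0 < y 1
  · rw [chiD_pos h, chiD_pos h]
    simp [ee_zero_zero, ee_zero_one, ee_one_zero, ee_one_one]
  · rw [chiD_neg h, chiD_neg h]
    simp [ee_zero_zero, ee_zero_one, ee_one_zero, ee_one_one]

theorem differentiableAt_kap {x : E2} (hx : 1 - a * x 0 ≠ 1 - b * x 1) :
    DifferentiableAt ℝ (kap a b) x := by
  rcases lt_or_gt_of_ne hx with h | h
  · have ho : IsOpen {z : E2 | 1 - a * z 0 < 1 - b * z 1} := isOpen_lt (by fun_prop) (by fun_prop)
    have e : kap a b =ᶠ[𝓝 x] fun z => ![1 - a * z 0, (1 - a * z 0) - (1 - b * z 1)] := by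
      filter_upwards [ho.mem_nhds h] with z hz
      have hz' : 1 - a * z 0 < 1 - b * z 1 := hz
      unfold kap
      rw [min_eq_left hz'.le]
    refine DifferentiableAt.congr_of_eventuallyEq ?_ e
    rw [differentiableAt_pi]
    intro i
    fin_cases i
    · show DifferentiableAt ℝ (fun z : E2 => 1 - a * z 0) x
      fun_prop
    · show DifferentiableAt ℝ (fun z : E2 => (1 - a * z 0) - (1 - b * z 1)) x
      fun_prop
  · have ho : IsOpen {z : E2 | 1 - b * z 1 < 1 - a * z 0} := isOpen_lt (by fun_prop) (by fun_prop)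
    have e : kap a b =ᶠ[𝓝 x] fun z => ![1 - b * z 1, (1 - a * z 0) - (1 - b * z 1)] := by
      filter_upwards [ho.mem_nhds h] with z hz
      have hz' : 1 - b * z 1 < 1 - a * z 0 := hz
      unfold kap
      rw [min_eq_right hz'.le]
    refine DifferentiableAt.congr_of_eventuallyEq ?_ e
    rw [differentiableAt_pi]
    intro i
    fin_cases i
    · show DifferentiableAt ℝ (fun z : E2 => 1 - b * z 1) x
      fun_prop
    · show DifferentiableAt ℝ (fun z : E2 => (1 - a * z 0) - (1 - b * z 1)) x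
      fun_prop

theorem chi_line (ha : a * a = 1) (hb : b * b = 1) (y : E2) :
    (1 - a * chi a b y 0) - (1 - b * chi a b y 1) = y 1 := by
  have c0 : chi a b y 0 = a * (1 - (y 0 + max (y 1) 0)) := rfl
  have c1 : chi a b y 1 = b * (1 - (y 0 + max (-y 1) 0)) := rfl
  rw [c0, c1, mul_self_cancel ha, mul_self_cancel hb]
  have := max_sub_max_neg (y 1)
  linarith

/-- If `g ∘ chi` is differentiable at `y` then so is `g` at `chi y`. -/
theorem differentiableAt_of_comp (ha : a * a = 1) (hb : b * b = 1) {g : E2 → ℝ} {y : E2}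
    (hy : y 1 ≠ 0) (h : DifferentiableAt ℝ (fun z => g (chi a b z)) y) :
    DifferentiableAt ℝ g (chi a b y) := by
  have e : g = (fun z => g (chi a b z)) ∘ kap a b := by
    ext x
    simp only [Function.comp]
    rw [chi_kap ha hb]
  rw [e]
  apply DifferentiableAt.comp
  · rw [kap_chi ha hb]
    exact h
  · apply differentiableAt_kap
    intro h2
    apply hy
    rw [← chi_line ha hb y, h2, sub_self]

theorem J2_comp_chi {g h : E2 → ℝ} {y : E2} (hy : y 1 ≠ 0)
    (hg : DifferentiableAt ℝ g (chi a b y)) (hh : DifferentiableAt ℝ h (chi a b y)) :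
    J2 (fun z => g (chi a b z)) (fun z => h (chi a b z)) y =
      -(a * b) * J2 g h (chi a b y) := by
  have key : ∀ {k : E2 → ℝ}, DifferentiableAt ℝ k (chi a b y) → ∀ j,
      dd j (fun z => k (chi a b z)) y = (chiD a b y (ee j)) 0 * dd 0 k (chi a b y) +
        (chiD a b y (ee j)) 1 * dd 1 k (chi a b y) := by
    intro k hk j
    have h1 := (hk.hasFDerivAt.comp y (hasFDerivAt_chi (a := a) (b := b) hy)).fderiv
    have h2 : dd j (fun z => k (chi a b z)) y = fderiv ℝ (k ∘ chi a b) y (ee j) := rfl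
    rw [h2, h1, ContinuousLinearMap.comp_apply, fderiv_apply_eq]
  unfold J2
  rw [key hg, key hh, key hg, key hh]
  by_cases h : 0 < y 1
  · rw [chiD_pos h, chiD_pos h]
    simp only [ee_zero_zero, ee_zero_one, ee_one_zero, ee_one_one, Matrix.cons_val_zero,
      Matrix.cons_val_one]
    ring
  · rw [chiD_neg h, chiD_neg h]
    simp only [ee_zero_zero, ee_zero_one, ee_one_zero, ee_one_one, Matrix.cons_val_zero,
      Matrix.cons_val_one]
    ring

/-- The good part of the chart domain. -/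
def SS : Set E2 := OO ∩ {y | 0 < y 0 ∧ y 1 ≠ 0}

theorem isOpen_SS : IsOpen SS := by
  apply isOpen_OO.inter
  exact (isOpen_lt continuous_const (continuous_apply 0)).inter
    (isOpen_ne_fun (continuous_apply 1) continuous_const)

theorem SS_subset : SS ⊆ UC := by
  rintro y ⟨h1, h2, _⟩
  exact ⟨h1, (mem_halfSpace_iff y).mpr h2.le⟩

theorem isOpen_halfSpace_meas : MeasurableSet UC := by
  apply isOpen_OO.measurableSet.inter
  have : halfSpace 2 = {y : E2 | 0 ≤ y 0} := by
    ext y; exact mem_halfSpace_iff y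
  rw [this]
  exact (isClosed_le continuous_const (continuous_apply 0)).measurableSet

theorem ae_SS : ∀ᵐ y : E2, y ∈ UC → y ∈ SS := by
  have h0 : ∀ᵐ y : E2, y 0 ≠ 0 := by
    rw [ae_iff]; simpa using volume_coord 0 0
  have h1 : ∀ᵐ y : E2, y 1 ≠ 0 := by
    rw [ae_iff]; simpa using volume_coord 1 0
  filter_upwards [h0, h1] with y a0 a1 hy
  exact ⟨hy.1, lt_of_le_of_ne ((mem_halfSpace_iff y).mp hy.2) (Ne.symm a0), a1⟩

theorem ae_chi_SS (ha : a * a = 1) (hb : b * b = 1) :
    ∀ᵐ x : E2, x ∈ chi a b '' UC → x ∈ chi a b '' SS := by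
  have h0 : ∀ᵐ x : E2, x 0 ≠ a := by
    rw [ae_iff]; simpa using volume_coord 0 a
  have h1 : ∀ᵐ x : E2, x 1 ≠ b := by
    rw [ae_iff]; simpa using volume_coord 1 b
  have h2 : ∀ᵐ x : E2, a * x 0 - b * x 1 ≠ 0 := by
    rw [ae_iff]
    simp only [ne_eq, not_not]
    refine volume_line (a • (LinearMap.proj 0 : E2 →ₗ[ℝ] ℝ) -
      b • (LinearMap.proj 1 : E2 →ₗ[ℝ] ℝ)) ?_ 0
    intro h
    have := congrArg (fun ℓ : E2 →ₗ[ℝ] ℝ => ℓ (ee 0)) h
    simp [ee] at this
    rw [this] at ha
    norm_num at ha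
  filter_upwards [h0, h1, h2] with x c0 c1 c2 hx
  obtain ⟨y, hy, rfl⟩ := hx
  refine ⟨y, ⟨hy.1, ?_, ?_⟩, rfl⟩
  · refine lt_of_le_of_ne ((mem_halfSpace_iff y).mp hy.2) ?_
    intro h
    have e0 : chi a b y 0 = a * (1 - (y 0 + max (y 1) 0)) := rfl
    have e1 : chi a b y 1 = b * (1 - (y 0 + max (-y 1) 0)) := rfl
    rcases le_total (y 1) 0 with h3 | h3
    · apply c0
      rw [e0, ← h, max_eq_right h3]; ring
    · apply c1
      rw [e1, ← h, max_eq_right (by linarith : -y 1 ≤ 0)]; ring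
  · intro h
    apply c2
    have := chi_line ha hb y
    linarith

/-- The current of integration in a chart. -/
theorem TZ_chart (ha : a * a = 1) (hb : b * b = 1) (c : ℤ) (hc : (c : ℝ) = -(a * b))
    (f : Intrinsic YY → ℝ) (π : Fin 2 → Intrinsic YY → ℝ)
    (hπ : ∀ i, IsLip (π i)) (hsupp : ∀ x, f x ≠ 0 → x ∈ phi a b '' UC) :
    TZ eY f π = chartCurrent UC (fun _ => c) (phi a b) f π := by
  have hab : (a * b) * (a * b) = 1 := by
    calc (a * b) * (a * b) = (a * a) * (b * b) := by ring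
      _ = 1 := by rw [ha, hb, one_mul]
  rw [TZ_apply isModel_eY _ hπ]
  set g : Fin 2 → E2 → ℝ := fun i y => π i (eY y) with hg
  set G : E2 → ℝ := fun x => f (eY x) * J2 (g 0) (g 1) x with hG
  have lipg : ∀ i, ∃ K : ℝ≥0, LipschitzWith K (g i) := by
    intro i
    obtain ⟨K, hK⟩ := hπ i
    exact ⟨_, isModel_eY.comp_lip hK⟩
  -- restrict to the image of the chart
  have sub : chi a b '' SS ⊆ D := by
    rintro x ⟨y, hy, rfl⟩
    exact ((chi_mem_iff ha hb y).mp (SS_subset hy)).1
  have step1 : ∫ x in D, G x = ∫ x in chi a b '' SS, G x := by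
    apply setIntegral_eq_of_subset_of_ae_sdiff_eq_zero measurableSet_D.nullMeasurableSet sub
    filter_upwards [ae_chi_SS ha hb] with x hx hxD
    simp only [hG]
    by_cases hf : f (eY x) = 0
    · rw [hf, zero_mul]
    · exfalso
      obtain ⟨y, hy, hyx⟩ := hsupp _ hf
      apply hxD.2
      apply hx
      refine ⟨y, hy, ?_⟩
      exact isModel_eY.inj ((chi_mem_iff ha hb y).mp hy).1 hxD.1 hyx
  have inj : InjOn (chi a b) SS := by
    intro y _ z _ h
    rw [← kap_chi ha hb y, h, kap_chi ha hb]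
  have step2 : ∫ x in chi a b '' SS, G x = ∫ y in SS, G (chi a b y) := by
    rw [integral_image_eq_integral_abs_det_fderiv_smul volume isOpen_SS.measurableSet
      (f' := chiD a b) (fun y hy => (hasFDerivAt_chi hy.2.2).hasFDerivWithinAt) inj]
    congr 1
    ext y
    rw [det_chiD, abs_neg, abs_mul, abs_eq_one ha, abs_eq_one hb, mul_one, one_smul]
  -- differentiability of the functions in the chart
  have lipw : ∀ i, ∃ K : ℝ≥0, LipschitzWith K (fun y => g i (chi a b y)) := by
    intro i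
    obtain ⟨K, hK⟩ := lipg i
    refine ⟨K * 2, hK.comp ?_⟩
    apply LipschitzWith.of_dist_le_mul
    intro x y
    rw [dist_eq_norm, dist_eq_norm]
    simpa using norm_chi_sub_le ha hb x y
  obtain ⟨K0, hK0⟩ := lipw 0
  obtain ⟨K1, hK1⟩ := lipw 1
  rw [step1, step2]
  unfold chartCurrent
  have step3 : ∫ y in UC, ((c : ℝ)) * f (phi a b y) *
      (fderivWithin ℝ (fun y (i : Fin 2) => π i (phi a b y)) UC y).det =
      ∫ y in SS, ((c : ℝ)) * f (phi a b y) *
      (fderivWithin ℝ (fun y (i : Fin 2) => π i (phi a b y)) UC y).det := by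
    apply setIntegral_eq_of_subset_of_ae_sdiff_eq_zero isOpen_halfSpace_meas.nullMeasurableSet
      SS_subset
    filter_upwards [ae_SS] with y hy hy2
    exact absurd (hy hy2.1) hy2.2
  rw [step3]
  apply integral_congr_ae
  filter_upwards [ae_restrict_of_ae hK0.ae_differentiableAt,
    ae_restrict_of_ae hK1.ae_differentiableAt, ae_restrict_mem isOpen_SS.measurableSet]
    with y h0 h1 hy
  have hUC : UC ∈ 𝓝 y := mem_of_superset (isOpen_SS.mem_nhds hy) SS_subset
  rw [fderivWithin_of_mem_nhds hUC, det_fderiv (h := fun i y => π i (phi a b y)) h0 h1]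
  have d0 := differentiableAt_of_comp ha hb hy.2.2 h0
  have d1 := differentiableAt_of_comp ha hb hy.2.2 h1
  have hJ := J2_comp_chi hy.2.2 d0 d1
  simp only [hG]
  have e1 : J2 (fun y => π 0 (phi a b y)) (fun y => π 1 (phi a b y)) y =
    -(a * b) * J2 (g 0) (g 1) (chi a b y) := hJ
  rw [e1, hc]
  show f (eY (chi a b y)) * _ = _
  have e2 : f (phi a b y) = f (eY (chi a b y)) := rfl
  rw [e2]
  linear_combination (-(f (eY (chi a b y)) * J2 (g 0) (g 1) (chi a b y))) * hab

theorem isIntegrationCurrent_YY : IsIntegrationCurrent YY (TZ eY) := by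
  intro p
  obtain ⟨x, hx, rfl⟩ := isModel_eY.surj p
  obtain ⟨a, ha, ha'⟩ : ∃ a : ℝ, (a = 1 ∨ a = -1) ∧ -1 < a * x 0 := by
    by_cases h : 0 ≤ x 0
    · exact ⟨1, Or.inl rfl, by linarith⟩
    · exact ⟨-1, Or.inr rfl, by linarith⟩
  obtain ⟨b, hb, hb'⟩ : ∃ b : ℝ, (b = 1 ∨ b = -1) ∧ -1 < b * x 1 := by
    by_cases h : 0 ≤ x 1
    · exact ⟨1, Or.inl rfl, by linarith⟩
    · exact ⟨-1, Or.inr rfl, by linarith⟩
  have haa : a * a = 1 := by rcases ha with rfl | rfl <;> norm_num
  have hbb : b * b = 1 := by rcases hb with rfl | rfl <;> norm_num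
  obtain ⟨c, hc, hc'⟩ : ∃ c : ℤ, (c : ℝ) = -(a * b) ∧ (c = 1 ∨ c = -1) := by
    rcases ha with rfl | rfl <;> rcases hb with rfl | rfl
    · exact ⟨-1, by norm_num, Or.inr rfl⟩
    · exact ⟨1, by norm_num, Or.inl rfl⟩
    · exact ⟨1, by norm_num, Or.inl rfl⟩
    · exact ⟨-1, by norm_num, Or.inr rfl⟩
  refine ⟨UC, phi a b, c, isLipschitzChart_phi haa hbb, ?_, hc', ?_⟩
  · refine ⟨kap a b x, ?_, ?_⟩
    · rw [chi_mem_iff haa hbb, chi_kap haa hbb]
      exact ⟨hx, ha', hb'⟩
    · show eY (chi a b (kap a b x)) = _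
      rw [chi_kap haa hbb]
  · intro f π _ hπ hsupp
    exact TZ_chart haa hbb c hc f π hπ hsupp

end Pool.Agent.helper71.LVR
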