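import Mathlib

/-!
# Metric currents, integral current spaces, intrinsic metrics

Definitions following Ambrosio and Kirchheim (metric currents, mass, integer rectifiable and
integral currents) and Sormani and Wenger (integral current spaces).
-/

open MeasureTheory Set Filter Topology
open scoped ENNReal NNReal

namespace Pool.Agent.helper71.LVR

/-- The data of an `n`-dimensional metric functional on `X`: it eats a function `f` and an
`n`-tuple `π` of functions.  Only its values for bounded Lipschitz `f` and Lipschitz `π i`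
matter. -/
abbrev MetricFunctional (n : ℕ) (X : Type*) := (X → ℝ) → (Fin n → X → ℝ) → ℝ

/-- `f` is Lipschitz (for some constant). -/
def IsLip {X : Type*} [PseudoEMetricSpace X] (f : X → ℝ) : Prop :=
  ∃ K : ℝ≥0, LipschitzWith K f

/-- `f` is bounded and Lipschitz. -/
def IsBddLip {X : Type*} [PseudoEMetricSpace X] (f : X → ℝ) : Prop :=
  IsLip f ∧ ∃ B : ℝ, ∀ x, |f x| ≤ B

section Currents

variable {n : ℕ} {X : Type*} [EMetricSpace X] [MeasurableSpace X] [BorelSpace X]

/-- The mass inequality of Ambrosio and Kirchheim: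
`|T(f, π₁, …, πₙ)| ≤ Lip(π₁) ⋯ Lip(πₙ) ∫ |f| dμ`. -/
def MassBound (T : MetricFunctional n X) (μ : Measure X) : Prop :=
  ∀ (f : X → ℝ) (π : Fin n → X → ℝ) (L : Fin n → ℝ≥0), IsBddLip f →
    (∀ i, LipschitzWith (L i) (π i)) →
    ENNReal.ofReal |T f π| ≤ (∏ i, (L i : ℝ≥0∞)) * ∫⁻ x, ENNReal.ofReal |f x| ∂μ

/-- `μ` is the mass measure `‖T‖`: the least finite Borel measure satisfying the mass
inequality. -/
def IsMassMeasure (T : MetricFunctional n X) (μ : Measure X) : Prop :=
  IsLeast {ν : Measure X | IsFiniteMeasure ν ∧ MassBound T ν} μ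

/-- The mass `M(T)`: the least total mass of a Borel measure satisfying the mass inequality
(it is `⊤` if there is no such finite measure). -/
noncomputable def mass (T : MetricFunctional n X) : ℝ≥0∞ :=
  ⨅ (μ : Measure X) (_ : MassBound T μ), μ univ

/-- `n`-dimensional metric currents (of finite mass) in the sense of Ambrosio and
Kirchheim. -/
structure IsMetricCurrent (T : MetricFunctional n X) : Prop where
  add_left : ∀ (f g : X → ℝ) (π : Fin n → X → ℝ), IsBddLip f → IsBddLip g →
    (∀ i, IsLip (π i)) → T (f + g) π = T f π + T g π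
  smul_left : ∀ (c : ℝ) (f : X → ℝ) (π : Fin n → X → ℝ), IsBddLip f →
    (∀ i, IsLip (π i)) → T (c • f) π = c * T f π
  add_right : ∀ (f : X → ℝ) (π : Fin n → X → ℝ) (i : Fin n) (u v : X → ℝ), IsBddLip f →
    (∀ j, IsLip (π j)) → IsLip u → IsLip v →
    T f (Function.update π i (u + v)) =
      T f (Function.update π i u) + T f (Function.update π i v)
  smul_right : ∀ (f : X → ℝ) (π : Fin n → X → ℝ) (i : Fin n) (c : ℝ) (u : X → ℝ),
    IsBddLip f → (∀ j, IsLip (π j)) → IsLip u →
    T f (Function.update π i (c • u)) = c * T f (Function.update π i u)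
  /-- continuity -/
  continuity : ∀ (f : X → ℝ) (π : ℕ → Fin n → X → ℝ) (ρ : Fin n → X → ℝ) (K : ℝ≥0),
    IsBddLip f → (∀ k i, LipschitzWith K (π k i)) →
    (∀ i x, Tendsto (fun k => π k i x) atTop (𝓝 (ρ i x))) →
    Tendsto (fun k => T f (π k)) atTop (𝓝 (T f ρ))
  /-- locality -/
  locality : ∀ (f : X → ℝ) (π : Fin n → X → ℝ) (i : Fin n) (O : Set X) (c : ℝ), IsBddLip f →
    (∀ j, IsLip (π j)) → IsOpen O → {x | f x ≠ 0} ⊆ O → (∀ x ∈ O, π i x = c) → T f π = 0
  /-- finite mass -/
  finite_mass : ∃ μ : Measure X, IsFiniteMeasure μ ∧ MassBound T μ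

/-- The boundary `∂T(f, π₁, …, πₙ) = T(1, f, π₁, …, πₙ)`. -/
def boundary (T : MetricFunctional (n + 1) X) : MetricFunctional n X :=
  fun f π => T (fun _ => 1) (Fin.cons f π)

/-- The functional `φ_#⟦θ⟧` on `K ⊆ ℝⁿ`:
`(f, π) ↦ ∫_K θ (f ∘ φ) det D(π ∘ φ)`. -/
noncomputable def chartCurrent (K : Set (Fin n → ℝ)) (θ : (Fin n → ℝ) → ℤ)
    (φ : (Fin n → ℝ) → X) : MetricFunctional n X :=
  fun f π => ∫ x in K, (θ x : ℝ) * f (φ x) *
    (fderivWithin ℝ (fun y (i : Fin n) => π i (φ y)) K x).det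

end Currents

/-- `φ` is bi-Lipschitz on `K`. -/
def IsBiLipschitzOn {A B : Type*} [PseudoEMetricSpace A] [PseudoEMetricSpace B]
    (φ : A → B) (K : Set A) : Prop :=
  ∃ C : ℝ≥0, ∀ x ∈ K, ∀ y ∈ K,
    edist (φ x) (φ y) ≤ C * edist x y ∧ edist x y ≤ C * edist (φ x) (φ y)

section Currents2

variable {n : ℕ} {X : Type*} [EMetricSpace X] [MeasurableSpace X] [BorelSpace X]

/-- Integer rectifiable currents, in the parametric description of Ambrosio and Kirchheim
(their Theorem 4.5): `T = ∑ φₖ_#⟦θₖ⟧` with `φₖ` bi-Lipschitz on the compact set `Kₖ ⊆ ℝⁿ`,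
`θₖ ∈ L¹(Kₖ, ℤ)` and `M(T) = ∑ M(φₖ_#⟦θₖ⟧)`. -/
def IsIntegerRectifiable (T : MetricFunctional n X) : Prop :=
  ∃ (K : ℕ → Set (Fin n → ℝ)) (θ : ℕ → (Fin n → ℝ) → ℤ) (φ : ℕ → (Fin n → ℝ) → X),
    (∀ k, IsCompact (K k)) ∧ (∀ k, IntegrableOn (fun x => (θ k x : ℝ)) (K k)) ∧
    (∀ k, IsBiLipschitzOn (φ k) (K k)) ∧
    (∀ (f : X → ℝ) (π : Fin n → X → ℝ), IsBddLip f → (∀ i, IsLip (π i)) →
      HasSum (fun k => chartCurrent (K k) (θ k) (φ k) f π) (T f π)) ∧
    mass T = ∑' k, mass (chartCurrent (K k) (θ k) (φ k))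

/-- Integral currents (of dimension `n + 1 ≥ 1`): integer rectifiable currents whose boundary
has finite mass. -/
structure IsIntegralCurrent (T : MetricFunctional (n + 1) X) : Prop where
  current : IsMetricCurrent T
  rectifiable : IsIntegerRectifiable T
  boundary_mass : mass (boundary T) < ⊤

/-- The lower `n`-dimensional density of `μ` at `p` (up to the factor `ωₙ`). -/
noncomputable def lowerDensity (n : ℕ) (μ : Measure X) (p : X) : ℝ≥0∞ :=
  liminf (fun r : ℝ => μ (Metric.eball p (ENNReal.ofReal r)) / ENNReal.ofReal (r ^ n))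
    (𝓝[>] (0 : ℝ))

end Currents2

/-- The completion of a metric space carries its Borel `σ`-algebra. -/
noncomputable instance {X : Type*} [UniformSpace X] : MeasurableSpace (UniformSpace.Completion X) :=
  borel _

instance {X : Type*} [UniformSpace X] : BorelSpace (UniformSpace.Completion X) := ⟨rfl⟩

/-- Integral current spaces `(X, d, T)` of dimension `n + 1 ≥ 1` (Sormani and Wenger):
`T` is an integral current on the completion of the metric space `X`, and `X` is the set of
points of positive lower density of the mass measure `‖T‖`. -/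
structure IntegralCurrentSpace (n : ℕ) where
  X : Type
  [metric : MetricSpace X]
  T : MetricFunctional (n + 1) (UniformSpace.Completion X)
  integral : IsIntegralCurrent T
  μ : Measure (UniformSpace.Completion X)
  isMassMeasure : IsMassMeasure T μ
  set_eq : {p | 0 < lowerDensity (n + 1) μ p} = Set.range ((↑) : X → UniformSpace.Completion X)

attribute [instance] IntegralCurrentSpace.metric

section Intrinsic

variable {E : Type*} [EMetricSpace E]

/-- The intrinsic distance of `Y`: the infimum of the lengths of the curves in `Y` from `p`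
to `q`. -/
noncomputable def intrinsicEDist (Y : Set E) (p q : E) : ℝ≥0∞ :=
  ⨅ (γ : ℝ → E) (_ : ContinuousOn γ (Icc 0 1)) (_ : MapsTo γ (Icc 0 1) Y)
    (_ : γ 0 = p) (_ : γ 1 = q), eVariationOn γ (Icc (0 : ℝ) 1)

/-- The subset `Y` endowed with its intrinsic metric. -/
def Intrinsic (Y : Set E) : Type _ := ↥Y

theorem intrinsicEDist_le {Y : Set E} {p q : E} {γ : ℝ → E} (h1 : ContinuousOn γ (Icc 0 1))
    (h2 : MapsTo γ (Icc 0 1) Y) (h3 : γ 0 = p) (h4 : γ 1 = q) :
    intrinsicEDist Y p q ≤ eVariationOn γ (Icc (0 : ℝ) 1) := by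
  unfold intrinsicEDist
  exact iInf_le_of_le γ (iInf_le_of_le h1 (iInf_le_of_le h2 (iInf_le_of_le h3
    (iInf_le_of_le h4 le_rfl))))

theorem edist_le_intrinsicEDist (Y : Set E) (p q : E) : edist p q ≤ intrinsicEDist Y p q := by
  unfold intrinsicEDist
  refine le_iInf fun γ => le_iInf fun _ => le_iInf fun _ => le_iInf fun h3 =>
    le_iInf fun h4 => ?_
  rw [← h3, ← h4]
  exact eVariationOn.edist_le γ (by simp) (by simp)

theorem intrinsicEDist_self {Y : Set E} {p : E} (hp : p ∈ Y) : intrinsicEDist Y p p = 0 := by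
  refine le_antisymm ?_ zero_le
  refine (intrinsicEDist_le (γ := fun _ => p) continuousOn_const (fun _ _ => hp) rfl rfl).trans
    (le_of_eq ?_)
  apply eVariationOn.constant_on
  rintro _ ⟨x, _, rfl⟩ _ ⟨y, _, rfl⟩
  rfl

theorem intrinsicEDist_comm_le (Y : Set E) (p q : E) :
    intrinsicEDist Y p q ≤ intrinsicEDist Y q p := by
  conv_rhs => unfold intrinsicEDist
  refine le_iInf fun γ => le_iInf fun h1 => le_iInf fun h2 => le_iInf fun h3 =>
    le_iInf fun h4 => ?_
  have hmaps : MapsTo (fun t : ℝ => 1 - t) (Icc 0 1) (Icc 0 1) := by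
    intro t ht
    constructor <;> linarith [ht.1, ht.2]
  have himg : (fun t : ℝ => 1 - t) '' (Icc 0 1) = Icc 0 1 := by
    simp
  have hanti : AntitoneOn (fun t : ℝ => 1 - t) (Icc 0 1) := by
    intro a _ b _ hab
    simp only
    linarith
  refine (intrinsicEDist_le (γ := γ ∘ fun t : ℝ => 1 - t) ?_ ?_ ?_ ?_).trans (le_of_eq ?_)
  · exact h1.comp (by fun_prop) hmaps
  · exact h2.comp hmaps
  · simp [h4]
  · simp [h3]
  · rw [eVariationOn.comp_eq_of_antitoneOn γ _ hanti, himg]

theorem intrinsicEDist_triangle (Y : Set E) (p q r : E) :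
    intrinsicEDist Y p r ≤ intrinsicEDist Y p q + intrinsicEDist Y q r := by
  conv_rhs => unfold intrinsicEDist
  simp only [ENNReal.iInf_add, ENNReal.add_iInf]
  refine le_iInf fun γ₂ => le_iInf fun b1 => le_iInf fun b2 => le_iInf fun b3 =>
    le_iInf fun b4 => le_iInf fun γ₁ => le_iInf fun a1 => le_iInf fun a2 =>
    le_iInf fun a3 => le_iInf fun a4 => ?_
  set γ : ℝ → E := fun t => if t ≤ 1 / 2 then γ₁ (2 * t) else γ₂ (2 * t - 1) with hγ
  have e1 : EqOn γ (γ₁ ∘ fun t => 2 * t) (Icc 0 (1 / 2)) := by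
    intro t ht
    simp only [hγ, Function.comp]
    rw [if_pos ht.2]
  have e2 : EqOn γ (γ₂ ∘ fun t => 2 * t - 1) (Icc (1 / 2) 1) := by
    intro t ht
    simp only [hγ, Function.comp]
    rcases eq_or_lt_of_le ht.1 with h | h
    · rw [if_pos (le_of_eq h.symm), ← h]
      norm_num
      rw [a4, b3]
    · rw [if_neg (not_le.mpr h)]
  have m1 : MapsTo (fun t : ℝ => 2 * t) (Icc 0 (1 / 2)) (Icc 0 1) := by
    intro t ht
    constructor <;> linarith [ht.1, ht.2]
  have m2 : MapsTo (fun t : ℝ => 2 * t - 1) (Icc (1 / 2) 1) (Icc 0 1) := by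
    intro t ht
    constructor <;> linarith [ht.1, ht.2]
  have u : Icc (0 : ℝ) 1 = Icc 0 (1 / 2) ∪ Icc (1 / 2) 1 :=
    (Icc_union_Icc_eq_Icc (by norm_num) (by norm_num)).symm
  have c1 : ContinuousOn γ (Icc 0 (1 / 2)) :=
    (a1.comp (by fun_prop) m1).congr e1
  have c2 : ContinuousOn γ (Icc (1 / 2) 1) :=
    (b1.comp (by fun_prop) m2).congr e2
  refine (intrinsicEDist_le (γ := γ) ?_ ?_ ?_ ?_).trans ?_
  · rw [u]
    exact c1.union_of_isClosed c2 isClosed_Icc isClosed_Icc
  · rw [u]
    rintro t (ht | ht)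
    · rw [e1 ht]; exact a2 (m1 ht)
    · rw [e2 ht]; exact b2 (m2 ht)
  · rw [e1 (by simp)]; simp [a3]
  · rw [e2 (by norm_num)]; simp only [Function.comp]; norm_num; exact b4
  · have h := eVariationOn.Icc_add_Icc γ (s := univ) (a := 0) (b := 1 / 2) (c := 1)
      (by norm_num) (by norm_num) (mem_univ _)
    simp only [univ_inter] at h
    rw [← h, eVariationOn.congr e1, eVariationOn.congr e2]
    refine add_le_add ?_ ?_
    · refine eVariationOn.comp_le_of_monotoneOn _ _ ?_ m1
      intro a _ b _ hab; simp only; linarith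
    · refine eVariationOn.comp_le_of_monotoneOn _ _ ?_ m2
      intro a _ b _ hab; simp only; linarith

noncomputable instance (Y : Set E) : EMetricSpace (Intrinsic Y) where
  edist p q := intrinsicEDist Y p.1 q.1
  edist_self p := intrinsicEDist_self p.2
  edist_comm p q := le_antisymm (intrinsicEDist_comm_le _ _ _) (intrinsicEDist_comm_le _ _ _)
  edist_triangle p q r := intrinsicEDist_triangle _ _ _ _
  eq_of_edist_eq_zero := by
    intro p q h
    apply Subtype.ext
    apply eq_of_edist_eq_zero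
    exact le_antisymm ((edist_le_intrinsicEDist _ _ _).trans (le_of_eq h)) zero_le

noncomputable instance (Y : Set E) : MeasurableSpace (Intrinsic Y) := borel _

instance (Y : Set E) : BorelSpace (Intrinsic Y) := ⟨rfl⟩

end Intrinsic

section Manifolds

/-- The closed half space `{x ∈ ℝⁿ | 0 ≤ x₁}`. -/
def halfSpace (n : ℕ) : Set (Fin n → ℝ) := {x | ∀ i : Fin n, (i : ℕ) = 0 → 0 ≤ x i}

variable {N n : ℕ}

/-- `φ` is a Lipschitz chart of `Y ⊆ ℝᴺ` with domain `U`: `U` is a relatively open subset of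
the closed half space, `φ` is bi-Lipschitz on `U` (for the Euclidean metric of `ℝᴺ`) and
`φ(U)` is a relatively open subset of `Y`. -/
structure IsLipschitzChart (Y : Set (EuclideanSpace ℝ (Fin N))) (U : Set (Fin n → ℝ))
    (φ : (Fin n → ℝ) → Intrinsic Y) : Prop where
  isOpen_dom : ∃ O : Set (Fin n → ℝ), IsOpen O ∧ U = O ∩ halfSpace n
  biLipschitz : IsBiLipschitzOn (fun x => (φ x).1) U
  isOpen_image : ∃ O : Set (EuclideanSpace ℝ (Fin N)), IsOpen O ∧
    (fun x => (φ x).1) '' U = O ∩ Y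

/-- `T` is the multiplicity-one current of integration over the `n`-dimensional Lipschitz
manifold (with boundary) `Y ⊆ ℝᴺ`, for some orientation of `Y`: around every point of `Y`
there is a Lipschitz chart `φ : U → Y` such that `T = ± φ_#⟦U⟧` on `φ(U)`.  In particular `Y`
is an orientable `n`-dimensional Lipschitz manifold with (possibly empty) boundary. -/
def IsIntegrationCurrent (Y : Set (EuclideanSpace ℝ (Fin N)))
    (T : MetricFunctional n (Intrinsic Y)) : Prop :=
  ∀ p : Intrinsic Y, ∃ (U : Set (Fin n → ℝ)) (φ : (Fin n → ℝ) → Intrinsic Y) (ε : ℤ),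
    IsLipschitzChart Y U φ ∧ p ∈ φ '' U ∧ (ε = 1 ∨ ε = -1) ∧
    ∀ (f : Intrinsic Y → ℝ) (π : Fin n → Intrinsic Y → ℝ), IsBddLip f →
      (∀ i, IsLip (π i)) → (∀ x, f x ≠ 0 → x ∈ φ '' U) →
      T f π = chartCurrent U (fun _ => ε) φ f π

/-- Lipschitz-volume rigidity of `Y` (with its intrinsic metric and the current `T = ⟦Y⟧`)
among integral current spaces: every 1-Lipschitz map `f : X → Y` from an integral current
space `X` with `f_#⟦X⟧ = ⟦Y⟧`, `M(⟦∂X⟧) ≤ M(⟦∂Y⟧)` and `M(⟦X⟧) ≤ M(⟦Y⟧)` is an isometry. -/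
def HasLipschitzVolumeRigidity (Y : Set (EuclideanSpace ℝ (Fin N)))
    (T : MetricFunctional (n + 1) (Intrinsic Y)) : Prop :=
  ∀ (S : IntegralCurrentSpace n) (f : S.X → Intrinsic Y), LipschitzWith 1 f →
    (∀ (g : Intrinsic Y → ℝ) (π : Fin (n + 1) → Intrinsic Y → ℝ), IsBddLip g →
      (∀ i, IsLip (π i)) →
      S.T (g ∘ UniformSpace.Completion.extension f)
        (fun i => π i ∘ UniformSpace.Completion.extension f) = T g π) →
    mass (boundary S.T) ≤ mass (boundary T) → mass S.T ≤ mass T → Isometry f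

end Manifolds

end Pool.Agent.helper71.LVR
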