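import Pool.Agent.helper71.LVR.XSpace

/-!
# Comparison of the boundary masses and the final result
-/

open MeasureTheory Set Filter Topology
open scoped ENNReal NNReal

namespace Pool.Agent.helper71.LVR

theorem norm_nu {x : E2} (hx : x ≠ 0) : ‖nu x‖ = 1 := by
  unfold nu
  rw [norm_smul, norm_inv, norm_norm, inv_mul_cancel₀ (norm_ne_zero_iff.mpr hx)]

theorem ae_ne_zero : ∀ᵐ x : E2, x ≠ 0 := by
  rw [ae_iff]
  simp

theorem setIntegral_J2_eq_of_boundary {u h1 h2 : E2 → ℝ} {K L M A B : ℝ≥0}
    (hu : LipschitzWith K u) (hh1 : LipschitzWith L h1) (hh2 : LipschitzWith M h2)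
    (hA : ∀ x, |h1 x| ≤ A) (hB : ∀ x, |h2 x| ≤ B) (h : ∀ x, ‖x‖ = 1 → h1 x = h2 x) :
    ∫ x in D, J2 u h1 x = ∫ x in D, J2 u h2 x := by
  have hw : LipschitzWith (L + M) (fun x => h1 x - h2 x) := hh1.sub hh2
  have hwB : ∀ x, |h1 x - h2 x| ≤ ((A + B : ℝ≥0) : ℝ) := by
    intro x
    push_cast
    exact (abs_sub _ _).trans (add_le_add (hA x) (hB x))
  have b := abs_setIntegral_J2_le hw hu hwB
  have z : ∫ x in D, |(fun x => h1 x - h2 x) (nu x)| = 0 := by
    have : ∫ x in D, |(fun x => h1 x - h2 x) (nu x)| = ∫ x in D, (0 : ℝ) := by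
      apply integral_congr_ae
      filter_upwards [ae_restrict_of_ae ae_ne_zero] with x hx
      rw [h _ (norm_nu hx), sub_self, abs_zero]
    rw [this]; simp
  rw [z, mul_zero] at b
  have z2 : ∫ x in D, J2 (fun x => h1 x - h2 x) u x = 0 := abs_nonpos_iff.mp b
  have I1 : IntegrableOn (fun x => J2 u h1 x) D :=
    integrable_of_bound (measurable_J2 _ _) (abs_J2_le hu hh1)
  have I2 : IntegrableOn (fun x => J2 u h2 x) D :=
    integrable_of_bound (measurable_J2 _ _) (abs_J2_le hu hh2)
  have e : ∫ x in D, J2 (fun x => h1 x - h2 x) u x =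
      ∫ x in D, (J2 u h2 x - J2 u h1 x) := by
    apply integral_congr_ae
    filter_upwards [ae_restrict_of_ae hh1.ae_differentiableAt,
      ae_restrict_of_ae hh2.ae_differentiableAt] with x d1 d2
    unfold J2
    rw [dd_sub d1 d2, dd_sub d1 d2]
    ring
  rw [e, integral_sub I2 I1] at z2
  linarith

theorem intrinsic_ne_top (p q : Intrinsic YY) : edist p q ≠ ⊤ := by
  obtain ⟨x, hx, rfl⟩ := isModel_eY.surj p
  obtain ⟨y, hy, rfl⟩ := isModel_eY.surj q
  refine ((isModel_eY.lip x y).trans_lt ?_).ne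
  exact ENNReal.mul_lt_top (by simp) (edist_lt_top x y)

/-- McShane extension on the graph with its intrinsic metric. -/
theorem extend_intrinsic {f : Intrinsic YY → ℝ} {s : Set (Intrinsic YY)} {K : ℝ≥0}
    (hf : ∀ x ∈ s, ∀ y ∈ s, edist (f x) (f y) ≤ K * edist x y) :
    ∃ g : Intrinsic YY → ℝ, LipschitzWith K g ∧ EqOn f g s := by
  let _ : MetricSpace (Intrinsic YY) := EMetricSpace.toMetricSpace intrinsic_ne_top
  have h : LipschitzOnWith K f s := fun x hx y hy => hf x hx y hy
  obtain ⟨g, hg, hg2⟩ := h.extend_real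
  exact ⟨g, hg, hg2⟩

theorem psi_boundary {x : E2} (h : ‖x‖ = 1) : psi x = 0 := by
  unfold psi
  apply max_eq_left
  rw [norm_eq_max] at h
  have h0 := abs_nonneg (x 0)
  have h1 := abs_nonneg (x 1)
  rcases max_choice |x 0| |x 1| with h2 | h2
  · rw [h2] at h; linarith
  · rw [h2] at h; linarith

theorem mem_D_of_norm {x : E2} (h : ‖x‖ = 1) : x ∈ D := by
  simp [D, h]

theorem massBound_transfer {ν : Measure (Intrinsic YY)} (hν : MassBound (boundary (TZ eY)) ν) :
    MassBound (boundary (TZ eX)) (Measure.map (fun p => eX (isModel_eY.inv p)) ν) := by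
  intro f π L hf hπ
  have hk : LipschitzWith (2 * 1) (fun p => eX (isModel_eY.inv p)) :=
    lipschitz_eX.comp isModel_eY.lipschitz_inv
  have hkm : Measurable (fun p => eX (isModel_eY.inv p)) := hk.continuous.measurable
  have hfm : Measurable f := by
    obtain ⟨K, hK⟩ := hf.1
    exact hK.continuous.measurable
  have hke : ∀ x, eX (isModel_eY.inv (eY x)) = eX x := by
    intro x
    rw [← eY_cl x, isModel_eY.inv_e (cl_mem x), eX_cl]
  -- extend `π 0` from the boundary
  obtain ⟨π', hπ', hext⟩ := extend_intrinsic (f := fun p => π 0 (eX (isModel_eY.inv p)))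
    (s := {p | ‖isModel_eY.inv p‖ = 1}) (K := L 0) (by
      intro p hp q hq
      refine (hπ 0 _ _).trans ?_
      gcongr
      rw [edist_eX, cl_of_mem (isModel_eY.inv_mem p), cl_of_mem (isModel_eY.inv_mem q)]
      unfold edX
      rw [psi_boundary hp, psi_boundary hq,
        edist_self, max_eq_left zero_le]
      have e := edist_eY (isModel_eY.inv p) (isModel_eY.inv q)
      rw [cl_of_mem (isModel_eY.inv_mem p), cl_of_mem (isModel_eY.inv_mem q),
        isModel_eY.e_inv, isModel_eY.e_inv] at e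
      rw [e])
  set f' : Intrinsic YY → ℝ := fun p => f (eX (isModel_eY.inv p)) with hf'
  have hf'B : IsBddLip f' := by
    obtain ⟨⟨K, hK⟩, B, hB⟩ := hf
    exact ⟨⟨_, hK.comp hk⟩, B, fun x => hB _⟩
  have hb := hν f' (fun _ => π') L hf'B (by
    intro i
    have : i = 0 := Subsingleton.elim _ _
    rw [this]
    exact hπ')
  have e1 : boundary (TZ eX) f π = boundary (TZ eY) f' (fun _ => π') := by
    rw [boundary_TZ_apply isModel_eX hf.1 (fun i => ⟨L i, hπ i⟩),
      boundary_TZ_apply isModel_eY hf'B.1 (fun _ => ⟨_, hπ'⟩)]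
    simp only [hf', hke]
    obtain ⟨K, hK⟩ := hf.1
    obtain ⟨A, hA⟩ := isModel_eX.bdd ⟨_, hπ 0⟩
    obtain ⟨B, hB⟩ := isModel_eY.bdd ⟨_, hπ'⟩
    apply setIntegral_J2_eq_of_boundary (isModel_eX.comp_lip hK) (isModel_eX.comp_lip (hπ 0))
      (isModel_eY.comp_lip hπ') (fun x => hA _) (fun x => hB _)
    intro x hx
    have hxD := mem_D_of_norm hx
    have h1 : eY x ∈ {p | ‖isModel_eY.inv p‖ = 1} := by
      rw [mem_ofPred_eq, isModel_eY.inv_e hxD]
      exact hx
    have h2 := hext h1
    simp only [hke] at h2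
    exact h2
  rw [e1]
  refine hb.trans (le_of_eq ?_)
  rw [lintegral_map (by fun_prop) hkm]

theorem boundary_mass_le : mass (boundary (TZ eX)) ≤ mass (boundary (TZ eY)) := by
  refine le_iInf₂ fun ν hν => ?_
  refine (iInf₂_le _ (massBound_transfer hν)).trans (le_of_eq ?_)
  have hk : LipschitzWith (2 * 1) (fun p => eX (isModel_eY.inv p)) :=
    lipschitz_eX.comp isModel_eY.lipschitz_inv
  rw [Measure.map_apply hk.continuous.measurable MeasurableSet.univ, preimage_univ]

theorem isCompact_YY : IsCompact YY :=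
  (isCompact_closedBall (0 : E2) 1).image lipschitz_PP.continuous

theorem isConnected_YY : IsConnected YY := by
  have h : IsConnected D := convex_D.isConnected ⟨0, by simp [D]⟩
  exact h.image _ lipschitz_PP.continuous.continuousOn

theorem not_rigid : ¬ HasLipschitzVolumeRigidity (n := 1) YY (TZ eY) := by
  intro h
  refine not_isometry_fXY (h XX fXY lipschitz_fXY ?_ boundary_mass_le ?_)
  · intro g π _ _
    have key : ∀ (k : UniformSpace.Completion XS → Intrinsic YY), (∀ x, k (eX x) = eY x) →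
        TZ eX (g ∘ k) (fun i => π i ∘ k) = TZ eY g π := by
      intro k hk
      unfold TZ chartCurrent
      simp only [Function.comp, hk]
    exact key _ extension_eX
  · show mass (TZ eX) ≤ mass (TZ eY)
    rw [mass_TZ isModel_eX, mass_TZ isModel_eY]

/-- There is a compact connected oriented Lipschitz surface with boundary in `ℝ³` which, with
its intrinsic metric, is not Lipschitz-volume rigid among integral current spaces. -/
theorem exists_not_rigid : ∃ (Y : Set (EuclideanSpace ℝ (Fin 3)))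
    (T : MetricFunctional 2 (Intrinsic Y)), IsCompact Y ∧ IsConnected Y ∧
      IsIntegrationCurrent Y T ∧ IsIntegralCurrent (n := 1) T ∧
      ¬ HasLipschitzVolumeRigidity (n := 1) Y T :=
  ⟨YY, TZ eY, isCompact_YY, isConnected_YY, isIntegrationCurrent_YY,
    isIntegralCurrent_TZ isModel_eY, not_rigid⟩

end Pool.Agent.helper71.LVR
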