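import Pool.Agent.helper71.LVR.Wild
import Pool.Agent.helper71.LVR.Defs

/-!
# The graph of the wild function and its intrinsic metric
-/

open MeasureTheory Set Filter Topology
open scoped ENNReal NNReal

namespace Pool.Agent.helper71.LVR

/-- The graph parametrisation. -/
noncomputable def PP (y : E2) : EuclideanSpace ℝ (Fin 3) := !₂[y 0, y 1, FF y]

theorem PP_zero (y : E2) : PP y 0 = y 0 := rfl
theorem PP_one (y : E2) : PP y 1 = y 1 := rfl
theorem PP_two (y : E2) : PP y 2 = FF y := rfl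

theorem dist_sq3 (p q : EuclideanSpace ℝ (Fin 3)) :
    dist p q ^ 2 = (p 0 - q 0) ^ 2 + (p 1 - q 1) ^ 2 + (p 2 - q 2) ^ 2 := by
  rw [EuclideanSpace.dist_eq, Real.sq_sqrt (by positivity), Fin.sum_univ_three]
  simp only [Real.dist_eq, sq_abs]

theorem dist_PP_sq (x y : E2) :
    dist (PP x) (PP y) ^ 2 = (x 0 - y 0) ^ 2 + (x 1 - y 1) ^ 2 + (FF x - FF y) ^ 2 := by
  rw [dist_sq3]; rfl

theorem abs_coord_le (v : E2) (i : Fin 2) : |v i| ≤ ‖v‖ := by
  simpa using norm_le_pi_norm v i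

theorem dist_PP_le (x y : E2) : dist (PP x) (PP y) ≤ 2 * ‖x - y‖ := by
  have h0 := abs_coord_le (x - y) 0
  have h1 := abs_coord_le (x - y) 1
  have h2 := FF_lipschitz x y
  simp only [Pi.sub_apply] at h0 h1
  apply le_of_sq_le_sq _ (by positivity)
  rw [dist_PP_sq]
  have a0 : (x 0 - y 0) ^ 2 ≤ ‖x - y‖ ^ 2 := by
    rw [← sq_abs]; gcongr
  have a1 : (x 1 - y 1) ^ 2 ≤ ‖x - y‖ ^ 2 := by
    rw [← sq_abs]; gcongr
  have a2 : (FF x - FF y) ^ 2 ≤ (3 / 4 * ‖x - y‖) ^ 2 := by
    rw [← sq_abs]; gcongr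
  nlinarith [sq_nonneg ‖x - y‖]

theorem le_dist_PP (x y : E2) : ‖x - y‖ ≤ dist (PP x) (PP y) := by
  rw [pi_norm_le_iff_of_nonneg dist_nonneg]
  intro i
  rw [Real.norm_eq_abs, Pi.sub_apply]
  apply abs_le_of_sq_le_sq _ dist_nonneg
  rw [dist_PP_sq]
  fin_cases i
  · simp only [Fin.zero_eta]
    nlinarith [sq_nonneg (x 1 - y 1), sq_nonneg (FF x - FF y)]
  · simp only [Fin.mk_one]
    nlinarith [sq_nonneg (x 0 - y 0), sq_nonneg (FF x - FF y)]

theorem lipschitz_PP : LipschitzWith 2 PP := by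
  apply LipschitzWith.of_dist_le_mul
  intro x y
  rw [dist_eq_norm x y]
  simpa using dist_PP_le x y

/-- The retraction of the plane onto the square. -/
noncomputable def cl (x : E2) : E2 := fun i => max (-1) (min 1 (x i))

theorem cl_mem (x : E2) : cl x ∈ D := by
  simp only [D, mem_closedBall_zero_iff]
  rw [pi_norm_le_iff_of_nonneg zero_le_one]
  intro i
  rw [Real.norm_eq_abs, abs_le]
  exact ⟨le_max_left _ _, max_le (by norm_num) (min_le_left _ _)⟩

theorem abs_le_of_mem_D {x : E2} (hx : x ∈ D) (i : Fin 2) : |x i| ≤ 1 :=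
  (abs_coord_le x i).trans (by simpa [D] using hx)

theorem mem_D_iff {x : E2} : x ∈ D ↔ ∀ i, |x i| ≤ 1 := by
  constructor
  · intro h i; exact abs_le_of_mem_D h i
  · intro h
    simp only [D, mem_closedBall_zero_iff]
    rw [pi_norm_le_iff_of_nonneg zero_le_one]
    exact h

theorem cl_of_mem {x : E2} (hx : x ∈ D) : cl x = x := by
  ext i
  have h := abs_le.mp (abs_le_of_mem_D hx i)
  unfold cl
  rw [min_eq_right h.2, max_eq_right h.1]

theorem lipschitz_cl : LipschitzWith 1 cl := by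
  apply LipschitzWith.of_dist_le_mul
  intro x y
  rw [dist_pi_le_iff (by positivity)]
  intro i
  have h : LipschitzWith 1 (fun x : E2 => x i) := LipschitzWith.eval i
  exact ((h.const_min 1).const_max (-1)).dist_le_mul x y

theorem convex_D : Convex ℝ D := convex_closedBall 0 1

/-- The graph. -/
def YY : Set (EuclideanSpace ℝ (Fin 3)) := PP '' D

/-- The parametrisation of the graph with its intrinsic metric. -/
noncomputable def eY (x : E2) : Intrinsic YY := ⟨PP (cl x), cl x, cl_mem x, rfl⟩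

theorem eY_val (x : E2) : (eY x).1 = PP (cl x) := rfl

theorem intrinsic_le_of_seg {x y : E2} (hx : x ∈ D) (hy : y ∈ D) {L : ℝ≥0}
    (hL : ∀ s ∈ Icc (0 : ℝ) 1, ∀ t ∈ Icc (0 : ℝ) 1,
      dist (PP (x + s • (y - x))) (PP (x + t • (y - x))) ≤ L * |s - t|) :
    intrinsicEDist YY (PP x) (PP y) ≤ L := by
  have hlip : LipschitzOnWith L (fun t : ℝ => PP (x + t • (y - x))) (Icc 0 1) := by
    apply LipschitzOnWith.of_dist_le_mul
    intro s hs t ht
    rw [Real.dist_eq]
    exact hL s hs t ht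
  refine (intrinsicEDist_le (γ := fun t => PP (x + t • (y - x))) hlip.continuousOn ?_ ?_ ?_).trans
    ?_
  · intro t ht
    refine ⟨_, ?_, rfl⟩
    have := convex_D.add_smul_sub_mem hx hy ht
    exact this
  · simp
  · simp
  · have h1 := hlip.comp_eVariationOn_le (g := id) (s := Icc 0 1) (mapsTo_id _)
    have h2 : eVariationOn (id : ℝ → ℝ) (Icc 0 1) ≤ 1 := by
      have := MonotoneOn.eVariationOn_eq (f := (id : ℝ → ℝ)) (s := Icc 0 1) (a := 0) (b := 1)
        (monotone_id.monotoneOn _) (by simp) (by simp)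
      rw [inter_self] at this
      rw [this]
      simp
    refine h1.trans ?_
    calc (L : ℝ≥0∞) * eVariationOn (id : ℝ → ℝ) (Icc 0 1) ≤ L * 1 := by gcongr
      _ = L := mul_one _

theorem intrinsic_le {x y : E2} (hx : x ∈ D) (hy : y ∈ D) :
    intrinsicEDist YY (PP x) (PP y) ≤ 2 * edist x y := by
  have h : intrinsicEDist YY (PP x) (PP y) ≤ ((2 * nndist x y : ℝ≥0) : ℝ≥0∞) := by
    apply intrinsic_le_of_seg hx hy
    intro s _ t _
    refine (dist_PP_le _ _).trans (le_of_eq ?_)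
    have e : x + s • (y - x) - (x + t • (y - x)) = (s - t) • (y - x) := by
      rw [sub_smul]; abel
    rw [e, norm_smul, Real.norm_eq_abs]
    push_cast
    rw [dist_comm, dist_eq_norm]
    ring
  refine h.trans (le_of_eq ?_)
  rw [edist_nndist]
  push_cast
  rfl

theorem edist_eY (x y : E2) :
    edist (eY x) (eY y) = intrinsicEDist YY (PP (cl x)) (PP (cl y)) := rfl

theorem lipschitz_eY : LipschitzWith 2 eY := by
  intro x y
  rw [edist_eY]
  refine (intrinsic_le (cl_mem x) (cl_mem y)).trans ?_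
  have := lipschitz_cl x y
  rw [ENNReal.coe_one, one_mul] at this
  calc 2 * edist (cl x) (cl y) ≤ 2 * edist x y := by gcongr
    _ = _ := rfl

theorem dist_PP_seg_of_TT {i : Fin 2} {s : ℝ} {y z : E2}
    (h : ∀ t ∈ Icc (0 : ℝ) 1, FF (y + t • (z - y)) = FF y + s * (3 / 4) * (t * (z i - y i)))
    (a : ℝ) (ha : a ∈ Icc (0 : ℝ) 1) (b : ℝ) (hb : b ∈ Icc (0 : ℝ) 1) :
    dist (PP (y + a • (z - y))) (PP (y + b • (z - y))) = |a - b| * dist (PP y) (PP z) := by
  have h1 := h 1 (by simp)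
  rw [one_smul, add_sub_cancel, one_mul] at h1
  rw [← sq_eq_sq₀ dist_nonneg (by positivity), mul_pow, dist_PP_sq, dist_PP_sq, h a ha, h b hb,
    h1, sq_abs]
  simp only [Pi.add_apply, Pi.smul_apply, Pi.sub_apply, smul_eq_mul]
  ring

/-- Near points of `TT i s` the intrinsic metric is the Euclidean one. -/
theorem intrinsic_le_local {i : Fin 2} {s : ℝ} {y : E2} (hy : y ∈ TT i s) (hn : ‖y‖ < 1) :
    ∀ᶠ z in 𝓝 y, intrinsicEDist YY (PP y) (PP z) ≤ edist (PP y) (PP z) := by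
  have h1 : ∀ᶠ z in 𝓝 y, FF z = FF y + s * (3 / 4) * (z i - y i) ∧ ‖z‖ < 1 :=
    (show ∀ᶠ z in 𝓝 y, FF z = FF y + s * (3 / 4) * (z i - y i) from hy).and
      ((isOpen_lt continuous_norm continuous_const).mem_nhds hn)
  obtain ⟨ρ, hρ, hball⟩ := Metric.eventually_nhds_iff_ball.mp h1
  filter_upwards [Metric.ball_mem_nhds y hρ] with z hz
  have hseg : ∀ t ∈ Icc (0 : ℝ) 1, y + t • (z - y) ∈ Metric.ball y ρ := by
    intro t ht
    exact (convex_ball y ρ).add_smul_sub_mem (Metric.mem_ball_self hρ) hz ht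
  have hF : ∀ t ∈ Icc (0 : ℝ) 1,
      FF (y + t • (z - y)) = FF y + s * (3 / 4) * (t * (z i - y i)) := by
    intro t ht
    rw [(hball _ (hseg t ht)).1]
    simp
  have hyD : y ∈ D := by simpa [D] using hn.le
  have hzD : z ∈ D := by simpa [D] using (hball z hz).2.le
  rw [edist_nndist]
  apply intrinsic_le_of_seg hyD hzD
  intro a ha b hb
  rw [dist_PP_seg_of_TT hF a ha b hb, mul_comm]
  rfl

end Pool.Agent.helper71.LVR
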