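import Pool.Agent.helper71.LVR.Mass2

/-!
# The current of integration is integral, with positive lower density everywhere
-/

open MeasureTheory Set Filter Topology
open scoped ENNReal NNReal

namespace Pool.Agent.helper71.LVR

/-- The square contains a ball of radius `ρ / 2` inside `ball x ρ`. -/
theorem exists_ball_in_D {x : E2} (hx : x ∈ D) {ρ : ℝ} (hρ : 0 < ρ) (hρ1 : ρ ≤ 1) :
    ∃ x' : E2, Metric.ball x' (ρ / 2) ⊆ D ∩ Metric.ball x ρ := by
  refine ⟨fun i => if 0 ≤ x i then x i - ρ / 2 else x i + ρ / 2, ?_⟩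
  intro y hy
  rw [Metric.mem_ball, dist_pi_lt_iff (by linarith)] at hy
  constructor
  · rw [mem_D_iff]
    intro i
    have h1 := hy i
    have h2 := abs_le.mp (abs_le_of_mem_D hx i)
    rw [Real.dist_eq, abs_lt] at h1
    rw [abs_le]
    by_cases h : 0 ≤ x i
    · rw [if_pos h] at h1
      constructor <;> linarith [h1.1, h1.2, h2.1, h2.2]
    · rw [if_neg h] at h1
      push Not at h
      constructor <;> linarith [h1.1, h1.2, h2.1, h2.2]
  · rw [Metric.mem_ball, dist_pi_lt_iff hρ]
    intro i
    have h1 := hy i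
    rw [Real.dist_eq, abs_lt] at h1 ⊢
    by_cases h : 0 ≤ x i
    · rw [if_pos h] at h1
      constructor <;> linarith [h1.1, h1.2]
    · rw [if_neg h] at h1
      constructor <;> linarith [h1.1, h1.2]

set_option linter.unusedSectionVars false

section Model

variable {Z : Type*} [EMetricSpace Z] [MeasurableSpace Z] [BorelSpace Z] {e : E2 → Z}

theorem muZ_ball_ge (he : IsModel e) (z : Z) {r : ℝ} (hr : 0 < r) (hr1 : r ≤ 2) :
    ENNReal.ofReal (r ^ 2 / 4) ≤ muZ e (Metric.eball z (ENNReal.ofReal r)) := by
  obtain ⟨x, hx, rfl⟩ := he.surj z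
  rw [muZ_apply he Metric.isOpen_eball.measurableSet]
  obtain ⟨x', hx'⟩ := exists_ball_in_D hx (ρ := r / 2) (by linarith) (by linarith)
  have h1 : Metric.ball x' (r / 2 / 2) ⊆ e ⁻¹' (Metric.eball (e x) (ENNReal.ofReal r)) ∩ D := by
    intro y hy
    have h2 := hx' hy
    refine ⟨?_, h2.1⟩
    rw [mem_preimage, Metric.mem_eball]
    have h3 := he.lip y x
    have h4 : edist y x < ENNReal.ofReal (r / 2) := by
      rw [edist_lt_ofReal]
      exact h2.2
    refine h3.trans_lt ?_
    have h5 : ENNReal.ofReal r = ((2 : ℝ≥0) : ℝ≥0∞) * ENNReal.ofReal (r / 2) := by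
      rw [show ((2 : ℝ≥0) : ℝ≥0∞) = ENNReal.ofReal 2 by simp, ← ENNReal.ofReal_mul (by norm_num)]
      congr 1
      ring
    rw [h5]
    exact ENNReal.mul_lt_mul_right (by norm_num) (by norm_num) h4
  have h2 : volume (Metric.ball x' (r / 2 / 2)) = ENNReal.ofReal (r ^ 2 / 4) := by
    rw [Real.volume_pi_ball _ (by linarith)]
    congr 1
    simp only [Fintype.card_fin]
    ring
  calc ENNReal.ofReal (r ^ 2 / 4) = 1 * volume (Metric.ball x' (r / 2 / 2)) := by
        rw [h2, one_mul]
    _ ≤ (5 / 4 : ℝ≥0∞) * volume (e ⁻¹' (Metric.eball (e x) (ENNReal.ofReal r)) ∩ D) := by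
        gcongr
        rw [ENNReal.le_div_iff_mul_le (by simp) (by simp)]
        norm_num

theorem lowerDensity_pos (he : IsModel e) (z : Z) : 0 < lowerDensity 2 (muZ e) z := by
  unfold lowerDensity
  have h1 : ENNReal.ofReal (1 / 4) ≤
      liminf (fun r : ℝ => muZ e (Metric.eball z (ENNReal.ofReal r)) / ENNReal.ofReal (r ^ 2))
        (𝓝[>] (0 : ℝ)) := by
    apply le_liminf_of_le
    · isBoundedDefault
    · filter_upwards [Ioo_mem_nhdsGT (show (0 : ℝ) < 2 by norm_num)] with r hr
      rw [ENNReal.le_div_iff_mul_le]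
      · refine le_trans (le_of_eq ?_) (muZ_ball_ge he z hr.1 hr.2.le)
        rw [← ENNReal.ofReal_mul (by norm_num)]
        congr 1
        ring
      · left
        simp only [ne_eq, ENNReal.ofReal_eq_zero, not_le]
        have := hr.1
        positivity
      · left
        exact ENNReal.ofReal_ne_top
  exact lt_of_lt_of_le (by simp) h1

theorem isLip_const (c : ℝ) : IsLip (fun _ : Z => c) := ⟨0, LipschitzWith.const c⟩

theorem isBddLip_one : IsBddLip (fun _ : Z => (1 : ℝ)) := ⟨isLip_const 1, 1, by simp⟩

theorem boundary_TZ_apply (he : IsModel e) {f : Z → ℝ} {π : Fin 1 → Z → ℝ} (hf : IsLip f)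
    (hπ : ∀ i, IsLip (π i)) :
    boundary (TZ e) f π = ∫ x in D, J2 (fun y => f (e y)) (fun y => π 0 (e y)) x := by
  unfold boundary
  rw [TZ_apply he]
  · simp only [one_mul]
    rfl
  · intro i
    fin_cases i
    · exact hf
    · exact hπ 0

/-- The measure controlling the boundary mass. -/
noncomputable def muB (e : E2 → Z) : Measure Z :=
  (8 : ℝ≥0∞) • Measure.map (fun x => e (nu x)) (volume.restrict D)

theorem massBound_muB (he : IsModel e) : MassBound (boundary (TZ e)) (muB e) := by
  intro f π L hf hπ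
  obtain ⟨K, hK⟩ := hf.1
  obtain ⟨A, hA⟩ := he.bdd hf.1
  rw [boundary_TZ_apply he hf.1 (fun i => ⟨L i, hπ i⟩)]
  have h1 := abs_setIntegral_J2_le (he.comp_lip hK) (he.comp_lip (hπ 0)) (fun x => hA (e x))
  have hm : Measurable fun x => e (nu x) := he.measurable.comp measurable_nu
  have hfm : Measurable f := hK.continuous.measurable
  rw [muB, lintegral_smul_measure, lintegral_map (by fun_prop) hm]
  simp only [Finset.univ_unique, Fin.default_eq_zero, Fin.isValue, Finset.prod_singleton]
  have h2 : ENNReal.ofReal (∫ x in D, |f (e (nu x))|) =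
      ∫⁻ x in D, ENNReal.ofReal |f (e (nu x))| := by
    apply ofReal_integral_eq_lintegral_ofReal
    · apply integrable_of_bound (B := A)
      · exact (hfm.comp hm).abs
      · intro x
        rw [abs_abs]
        exact hA _
    · exact Eventually.of_forall fun x => abs_nonneg _
  rw [← h2]
  refine (ENNReal.ofReal_le_ofReal h1).trans (le_of_eq ?_)
  rw [ENNReal.ofReal_mul (by positivity), NNReal.coe_mul]
  rw [show (4 : ℝ) * ((L 0 : ℝ) * ((2 : ℝ≥0) : ℝ)) = 8 * (L 0 : ℝ) by push_cast; ring]
  rw [ENNReal.ofReal_mul (by norm_num), ENNReal.ofReal_coe_nnreal, ENNReal.ofReal_ofNat,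
    smul_eq_mul]
  ring

theorem boundary_mass_lt (he : IsModel e) : mass (boundary (TZ e)) < ⊤ := by
  refine (iInf₂_le (muB e) (massBound_muB he)).trans_lt ?_
  have hm : Measurable fun x => e (nu x) := he.measurable.comp measurable_nu
  rw [muB, Measure.smul_apply, Measure.map_apply hm
    MeasurableSet.univ, preimage_univ, Measure.restrict_apply_univ, volume_D, smul_eq_mul]
  exact ENNReal.mul_lt_top (by simp) (by simp)

theorem biLipschitz_e (he : IsModel e) : IsBiLipschitzOn e D := by
  refine ⟨2, fun x hx y hy => ⟨he.lip x y, ?_⟩⟩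
  have h1 := he.lipschitz_inv (e x) (e y)
  rw [he.inv_e hx, he.inv_e hy, ENNReal.coe_one] at h1
  refine h1.trans ?_
  gcongr
  norm_num

theorem chartCurrent_empty (θ : (Fin 2 → ℝ) → ℤ) (φ : (Fin 2 → ℝ) → Z) :
    chartCurrent (X := Z) ∅ θ φ = fun _ _ => 0 := by
  ext f π
  simp [chartCurrent]

theorem mass_zero : mass (fun _ _ => 0 : MetricFunctional 2 Z) = 0 := by
  apply le_antisymm _ zero_le
  refine (iInf₂_le (0 : Measure Z) ?_).trans (by simp)
  intro f π L _ _
  simp

theorem isIntegerRectifiable_TZ (he : IsModel e) : IsIntegerRectifiable (TZ e) := by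
  refine ⟨fun k => if k = 0 then D else ∅, fun _ _ => 1, fun _ => e, ?_, ?_, ?_, ?_, ?_⟩
  · intro k
    by_cases hk : k = 0
    · simp only [hk, if_true]; exact isCompact_closedBall 0 1
    · simp only [hk, if_false]; exact isCompact_empty
  · intro k
    by_cases hk : k = 0
    · simp only [hk, if_true]
      exact integrableOn_const (measure_closedBall_lt_top.ne)
    · simp only [hk, if_false]
      exact integrableOn_empty
  · intro k
    by_cases hk : k = 0
    · simp only [hk, if_true]; exact biLipschitz_e he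
    · simp only [hk, if_false]
      exact ⟨0, fun x hx => absurd hx (notMem_empty x)⟩
  · intro f π _ _
    have : (fun k : ℕ => chartCurrent (if k = 0 then D else ∅) (fun _ => 1) e f π) =
        fun k => if k = 0 then TZ e f π else 0 := by
      ext k
      by_cases hk : k = 0
      · simp only [hk, if_true]; rfl
      · simp only [hk, if_false]
        rw [chartCurrent_empty]
    simp only
    rw [this]
    exact hasSum_ite_eq 0 _
  · have : (fun k : ℕ => mass (chartCurrent (X := Z) (if k = 0 then D else ∅) (fun _ => 1) e)) =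
        fun k => if k = 0 then mass (TZ e) else 0 := by
      ext k
      by_cases hk : k = 0
      · simp only [hk, if_true]; rfl
      · simp only [hk, if_false]
        rw [chartCurrent_empty, mass_zero]
    simp only
    rw [this, tsum_ite_eq]

theorem isMetricCurrent_TZ (he : IsModel e) : IsMetricCurrent (TZ e) where
  add_left := (TZ_isMetricCurrent_aux he).1
  smul_left := (TZ_isMetricCurrent_aux he).2
  add_right := TZ_add_right he
  smul_right := TZ_smul_right he
  continuity := TZ_continuity he
  locality := fun f π i O c _ hπ hO hf hc => TZ_locality he f π i O c hπ hO hf hc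
  finite_mass := ⟨muZ e, isFiniteMeasure_muZ he, massBound_muZ he⟩

theorem isIntegralCurrent_TZ (he : IsModel e) : IsIntegralCurrent (n := 1) (TZ e) where
  current := isMetricCurrent_TZ he
  rectifiable := isIntegerRectifiable_TZ he
  boundary_mass := boundary_mass_lt he

end Model

end Pool.Agent.helper71.LVR
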