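import Pool.Agent.helper71.LVR.Model

/-!
# The mass of the current of integration over the graph
-/

open MeasureTheory Set Filter Topology
open scoped ENNReal NNReal

namespace Pool.Agent.helper71.LVR

theorem fderiv_apply_eq (g : E2 → ℝ) (x v : E2) :
    fderiv ℝ g x v = v 0 * dd 0 g x + v 1 * dd 1 g x := by
  have e : v = v 0 • ee 0 + v 1 • ee 1 := by
    ext i
    fin_cases i <;> simp [ee]
  conv_lhs => rw [e]
  rw [map_add, map_smul, map_smul]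
  rfl

theorem slope_bound {g : E2 → ℝ} {x : E2} {i : Fin 2} {s L : ℝ} (hs : s ^ 2 = 1)
    (hg : DifferentiableAt ℝ g x) (hx : x ∈ TT i s)
    (h : ∀ᶠ z in 𝓝 x, |g z - g x| ≤ L * dist (PP z) (PP x)) (v : E2) :
    |fderiv ℝ g x v| ≤ L * √(v 0 ^ 2 + v 1 ^ 2 + 9 / 16 * v i ^ 2) := by
  have h1 := (hg.hasFDerivAt.hasLineDerivAt v).tendsto_slope_zero
  have h2 := h1.abs
  refine le_of_tendsto h2 ?_
  have hx' : ∀ᶠ z in 𝓝 x, FF z = FF x + s * (3 / 4) * (z i - x i) := hx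
  have hc : Tendsto (fun t : ℝ => x + t • v) (𝓝[≠] 0) (𝓝 x) := by
    have : Continuous fun t : ℝ => x + t • v := by fun_prop
    have h3 := this.tendsto 0
    simp only [zero_smul, add_zero] at h3
    exact h3.mono_left nhdsWithin_le_nhds
  filter_upwards [hc.eventually h, hc.eventually hx', self_mem_nhdsWithin] with t ht1 ht2 ht0
  have ht0' : t ≠ 0 := ht0
  have hd : dist (PP (x + t • v)) (PP x) = |t| * √(v 0 ^ 2 + v 1 ^ 2 + 9 / 16 * v i ^ 2) := by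
    rw [← sq_eq_sq₀ dist_nonneg (by positivity), mul_pow, Real.sq_sqrt (by positivity),
      dist_PP_sq, ht2, sq_abs]
    simp only [Pi.add_apply, Pi.smul_apply, smul_eq_mul]
    have : (s * (3 / 4) * (x i + t * v i - x i)) ^ 2 = s ^ 2 * (9 / 16) * t ^ 2 * v i ^ 2 := by
      ring
    linear_combination this + (9 / 16) * t ^ 2 * v i ^ 2 * hs
  rw [hd] at ht1
  rw [smul_eq_mul, abs_mul, abs_inv, inv_mul_le_iff₀ (abs_pos.mpr ht0')]
  linarith

theorem quad_of_le {q L : ℝ} (hq : 0 ≤ q) (hL : 0 ≤ L) (h : |q| ≤ L * √q) : q ≤ L ^ 2 := by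
  rw [abs_of_nonneg hq] at h
  have h1 : √q ^ 2 = q := Real.sq_sqrt hq
  have h2 := Real.sqrt_nonneg q
  by_cases h3 : √q = 0
  · rw [h3] at h1; nlinarith [sq_nonneg L]
  · have h4 : 0 < √q := lt_of_le_of_ne h2 (Ne.symm h3)
    have h5 : √q ≤ L := by
      have : √q * √q ≤ L * √q := by nlinarith
      exact le_of_mul_le_mul_right this h4
    nlinarith

theorem quad_bound_zero {g : E2 → ℝ} {x : E2} {s L : ℝ} (hs : s ^ 2 = 1) (hL : 0 ≤ L)
    (hg : DifferentiableAt ℝ g x) (hx : x ∈ TT 0 s)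
    (h : ∀ᶠ z in 𝓝 x, |g z - g x| ≤ L * dist (PP z) (PP x)) :
    16 / 25 * dd 0 g x ^ 2 + dd 1 g x ^ 2 ≤ L ^ 2 := by
  have h1 := slope_bound hs hg hx h ![16 / 25 * dd 0 g x, dd 1 g x]
  rw [fderiv_apply_eq] at h1
  simp only [Matrix.cons_val_zero, Matrix.cons_val_one] at h1
  apply quad_of_le (by positivity) hL
  have e1 : 16 / 25 * dd 0 g x * dd 0 g x + dd 1 g x * dd 1 g x =
    16 / 25 * dd 0 g x ^ 2 + dd 1 g x ^ 2 := by ring
  have e2 : (16 / 25 * dd 0 g x) ^ 2 + dd 1 g x ^ 2 + 9 / 16 * (16 / 25 * dd 0 g x) ^ 2 =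
    16 / 25 * dd 0 g x ^ 2 + dd 1 g x ^ 2 := by ring
  rwa [e1, e2] at h1

theorem quad_bound_one {g : E2 → ℝ} {x : E2} {s L : ℝ} (hs : s ^ 2 = 1) (hL : 0 ≤ L)
    (hg : DifferentiableAt ℝ g x) (hx : x ∈ TT 1 s)
    (h : ∀ᶠ z in 𝓝 x, |g z - g x| ≤ L * dist (PP z) (PP x)) :
    dd 0 g x ^ 2 + 16 / 25 * dd 1 g x ^ 2 ≤ L ^ 2 := by
  have h1 := slope_bound hs hg hx h ![dd 0 g x, 16 / 25 * dd 1 g x]
  rw [fderiv_apply_eq] at h1
  simp only [Matrix.cons_val_zero, Matrix.cons_val_one] at h1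
  apply quad_of_le (by positivity) hL
  have e1 : dd 0 g x * dd 0 g x + 16 / 25 * dd 1 g x * dd 1 g x =
    dd 0 g x ^ 2 + 16 / 25 * dd 1 g x ^ 2 := by ring
  have e2 : dd 0 g x ^ 2 + (16 / 25 * dd 1 g x) ^ 2 + 9 / 16 * (16 / 25 * dd 1 g x) ^ 2 =
    dd 0 g x ^ 2 + 16 / 25 * dd 1 g x ^ 2 := by ring
  rwa [e1, e2] at h1

theorem det_bound {a0 a1 b0 b1 K L : ℝ} (hK : 0 ≤ K) (hL : 0 ≤ L)
    (h1 : 16 / 25 * a0 ^ 2 + a1 ^ 2 ≤ K ^ 2) (h2 : 16 / 25 * b0 ^ 2 + b1 ^ 2 ≤ L ^ 2) :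
    |a0 * b1 - a1 * b0| ≤ 5 / 4 * K * L := by
  apply abs_le_of_sq_le_sq _ (by positivity)
  have h3 : (16 / 25 * a0 ^ 2 + a1 ^ 2) * (16 / 25 * b0 ^ 2 + b1 ^ 2) ≤ K ^ 2 * L ^ 2 := by
    gcongr
  nlinarith [sq_nonneg (16 / 25 * a0 * b0 + a1 * b1)]

theorem det_bound' {a0 a1 b0 b1 K L : ℝ} (hK : 0 ≤ K) (hL : 0 ≤ L)
    (h1 : a0 ^ 2 + 16 / 25 * a1 ^ 2 ≤ K ^ 2) (h2 : b0 ^ 2 + 16 / 25 * b1 ^ 2 ≤ L ^ 2) :
    |a0 * b1 - a1 * b0| ≤ 5 / 4 * K * L := by
  have := det_bound (a0 := a1) (a1 := a0) (b0 := b1) (b1 := b0) hK hL (by linarith)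
    (by linarith)
  rwa [abs_sub_comm]

section Model

variable {Z : Type*} [EMetricSpace Z] [MeasurableSpace Z] [BorelSpace Z] {e : E2 → Z}

omit [MeasurableSpace Z] [BorelSpace Z] in
theorem dist_le_of_edist {g : Z → ℝ} {L : ℝ≥0} (hg : LipschitzWith L g) {x y : E2}
    (h : edist (e y) (e x) ≤ edist (PP y) (PP x)) :
    |g (e y) - g (e x)| ≤ L * dist (PP y) (PP x) := by
  have h1 : edist (g (e y)) (g (e x)) ≤ L * edist (PP y) (PP x) :=
    (hg (e y) (e x)).trans (by gcongr)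
  rw [edist_nndist, edist_nndist, ← ENNReal.coe_mul] at h1
  have h2 : nndist (g (e y)) (g (e x)) ≤ L * nndist (PP y) (PP x) := by exact_mod_cast h1
  have h3 : dist (g (e y)) (g (e x)) ≤ L * dist (PP y) (PP x) := by exact_mod_cast h2
  rwa [Real.dist_eq] at h3

theorem abs_J2_le_mass (he : IsModel e) {g0 g1 : Z → ℝ} {L0 L1 : ℝ≥0}
    (h0 : LipschitzWith L0 g0) (h1 : LipschitzWith L1 g1) :
    ∀ᵐ x ∂(volume.restrict D),
      |J2 (fun y => g0 (e y)) (fun y => g1 (e y)) x| ≤ 5 / 4 * L0 * L1 := by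
  filter_upwards [he.loc, ae_mem_TT, ae_restrict_of_ae (he.comp_lip h0).ae_differentiableAt,
    ae_restrict_of_ae (he.comp_lip h1).ae_differentiableAt] with x hx1 ⟨i, s, hs, hT⟩ hx3 hx4
  have hs2 : s ^ 2 = 1 := by
    rcases hs with h | h <;> rw [h] <;> norm_num
  have l0 : ∀ᶠ z in 𝓝 x, |g0 (e z) - g0 (e x)| ≤ L0 * dist (PP z) (PP x) := by
    filter_upwards [hx1] with z hz using dist_le_of_edist h0 hz
  have l1 : ∀ᶠ z in 𝓝 x, |g1 (e z) - g1 (e x)| ≤ L1 * dist (PP z) (PP x) := by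
    filter_upwards [hx1] with z hz using dist_le_of_edist h1 hz
  unfold J2
  fin_cases i
  · exact det_bound L0.2 L1.2 (quad_bound_zero hs2 L0.2 hx3 hT l0)
      (quad_bound_zero hs2 L1.2 hx4 hT l1)
  · exact det_bound' L0.2 L1.2 (quad_bound_one hs2 L0.2 hx3 hT l0)
      (quad_bound_one hs2 L1.2 hx4 hT l1)

/-- The mass measure. -/
noncomputable def muZ (e : E2 → Z) : Measure Z :=
  (5 / 4 : ℝ≥0∞) • Measure.map e (volume.restrict D)

theorem volume_D : volume D = 4 := by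
  rw [D, Real.volume_pi_closedBall _ zero_le_one]
  simp only [Fintype.card_fin, mul_one]
  norm_num

theorem IsModel.measurable (he : IsModel e) : Measurable e := he.lip.continuous.measurable

theorem muZ_univ (he : IsModel e) : muZ e univ = 5 := by
  rw [muZ, Measure.smul_apply, Measure.map_apply he.measurable MeasurableSet.univ, preimage_univ,
    Measure.restrict_apply_univ, volume_D, smul_eq_mul]
  rw [show (4 : ℝ≥0∞) = ((4 : ℝ≥0) : ℝ≥0∞) by rfl, show (5 : ℝ≥0∞) = ((5 : ℝ≥0) : ℝ≥0∞) by rfl,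
    ← ENNReal.coe_div (by norm_num), ← ENNReal.coe_mul]
  congr 1
  norm_num

theorem isFiniteMeasure_muZ (he : IsModel e) : IsFiniteMeasure (muZ e) :=
  ⟨by rw [muZ_univ he]; exact ENNReal.ofNat_lt_top⟩

theorem lintegral_muZ (he : IsModel e) {f : Z → ℝ≥0∞} (hf : Measurable f) :
    ∫⁻ z, f z ∂(muZ e) = (5 / 4 : ℝ≥0∞) * ∫⁻ x in D, f (e x) := by
  rw [muZ, lintegral_smul_measure, lintegral_map hf he.measurable, smul_eq_mul]

theorem massBound_muZ (he : IsModel e) : MassBound (TZ e) (muZ e) := by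
  intro f π L hf hπ
  have hfm : Measurable f := by
    obtain ⟨K, hK⟩ := hf.1
    exact hK.continuous.measurable
  rw [TZ_apply he f (fun i => ⟨L i, hπ i⟩), lintegral_muZ he (by fun_prop),
    ← Real.enorm_eq_ofReal_abs]
  refine (enorm_integral_le_lintegral_enorm _).trans ?_
  rw [Fin.prod_univ_two]
  have h1 : ∫⁻ x in D, ‖f (e x) * J2 (fun y => π 0 (e y)) (fun y => π 1 (e y)) x‖ₑ ≤
      ∫⁻ x in D, ((L 0 : ℝ≥0∞) * L 1 * (5 / 4)) * ENNReal.ofReal |f (e x)| := by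
    apply lintegral_mono_ae
    filter_upwards [abs_J2_le_mass he (hπ 0) (hπ 1)] with x hx
    rw [enorm_mul, Real.enorm_eq_ofReal_abs, Real.enorm_eq_ofReal_abs, mul_comm]
    gcongr
    refine (ENNReal.ofReal_le_ofReal hx).trans (le_of_eq ?_)
    rw [ENNReal.ofReal_mul (by positivity), ENNReal.ofReal_mul (by positivity),
      ENNReal.ofReal_coe_nnreal, ENNReal.ofReal_coe_nnreal,
      ENNReal.ofReal_div_of_pos (by norm_num)]
    rw [ENNReal.ofReal_ofNat, ENNReal.ofReal_ofNat]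
    ring
  refine h1.trans (le_of_eq ?_)
  rw [lintegral_const_mul]
  · ring
  · exact (measurable_comp he hf.1).abs.ennreal_ofReal

end Model

end Pool.Agent.helper71.LVR
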