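import Pool.Agent.helper71.LVR.Mass

/-!
# The mass measure is least; lower density; integral currents
-/

open MeasureTheory Set Filter Topology
open scoped ENNReal NNReal

namespace Pool.Agent.helper71.LVR

section Model

variable {Z : Type*} [EMetricSpace Z] {e : E2 → Z}

/-- The inverse of the parametrisation. -/
noncomputable def IsModel.inv (he : IsModel e) (z : Z) : E2 := (he.surj z).choose

theorem IsModel.inv_mem (he : IsModel e) (z : Z) : he.inv z ∈ D := (he.surj z).choose_spec.1

theorem IsModel.e_inv (he : IsModel e) (z : Z) : e (he.inv z) = z := (he.surj z).choose_spec.2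

theorem IsModel.inj (he : IsModel e) {x y : E2} (hx : x ∈ D) (hy : y ∈ D) (h : e x = e y) :
    x = y := by
  have h1 := he.lower x hx y hy
  rw [h, edist_self] at h1
  have h2 : PP x = PP y := edist_le_zero.mp h1
  have h3 := le_dist_PP x y
  rw [h2, dist_self] at h3
  exact sub_eq_zero.mp (norm_le_zero_iff.mp h3)

theorem IsModel.inv_e (he : IsModel e) {x : E2} (hx : x ∈ D) : he.inv (e x) = x :=
  he.inj (he.inv_mem _) hx (he.e_inv _)

theorem IsModel.lipschitz_PP_inv (he : IsModel e) : LipschitzWith 1 (fun z => PP (he.inv z)) := by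
  intro z w
  rw [ENNReal.coe_one, one_mul]
  have := he.lower _ (he.inv_mem z) _ (he.inv_mem w)
  rwa [he.e_inv, he.e_inv] at this

theorem IsModel.lipschitz_inv (he : IsModel e) : LipschitzWith 1 he.inv := by
  intro z w
  refine le_trans ?_ (he.lipschitz_PP_inv z w)
  rw [edist_dist, edist_dist, dist_eq_norm]
  exact ENNReal.ofReal_le_ofReal (le_dist_PP _ _)

/-- A linear functional on `ℝ³`. -/
def lin (a b c : ℝ) (q : EuclideanSpace ℝ (Fin 3)) : ℝ := a * q 0 + b * q 1 + c * q 2

theorem lipschitz_lin {a b c : ℝ} (h : a ^ 2 + b ^ 2 + c ^ 2 = 1) :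
    LipschitzWith 1 (lin a b c) := by
  apply LipschitzWith.of_dist_le_mul
  intro p q
  rw [NNReal.coe_one, one_mul, Real.dist_eq]
  apply abs_le_of_sq_le_sq _ dist_nonneg
  rw [dist_sq3]
  unfold lin
  have : (a * p 0 + b * p 1 + c * p 2 - (a * q 0 + b * q 1 + c * q 2)) ^ 2 ≤
      (a ^ 2 + b ^ 2 + c ^ 2) * ((p 0 - q 0) ^ 2 + (p 1 - q 1) ^ 2 + (p 2 - q 2) ^ 2) := by
    nlinarith [sq_nonneg (a * (p 1 - q 1) - b * (p 0 - q 0)),
      sq_nonneg (a * (p 2 - q 2) - c * (p 0 - q 0)),
      sq_nonneg (b * (p 2 - q 2) - c * (p 1 - q 1))]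
  rwa [h, one_mul] at this

theorem hasFDerivAt_FF {i : Fin 2} {s : ℝ} {y : E2} (hy : y ∈ TT i s) :
    DifferentiableAt ℝ FF y := by
  have e : FF =ᶠ[𝓝 y] fun z => FF y + s * (3 / 4) * (z i - y i) := hy
  refine DifferentiableAt.congr_of_eventuallyEq ?_ e
  fun_prop

theorem dd_coord (i j : Fin 2) (x : E2) : dd j (fun y : E2 => y i) x = if j = i then 1 else 0 := by
  unfold dd
  have h1 : HasFDerivAt (fun z : E2 => z i) (ContinuousLinearMap.proj i : E2 →L[ℝ] ℝ) x :=
    hasFDerivAt_apply i x
  rw [h1.fderiv]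
  show ee j i = _
  rw [ee, Pi.single_apply]
  simp only [eq_comm]

theorem dd_lin (he : IsModel e) {i : Fin 2} {s a b c : ℝ} {x : E2} (hx : x ∈ TT i s)
    (hn : ‖x‖ < 1) (j : Fin 2) :
    dd j (fun y => lin a b c (PP (he.inv (e y)))) x =
      a * (if j = 0 then 1 else 0) + b * (if j = 1 then 1 else 0) +
        c * (if j = i then s * (3 / 4) else 0) := by
  have e1 : (fun y => lin a b c (PP (he.inv (e y)))) =ᶠ[𝓝 x]
      fun y => (a * y 0 + b * y 1) + c * FF y := by
    filter_upwards [(isOpen_lt continuous_norm continuous_const).mem_nhds hn] with y hy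
    have hyD : y ∈ D := by simpa [D] using le_of_lt hy
    rw [he.inv_e hyD]
    rfl
  have d0 : DifferentiableAt ℝ (fun y : E2 => y 0) x := by fun_prop
  have d1 : DifferentiableAt ℝ (fun y : E2 => y 1) x := by fun_prop
  have dF := hasFDerivAt_FF hx
  have d01 : DifferentiableAt ℝ (fun y : E2 => a * y 0 + b * y 1) x :=
    (d0.const_mul a).fun_add (d1.const_mul b)
  rw [dd_eq_of_eventuallyEq e1, dd_add d01
    (dF.const_mul c), dd_add (d0.const_mul a) (d1.const_mul b), dd_const_mul d0,
    dd_const_mul d1, dd_const_mul dF, dd_coord, dd_coord, dd_FF hx]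

/-- The test functions detecting the mass. -/
theorem exists_test (he : IsModel e) (i : Fin 2) {s : ℝ} (hs : s ^ 2 = 1) :
    ∃ π : Fin 2 → Z → ℝ, (∀ j, LipschitzWith 1 (π j)) ∧
      ∀ x ∈ TT i s, ‖x‖ < 1 → J2 (fun y => π 0 (e y)) (fun y => π 1 (e y)) x = 5 / 4 := by
  fin_cases i
  · refine ⟨![fun z => lin (4 / 5) 0 (3 / 5 * s) (PP (he.inv z)),
      fun z => lin 0 1 0 (PP (he.inv z))], ?_, ?_⟩
    · intro j
      fin_cases j
      · have := (lipschitz_lin (a := 4 / 5) (b := 0) (c := 3 / 5 * s)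
          (by linear_combination (9 / 25) * hs)).comp he.lipschitz_PP_inv
        rw [mul_one] at this
        exact this
      · have := (lipschitz_lin (a := 0) (b := 1) (c := 0) (by norm_num)).comp
          he.lipschitz_PP_inv
        rw [mul_one] at this
        exact this
    · intro x hx hn
      simp only [Fin.zero_eta] at hx
      unfold J2
      simp only [Matrix.cons_val_zero, Matrix.cons_val_one]
      rw [dd_lin he hx hn, dd_lin he hx hn, dd_lin he hx hn, dd_lin he hx hn]
      norm_num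
      linear_combination (9 / 20) * hs
  · refine ⟨![fun z => lin 1 0 0 (PP (he.inv z)),
      fun z => lin 0 (4 / 5) (3 / 5 * s) (PP (he.inv z))], ?_, ?_⟩
    · intro j
      fin_cases j
      · have := (lipschitz_lin (a := 1) (b := 0) (c := 0) (by norm_num)).comp
          he.lipschitz_PP_inv
        rw [mul_one] at this
        exact this
      · have := (lipschitz_lin (a := 0) (b := 4 / 5) (c := 3 / 5 * s)
          (by linear_combination (9 / 25) * hs)).comp he.lipschitz_PP_inv
        rw [mul_one] at this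
        exact this
    · intro x hx hn
      simp only [Fin.mk_one] at hx
      unfold J2
      simp only [Matrix.cons_val_zero, Matrix.cons_val_one]
      rw [dd_lin he hx hn, dd_lin he hx hn, dd_lin he hx hn, dd_lin he hx hn]
      norm_num
      linear_combination (9 / 20) * hs

variable [MeasurableSpace Z] [BorelSpace Z]

theorem muZ_apply (he : IsModel e) {B : Set Z} (hB : MeasurableSet B) :
    muZ e B = (5 / 4 : ℝ≥0∞) * volume (e ⁻¹' B ∩ D) := by
  rw [muZ, Measure.smul_apply, Measure.map_apply he.measurable hB,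
    Measure.restrict_apply (he.measurable hB), smul_eq_mul]

theorem muZ_closed_le (he : IsModel e) {ν : Measure Z} (hν : IsFiniteMeasure ν)
    (hb : MassBound (TZ e) ν) (i : Fin 2) {s : ℝ} (hs : s ^ 2 = 1) {C : Set Z}
    (hC : IsClosed C) (hCs : C ⊆ he.inv ⁻¹' (TT i s)) : muZ e C ≤ ν C := by
  obtain ⟨π, hπ, hJ⟩ := exists_test he i hs
  have hδ0 : ∀ n, (0 : ℝ) < dl n := dl_pos'
  set f : ℕ → Z → ℝ := fun n z => ((thickenedIndicator (hδ0 n) C z : ℝ≥0) : ℝ) with hf
  have hfB : ∀ n, IsBddLip (f n) := by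
    intro n
    refine ⟨⟨_, NNReal.isometry_coe.lipschitz.comp (lipschitzWith_thickenedIndicator (hδ0 n) C)⟩,
      1, fun x => ?_⟩
    simp only [hf]
    rw [NNReal.abs_eq]
    exact_mod_cast thickenedIndicator_le_one (hδ0 n) C x
  have h1 : ∀ n, ENNReal.ofReal |TZ e (f n) π| ≤
      ∫⁻ z, (thickenedIndicator (hδ0 n) C z : ℝ≥0∞) ∂ν := by
    intro n
    have := hb (f n) π (fun _ => 1) (hfB n) hπ
    simp only [ENNReal.coe_one, Finset.prod_const_one, one_mul] at this
    refine this.trans (le_of_eq ?_)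
    congr 1
    ext z
    simp only [hf, NNReal.abs_eq, ENNReal.ofReal_coe_nnreal]
  have h2 := tendsto_lintegral_thickenedIndicator_of_isClosed ν hC hδ0 tendsto_dl
  have h3 : Tendsto (fun n => TZ e (f n) π) atTop
      (𝓝 (∫ x in D, C.indicator (fun _ => (1 : ℝ)) (e x) *
        J2 (fun y => π 0 (e y)) (fun y => π 1 (e y)) x)) := by
    simp_rw [fun n => TZ_apply he (f n) (π := π) (fun i => ⟨1, hπ i⟩)]
    apply tendsto_integral_of_dominated_convergence
      (fun _ => 1 * (2 * (((1 : ℝ≥0) * 2 : ℝ≥0) : ℝ) * (((1 : ℝ≥0) * 2 : ℝ≥0) : ℝ)))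
    · intro n
      exact ((measurable_comp he (hfB n).1).mul (measurable_J2 _ _)).aestronglyMeasurable
    · exact integrableOn_const (measure_closedBall_lt_top.ne)
    · intro n
      filter_upwards with x
      rw [Real.norm_eq_abs, abs_mul]
      refine mul_le_mul ?_ (abs_J2_le (he.comp_lip (hπ 0)) (he.comp_lip (hπ 1)) x)
        (abs_nonneg _) zero_le_one
      simp only [hf]
      rw [NNReal.abs_eq]
      exact_mod_cast thickenedIndicator_le_one (hδ0 n) C (e x)
    · filter_upwards with x
      apply Tendsto.mul_const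
      have h4 := thickenedIndicator_tendsto_indicator_closure hδ0 tendsto_dl C
      rw [hC.closure_eq, tendsto_pi_nhds] at h4
      have h5 := h4 (e x)
      have h6 : Tendsto (fun n => f n (e x)) atTop
          (𝓝 ((C.indicator (fun _ => (1 : ℝ≥0)) (e x) : ℝ≥0) : ℝ)) :=
        (NNReal.tendsto_coe.mpr h5)
      have h7 : ((C.indicator (fun _ => (1 : ℝ≥0)) (e x) : ℝ≥0) : ℝ) =
          C.indicator (fun _ => (1 : ℝ)) (e x) := by
        by_cases hx : e x ∈ C
        · rw [indicator_of_mem hx, indicator_of_mem hx]; rfl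
        · rw [indicator_of_notMem hx, indicator_of_notMem hx]; rfl
      rwa [h7] at h6
  have h4 : ∫ x in D, C.indicator (fun _ => (1 : ℝ)) (e x) *
        J2 (fun y => π 0 (e y)) (fun y => π 1 (e y)) x = 5 / 4 * volume.real (e ⁻¹' C ∩ D) := by
    have h5 : ∫ x in D, C.indicator (fun _ => (1 : ℝ)) (e x) *
        J2 (fun y => π 0 (e y)) (fun y => π 1 (e y)) x =
        ∫ x in D, (e ⁻¹' C).indicator (fun _ => (5 / 4 : ℝ)) x := by
      apply integral_congr_ae
      filter_upwards [ae_norm_lt_one, ae_restrict_mem measurableSet_D] with x hx hxD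
      by_cases hxC : e x ∈ C
      · have hxT : x ∈ TT i s := by
          have := hCs hxC
          rwa [mem_preimage, he.inv_e hxD] at this
        rw [indicator_of_mem hxC, indicator_of_mem (by exact hxC), hJ x hxT hx, one_mul]
      · rw [indicator_of_notMem hxC, indicator_of_notMem (by exact hxC), zero_mul]
    have hm : MeasurableSet (e ⁻¹' C) := he.measurable hC.measurableSet
    rw [h5, integral_indicator hm, Measure.restrict_restrict hm, setIntegral_const, smul_eq_mul,
      mul_comm]
  rw [h4] at h3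
  have h5 : Tendsto (fun n => ENNReal.ofReal |TZ e (f n) π|) atTop
      (𝓝 (ENNReal.ofReal |5 / 4 * volume.real (e ⁻¹' C ∩ D)|)) :=
    ENNReal.tendsto_ofReal h3.abs
  have h6 := le_of_tendsto_of_tendsto' h5 h2 h1
  refine le_trans (le_of_eq ?_) h6
  have hfin : volume (e ⁻¹' C ∩ D) ≠ ⊤ :=
    ((measure_mono inter_subset_right).trans_lt measure_closedBall_lt_top).ne
  rw [muZ_apply he hC.measurableSet, abs_of_nonneg (by positivity),
    ENNReal.ofReal_mul (by norm_num), Measure.real, ENNReal.ofReal_toReal hfin,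
    ENNReal.ofReal_div_of_pos (by norm_num), ENNReal.ofReal_ofNat, ENNReal.ofReal_ofNat]

theorem muZ_le_of_subset (he : IsModel e) {ν : Measure Z} (hν : IsFiniteMeasure ν)
    (hb : MassBound (TZ e) ν) (i : Fin 2) {s : ℝ} (hs : s ^ 2 = 1) {B : Set Z}
    (hB : MeasurableSet B) (hBs : B ⊆ he.inv ⁻¹' (TT i s)) : muZ e B ≤ ν B := by
  have := isFiniteMeasure_muZ he
  rw [hB.measure_eq_iSup_isClosed_of_ne_top (measure_ne_top (muZ e) B)]
  refine iSup_le fun C => iSup_le fun hCB => iSup_le fun hC => ?_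
  exact (muZ_closed_le he hν hb i hs hC (hCB.trans hBs)).trans (measure_mono hCB)

/-- Signs. -/
def sg (b : Bool) : ℝ := if b then 1 else -1

theorem sg_sq (b : Bool) : sg b ^ 2 = 1 := by
  cases b <;> simp [sg]

theorem muZ_le (he : IsModel e) {ν : Measure Z} (hν : IsFiniteMeasure ν)
    (hb : MassBound (TZ e) ν) : muZ e ≤ ν := by
  rw [Measure.le_iff]
  intro B hB
  set O : Fin 2 × Bool → Set Z := fun k => B ∩ he.inv ⁻¹' (TT k.1 (sg k.2)) with hO
  have hOm : ∀ k, MeasurableSet (O k) := fun k =>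
    hB.inter (((isOpen_TT _ _).preimage he.lipschitz_inv.continuous).measurableSet)
  have hdisj : Pairwise (Function.onFun Disjoint O) := by
    intro k l hkl
    rw [Function.onFun, Set.disjoint_left]
    rintro z ⟨_, hz1⟩ ⟨_, hz2⟩
    apply hkl
    have d0 := (dd_FF hz1 k.1).symm.trans (dd_FF hz2 k.1)
    rw [if_pos rfl] at d0
    have hne : ∀ b, sg b * (3 / 4) ≠ 0 := by
      intro b; cases b <;> norm_num [sg]
    have h1 : k.1 = l.1 := by
      by_contra h
      rw [if_neg h] at d0
      exact hne _ d0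
    rw [if_pos h1] at d0
    have h2 : sg k.2 = sg l.2 := by linarith
    have h3 : k.2 = l.2 := by
      revert h2
      cases k.2 <;> cases l.2 <;> norm_num [sg]
    exact Prod.ext h1 h3
  have hcov : muZ e (B \ ⋃ k, O k) = 0 := by
    rw [muZ_apply he (hB.diff (MeasurableSet.iUnion hOm))]
    have : volume (e ⁻¹' (B \ ⋃ k, O k) ∩ D) = 0 := by
      have h1 := ae_mem_TT
      rw [ae_restrict_iff' measurableSet_D, ae_iff] at h1
      refine measure_mono_null ?_ h1
      rintro x ⟨⟨hx1, hx2⟩, hxD⟩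
      simp only [mem_ofPred_eq, Classical.not_imp, not_exists, not_and]
      refine ⟨hxD, ?_⟩
      intro i s hs hT
      apply hx2
      rw [mem_iUnion]
      rcases hs with rfl | rfl
      · refine ⟨(i, true), hx1, ?_⟩
        rw [mem_preimage, he.inv_e hxD]
        simpa [sg] using hT
      · refine ⟨(i, false), hx1, ?_⟩
        rw [mem_preimage, he.inv_e hxD]
        simpa [sg] using hT
    rw [this, mul_zero]
  calc muZ e B ≤ muZ e (⋃ k, O k) + muZ e (B \ ⋃ k, O k) := by
        refine (measure_mono ?_).trans (measure_union_le _ _)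
        intro z hz
        by_cases h : z ∈ ⋃ k, O k
        · exact Or.inl h
        · exact Or.inr ⟨hz, h⟩
    _ = muZ e (⋃ k, O k) := by rw [hcov, add_zero]
    _ ≤ ∑' k, muZ e (O k) := measure_iUnion_le _
    _ ≤ ∑' k, ν (O k) := ENNReal.tsum_le_tsum fun k =>
        muZ_le_of_subset he hν hb k.1 (sg_sq k.2) (hOm k) inter_subset_right
    _ = ν (⋃ k, O k) := (measure_iUnion hdisj hOm).symm
    _ ≤ ν B := measure_mono (iUnion_subset fun k => inter_subset_left)

theorem isMassMeasure_muZ (he : IsModel e) : IsMassMeasure (TZ e) (muZ e) :=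
  ⟨⟨isFiniteMeasure_muZ he, massBound_muZ he⟩, fun _ hν => muZ_le he hν.1 hν.2⟩

theorem mass_TZ (he : IsModel e) : mass (TZ e) = 5 := by
  apply le_antisymm
  · exact (iInf₂_le (muZ e) (massBound_muZ he)).trans (le_of_eq (muZ_univ he))
  · refine le_iInf₂ fun ν hb => ?_
    by_cases hν : ν univ = ⊤
    · rw [hν]; exact le_top
    · have : IsFiniteMeasure ν := ⟨lt_top_iff_ne_top.mpr hν⟩
      rw [← muZ_univ he]
      exact muZ_le he this hb univ

end Model

end Pool.Agent.helper71.LVR
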