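import Pool.Agent.helper71.LVR.Graph

/-!
# The current of integration over the graph, for all metrics modelled on the graph
-/

open MeasureTheory Set Filter Topology
open scoped ENNReal NNReal

namespace Pool.Agent.helper71.LVR

theorem det_eq (A : E2 →L[ℝ] E2) :
    A.det = A (ee 0) 0 * A (ee 1) 1 - A (ee 1) 0 * A (ee 0) 1 := by
  rw [ContinuousLinearMap.det, ← LinearMap.det_toMatrix', Matrix.det_fin_two]
  simp only [LinearMap.toMatrix'_apply]
  rfl

theorem det_fderiv {h : Fin 2 → E2 → ℝ} {x : E2} (h0 : DifferentiableAt ℝ (h 0) x)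
    (h1 : DifferentiableAt ℝ (h 1) x) :
    (fderiv ℝ (fun y (i : Fin 2) => h i y) x).det = J2 (h 0) (h 1) x := by
  have hd : ∀ i, DifferentiableAt ℝ (h i) x := by
    intro i; fin_cases i
    · exact h0
    · exact h1
  rw [fderiv_pi hd, det_eq]
  rfl

/-- A parametrisation of a metric space `Z` which is modelled on the graph of `FF`. -/
structure IsModel {Z : Type*} [EMetricSpace Z] (e : E2 → Z) : Prop where
  lip : LipschitzWith 2 e
  surj : ∀ z, ∃ x ∈ D, e x = z
  lower : ∀ x ∈ D, ∀ y ∈ D, edist (PP x) (PP y) ≤ edist (e x) (e y)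
  loc : ∀ᵐ x ∂(volume.restrict D), ∀ᶠ y in 𝓝 x, edist (e y) (e x) ≤ edist (PP y) (PP x)

section Model

variable {Z : Type*} [EMetricSpace Z] [MeasurableSpace Z] [BorelSpace Z] {e : E2 → Z}

theorem IsModel.comp_lip (he : IsModel e) {g : Z → ℝ} {L : ℝ≥0} (hg : LipschitzWith L g) :
    LipschitzWith (L * 2) (fun y => g (e y)) := hg.comp he.lip

theorem IsModel.bdd (he : IsModel e) {g : Z → ℝ} (hg : IsLip g) : ∃ B : ℝ≥0, ∀ x, |g x| ≤ B := by
  obtain ⟨L, hL⟩ := hg
  have hc : Continuous (fun y => g (e y)) := (he.comp_lip hL).continuous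
  obtain ⟨B, hB⟩ := (isCompact_closedBall (0 : E2) 1).exists_bound_of_continuousOn
    hc.continuousOn
  refine ⟨B.toNNReal, fun z => ?_⟩
  obtain ⟨x, hx, rfl⟩ := he.surj z
  exact (hB x hx).trans (Real.le_coe_toNNReal B)

/-- The current of integration. -/
noncomputable def TZ (e : E2 → Z) : MetricFunctional 2 Z := chartCurrent D (fun _ => 1) e

theorem TZ_apply (he : IsModel e) (f : Z → ℝ) {π : Fin 2 → Z → ℝ} (hπ : ∀ i, IsLip (π i)) :
    TZ e f π = ∫ x in D, f (e x) * J2 (fun y => π 0 (e y)) (fun y => π 1 (e y)) x := by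
  unfold TZ chartCurrent
  obtain ⟨L0, hL0⟩ := hπ 0
  obtain ⟨L1, hL1⟩ := hπ 1
  apply integral_congr_ae
  filter_upwards [ae_restrict_of_ae (he.comp_lip hL0).ae_differentiableAt,
    ae_restrict_of_ae (he.comp_lip hL1).ae_differentiableAt, ae_norm_lt_one] with x h0 h1 h2
  have hx : D ∈ 𝓝 x := by
    apply mem_of_superset (Metric.isOpen_ball.mem_nhds (by simpa using h2 :
      x ∈ Metric.ball (0 : E2) 1)) Metric.ball_subset_closedBall
  rw [fderivWithin_of_mem_nhds hx, det_fderiv (h := fun i y => π i (e y)) h0 h1]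
  simp

theorem measurable_comp (he : IsModel e) {f : Z → ℝ} (hf : IsLip f) :
    Measurable fun x => f (e x) := by
  obtain ⟨L, hL⟩ := hf
  exact (he.comp_lip hL).continuous.measurable

theorem IsModel.integrable (he : IsModel e) {f g h : Z → ℝ} (hf : IsLip f) (hg : IsLip g)
    (hh : IsLip h) :
    IntegrableOn (fun x => f (e x) * J2 (fun y => g (e y)) (fun y => h (e y)) x) D := by
  obtain ⟨B, hB⟩ := he.bdd hf
  obtain ⟨L0, hL0⟩ := hg
  obtain ⟨L1, hL1⟩ := hh
  apply integrable_of_bound (B := B * (2 * ((L0 * 2 : ℝ≥0) : ℝ) * ((L1 * 2 : ℝ≥0) : ℝ)))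
  · exact (measurable_comp he hf).mul (measurable_J2 _ _)
  · intro x
    rw [abs_mul]
    exact mul_le_mul (hB _) (abs_J2_le (he.comp_lip hL0) (he.comp_lip hL1) x) (abs_nonneg _) B.2

theorem IsLip.add' {f g : Z → ℝ} (hf : IsLip f) (hg : IsLip g) : IsLip (f + g) := by
  obtain ⟨K, hK⟩ := hf
  obtain ⟨L, hL⟩ := hg
  exact ⟨K + L, hK.add hL⟩

theorem IsLip.smul' {f : Z → ℝ} (c : ℝ) (hf : IsLip f) : IsLip (c • f) := by
  obtain ⟨K, hK⟩ := hf
  refine ⟨‖c‖₊ * K, ?_⟩
  intro x y
  have := hK x y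
  simp only [Pi.smul_apply, smul_eq_mul]
  rw [edist_nndist, ENNReal.coe_mul, mul_assoc]
  calc ((nndist (c * f x) (c * f y) : ℝ≥0) : ℝ≥0∞) = ‖c‖₊ * edist (f x) (f y) := by
        rw [edist_nndist, ← ENNReal.coe_mul]
        congr 1
        rw [nndist_eq_nnnorm, nndist_eq_nnnorm, ← mul_sub, nnnorm_mul]
    _ ≤ ‖c‖₊ * (K * edist x y) := by gcongr

theorem TZ_isMetricCurrent_aux (he : IsModel e) :
    (∀ (f g : Z → ℝ) (π : Fin 2 → Z → ℝ), IsBddLip f → IsBddLip g →
      (∀ i, IsLip (π i)) → TZ e (f + g) π = TZ e f π + TZ e g π) ∧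
    (∀ (c : ℝ) (f : Z → ℝ) (π : Fin 2 → Z → ℝ), IsBddLip f →
      (∀ i, IsLip (π i)) → TZ e (c • f) π = c * TZ e f π) := by
  constructor
  · intro f g π hf hg hπ
    rw [TZ_apply he _ hπ, TZ_apply he _ hπ, TZ_apply he _ hπ,
      ← integral_add (he.integrable hf.1 (hπ 0) (hπ 1)) (he.integrable hg.1 (hπ 0) (hπ 1))]
    congr 1
    ext x
    simp only [Pi.add_apply]
    ring
  · intro c f π hf hπ
    rw [TZ_apply he _ hπ, TZ_apply he _ hπ, ← integral_const_mul]
    congr 1
    ext x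
    simp only [Pi.smul_apply, smul_eq_mul]
    ring

theorem isLip_update {π : Fin 2 → Z → ℝ} (hπ : ∀ i, IsLip (π i)) (i : Fin 2) {u : Z → ℝ}
    (hu : IsLip u) : ∀ j, IsLip (Function.update π i u j) := by
  intro j
  by_cases h : j = i
  · subst h; simpa using hu
  · simpa [Function.update_of_ne h] using hπ j

theorem IsModel.ae_diff (he : IsModel e) {g : Z → ℝ} (hg : IsLip g) :
    ∀ᵐ x ∂(volume.restrict D), DifferentiableAt ℝ (fun y => g (e y)) x := by
  obtain ⟨L, hL⟩ := hg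
  exact ae_restrict_of_ae (he.comp_lip hL).ae_differentiableAt

theorem TZ_add_right (he : IsModel e) (f : Z → ℝ) (π : Fin 2 → Z → ℝ) (i : Fin 2)
    (u v : Z → ℝ) (hf : IsBddLip f) (hπ : ∀ j, IsLip (π j)) (hu : IsLip u) (hv : IsLip v) :
    TZ e f (Function.update π i (u + v)) =
      TZ e f (Function.update π i u) + TZ e f (Function.update π i v) := by
  have a1 := isLip_update hπ i (hu.add' hv)
  have a2 := isLip_update hπ i hu
  have a3 := isLip_update hπ i hv
  rw [TZ_apply he _ a1, TZ_apply he _ a2, TZ_apply he _ a3,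
    ← integral_add (he.integrable hf.1 (a2 0) (a2 1)) (he.integrable hf.1 (a3 0) (a3 1))]
  apply integral_congr_ae
  filter_upwards [he.ae_diff hu, he.ae_diff hv] with x h1 h2
  have e1 : ∀ j, dd j (fun y => (u + v) (e y)) x =
      dd j (fun y => u (e y)) x + dd j (fun y => v (e y)) x := fun j => dd_add h1 h2 j
  fin_cases i
  · simp only [Fin.zero_eta, Function.update_self, ne_eq, one_ne_zero, not_false_eq_true,
      Function.update_of_ne]
    unfold J2
    rw [e1, e1]
    ring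
  · simp only [Fin.mk_one, Function.update_self, ne_eq, zero_ne_one, not_false_eq_true,
      Function.update_of_ne]
    unfold J2
    rw [e1, e1]
    ring

theorem TZ_smul_right (he : IsModel e) (f : Z → ℝ) (π : Fin 2 → Z → ℝ) (i : Fin 2)
    (c : ℝ) (u : Z → ℝ) (_hf : IsBddLip f) (hπ : ∀ j, IsLip (π j)) (hu : IsLip u) :
    TZ e f (Function.update π i (c • u)) = c * TZ e f (Function.update π i u) := by
  have a1 := isLip_update hπ i (hu.smul' c)
  have a2 := isLip_update hπ i hu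
  rw [TZ_apply he _ a1, TZ_apply he _ a2, ← integral_const_mul]
  apply integral_congr_ae
  filter_upwards [he.ae_diff hu] with x h1
  have e1 : ∀ j, dd j (fun y => (c • u) (e y)) x = c * dd j (fun y => u (e y)) x :=
    fun j => dd_const_mul h1 c j
  fin_cases i
  · simp only [Fin.zero_eta, Function.update_self, ne_eq, one_ne_zero, not_false_eq_true,
      Function.update_of_ne]
    unfold J2
    rw [e1, e1]
    ring
  · simp only [Fin.mk_one, Function.update_self, ne_eq, zero_ne_one, not_false_eq_true,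
      Function.update_of_ne]
    unfold J2
    rw [e1, e1]
    ring

theorem TZ_continuity (he : IsModel e) (f : Z → ℝ) (π : ℕ → Fin 2 → Z → ℝ)
    (ρ : Fin 2 → Z → ℝ) (K : ℝ≥0) (hf : IsBddLip f) (hπ : ∀ k i, LipschitzWith K (π k i))
    (hlim : ∀ i x, Tendsto (fun k => π k i x) atTop (𝓝 (ρ i x))) :
    Tendsto (fun k => TZ e f (π k)) atTop (𝓝 (TZ e f ρ)) := by
  have hρ : ∀ i, LipschitzWith K (ρ i) := fun i =>
    lipschitz_of_tendsto (fun k => hπ k i) (hlim i)
  rw [TZ_apply he f (fun i => ⟨K, hρ i⟩)]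
  simp_rw [fun k => TZ_apply he f (π := π k) (fun i => ⟨K, hπ k i⟩)]
  obtain ⟨A, hA⟩ := he.bdd hf.1
  obtain ⟨L, hL⟩ := hf.1
  -- uniform bound
  have hb : ∀ i, ∃ B : ℝ≥0, ∀ k x, |π k i (e x)| ≤ B := by
    intro i
    have h1 : ∃ M, ∀ k, |π k i (e 0)| ≤ M := by
      have := (hlim i (e 0)).abs.bddAbove_range
      obtain ⟨M, hM⟩ := this
      exact ⟨M, fun k => hM ⟨k, rfl⟩⟩
    obtain ⟨M, hM⟩ := h1
    refine ⟨(M + K * 2).toNNReal, fun k x => ?_⟩
    refine le_trans ?_ (Real.le_coe_toNNReal _)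
    obtain ⟨y, hy, hyx⟩ := he.surj (e x)
    rw [← hyx]
    have h2 := (he.comp_lip (hπ k i)).dist_le_mul y 0
    rw [Real.dist_eq, dist_zero_right] at h2
    have h3 : ‖y‖ ≤ 1 := by simpa [D] using hy
    have h4 : |π k i (e y)| ≤ |π k i (e 0)| + |π k i (e y) - π k i (e 0)| := by
      have := abs_add_le (π k i (e 0)) (π k i (e y) - π k i (e 0))
      rwa [add_sub_cancel] at this
    have h5 : ((K * 2 : ℝ≥0) : ℝ) * ‖y‖ ≤ K * 2 := by
      push_cast
      have : (0 : ℝ) ≤ K * 2 := by positivity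
      nlinarith
    linarith [hM k]
  obtain ⟨B0, hB0⟩ := hb 0
  obtain ⟨B1, hB1⟩ := hb 1
  exact tendsto_setIntegral_J2 (f := fun x => f (e x)) (A := A) (B := max B0 B1) (K := K * 2)
    (he.comp_lip hL) (fun x => hA _) (fun k => he.comp_lip (hπ k 0))
    (fun k => he.comp_lip (hπ k 1))
    (fun k x => (hB0 k x).trans (by exact_mod_cast le_max_left _ _))
    (fun k x => (hB1 k x).trans (by exact_mod_cast le_max_right _ _))
    (fun x => hlim 0 (e x)) (fun x => hlim 1 (e x))

theorem TZ_locality (he : IsModel e) (f : Z → ℝ) (π : Fin 2 → Z → ℝ) (i : Fin 2) (O : Set Z)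
    (c : ℝ) (hπ : ∀ j, IsLip (π j)) (hO : IsOpen O)
    (hf : {x | f x ≠ 0} ⊆ O) (hc : ∀ x ∈ O, π i x = c) : TZ e f π = 0 := by
  rw [TZ_apply he _ hπ]
  have : ∀ x, f (e x) * J2 (fun y => π 0 (e y)) (fun y => π 1 (e y)) x = 0 := by
    intro x
    by_cases hx : f (e x) = 0
    · rw [hx, zero_mul]
    · have h1 : e x ∈ O := hf hx
      have h2 : (fun y => π i (e y)) =ᶠ[𝓝 x] fun _ => c := by
        filter_upwards [he.lip.continuous.continuousAt.preimage_mem_nhds (hO.mem_nhds h1)]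
          with y hy
        exact hc _ hy
      have h3 : ∀ j, dd j (fun y => π i (e y)) x = 0 := by
        intro j
        rw [dd_eq_of_eventuallyEq h2, dd_const]
      unfold J2
      fin_cases i
      · simp only [Fin.zero_eta] at h3
        rw [h3, h3]; ring
      · simp only [Fin.mk_one] at h3
        rw [h3, h3]; ring
  simp_rw [this]
  simp

end Model

end Pool.Agent.helper71.LVR
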