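import Mathlib

/-!
# Integration by parts for Lipschitz functions on the square `[-1, 1]²`
-/

open MeasureTheory Set Filter Topology
open scoped ENNReal NNReal

namespace Pool.Agent.helper71.LVR

/-- The plane with the sup norm. -/
abbrev E2 := Fin 2 → ℝ

/-- The closed square `[-1, 1]²`. -/
def D : Set E2 := Metric.closedBall 0 1

/-- The standard basis vectors. -/
noncomputable def ee (i : Fin 2) : E2 := Pi.single i 1

/-- Partial derivatives. -/
noncomputable def dd (i : Fin 2) (g : E2 → ℝ) (x : E2) : ℝ := fderiv ℝ g x (ee i)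

/-- The Jacobian determinant of `(g, h)`. -/
noncomputable def J2 (g h : E2 → ℝ) (x : E2) : ℝ := dd 0 g x * dd 1 h x - dd 1 g x * dd 0 h x

theorem norm_ee (i : Fin 2) : ‖ee i‖ = 1 := by
  rw [ee, Pi.norm_single]; simp

theorem abs_dd_le {g : E2 → ℝ} {K : ℝ≥0} (hg : LipschitzWith K g) (i : Fin 2) (x : E2) :
    |dd i g x| ≤ K := by
  have h1 := (fderiv ℝ g x).le_opNorm (ee i)
  have h2 := norm_fderiv_le_of_lipschitz ℝ hg (x₀ := x)
  rw [norm_ee, mul_one] at h1
  exact (Real.norm_eq_abs _ ▸ h1).trans h2

theorem abs_J2_le {g h : E2 → ℝ} {K L : ℝ≥0} (hg : LipschitzWith K g) (hh : LipschitzWith L h)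
    (x : E2) : |J2 g h x| ≤ 2 * K * L := by
  unfold J2
  have a0 := abs_dd_le hg 0 x
  have a1 := abs_dd_le hg 1 x
  have b0 := abs_dd_le hh 0 x
  have b1 := abs_dd_le hh 1 x
  calc |dd 0 g x * dd 1 h x - dd 1 g x * dd 0 h x|
      ≤ |dd 0 g x * dd 1 h x| + |dd 1 g x * dd 0 h x| := abs_sub _ _
    _ = |dd 0 g x| * |dd 1 h x| + |dd 1 g x| * |dd 0 h x| := by rw [abs_mul, abs_mul]
    _ ≤ K * L + K * L := by gcongr
    _ = 2 * K * L := by ring

theorem measurable_dd (i : Fin 2) (g : E2 → ℝ) : Measurable (dd i g) :=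
  measurable_fderiv_apply_const ℝ g (ee i)

theorem measurable_J2 (g h : E2 → ℝ) : Measurable (J2 g h) :=
  ((measurable_dd 0 g).mul (measurable_dd 1 h)).sub ((measurable_dd 1 g).mul (measurable_dd 0 h))

theorem J2_swap (g h : E2 → ℝ) (x : E2) : J2 g h x = - J2 h g x := by
  unfold J2; ring

/-- Difference quotients converge to the partial derivative. -/
theorem tendsto_slope {g : E2 → ℝ} {x : E2} (hg : DifferentiableAt ℝ g x) (i : Fin 2)
    {t : ℕ → ℝ} (ht : Tendsto t atTop (𝓝 0)) (ht0 : ∀ n, t n ≠ 0) :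
    Tendsto (fun n => (t n)⁻¹ * (g (x + t n • ee i) - g x)) atTop (𝓝 (dd i g x)) := by
  have h := (hg.hasFDerivAt.hasLineDerivAt (ee i)).tendsto_slope_zero
  have h2 : Tendsto t atTop (𝓝[≠] 0) :=
    tendsto_nhdsWithin_iff.mpr ⟨ht, Eventually.of_forall ht0⟩
  exact h.comp h2

/-- The discrete Jacobian. -/
noncomputable def DJ (t : ℝ) (u h : E2 → ℝ) (x : E2) : ℝ :=
  (t⁻¹ * (u (x + t • ee 0) - u x)) * ((-t)⁻¹ * (h (x + (-t) • ee 1) - h x)) -
  (t⁻¹ * (u (x + t • ee 1) - u x)) * ((-t)⁻¹ * (h (x + (-t) • ee 0) - h x))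

theorem integral_shift (u h : E2 → ℝ) (a b : E2) :
    ∫ x, u (x + a) * h (x + b) = ∫ x, u x * h (x + (b - a)) := by
  rw [← integral_add_right_eq_self (fun x => u x * h (x + (b - a))) a]
  congr 1
  ext x
  congr 2
  abel

theorem integral_DJ {t : ℝ} {u h : E2 → ℝ} (hu : Continuous u) (hh : Continuous h)
    (hc : HasCompactSupport u) : ∫ x, DJ t u h x = 0 := by
  have hint : ∀ a b : E2, Integrable (fun x => u (x + a) * h (x + b)) := by
    intro a b
    apply Continuous.integrable_of_hasCompactSupport (by fun_prop)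
    exact HasCompactSupport.mul_right (hc.comp_homeomorph (Homeomorph.addRight a))
  have e : ∀ x, DJ t u h x = (t⁻¹ * (-t)⁻¹) *
      ((u (x + t • ee 0) * h (x + (-t) • ee 1) - u (x + t • ee 0) * h (x + 0)
        - u (x + 0) * h (x + (-t) • ee 1) + u (x + 0) * h (x + 0)) -
       (u (x + t • ee 1) * h (x + (-t) • ee 0) - u (x + t • ee 1) * h (x + 0)
        - u (x + 0) * h (x + (-t) • ee 0) + u (x + 0) * h (x + 0))) := by
    intro x
    unfold DJ
    simp only [add_zero]
    ring
  simp_rw [e]
  rw [integral_const_mul]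
  rw [integral_sub, integral_add, integral_sub, integral_sub, integral_add, integral_sub,
    integral_sub]
  · rw [integral_shift u h (t • ee 0) ((-t) • ee 1), integral_shift u h (t • ee 0) 0,
      integral_shift u h 0 ((-t) • ee 1), integral_shift u h 0 0,
      integral_shift u h (t • ee 1) ((-t) • ee 0), integral_shift u h (t • ee 1) 0,
      integral_shift u h 0 ((-t) • ee 0)]
    have e1 : (-t) • ee 1 - t • ee 0 = (-t) • ee 0 - t • ee 1 := by
      simp only [neg_smul]; abel
    have e2 : (0 : E2) - t • ee 0 = (-t) • ee 0 - 0 := by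
      simp only [neg_smul]; abel
    have e3 : (0 : E2) - t • ee 1 = (-t) • ee 1 - 0 := by
      simp only [neg_smul]; abel
    rw [e1, e2, e3]
    ring
  all_goals
    first
    | exact hint _ _
    | exact (hint _ _).sub (hint _ _)
    | exact ((hint _ _).sub (hint _ _)).sub (hint _ _)
    | exact (((hint _ _).sub (hint _ _)).sub (hint _ _)).add (hint _ _)

theorem abs_quotient_le {g : E2 → ℝ} {K : ℝ≥0} (hg : LipschitzWith K g) (x : E2) {t : ℝ}
    (ht : t ≠ 0) (i : Fin 2) : |t⁻¹ * (g (x + t • ee i) - g x)| ≤ K := by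
  have h := hg.dist_le_mul (x + t • ee i) x
  rw [dist_eq_norm, dist_eq_norm, add_sub_cancel_left, norm_smul, norm_ee, mul_one] at h
  rw [abs_mul, abs_inv, inv_mul_le_iff₀ (abs_pos.mpr ht)]
  rw [Real.norm_eq_abs, Real.norm_eq_abs] at h
  linarith

theorem integral_J2_eq_zero {u h : E2 → ℝ} {K L : ℝ≥0} (hu : LipschitzWith K u)
    (hh : LipschitzWith L h) (h0 : ∀ x, x ∉ D → u x = 0) : ∫ x, J2 u h x = 0 := by
  have hc : HasCompactSupport u := HasCompactSupport.intro (isCompact_closedBall 0 1) h0
  set t : ℕ → ℝ := fun n => 1 / ((n : ℝ) + 1) with ht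
  have htpos : ∀ n, 0 < t n := fun n => by positivity
  have htle : ∀ n, t n ≤ 1 := fun n => by
    simp only [ht]
    rw [div_le_one (by positivity)]
    linarith [(Nat.cast_nonneg n : (0 : ℝ) ≤ n)]
  have htlim : Tendsto t atTop (𝓝 0) := tendsto_one_div_add_atTop_nhds_zero_nat
  have key : Tendsto (fun n => ∫ x, DJ (t n) u h x) atTop (𝓝 (∫ x, J2 u h x)) := by
    apply tendsto_integral_of_dominated_convergence
      (indicator (Metric.closedBall (0 : E2) 2) fun _ => 2 * (K : ℝ) * L)
    · intro n
      apply Continuous.aestronglyMeasurable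
      unfold DJ
      have := hu.continuous
      have := hh.continuous
      fun_prop
    · apply (integrable_indicator_iff measurableSet_closedBall).mpr
      exact integrableOn_const (measure_closedBall_lt_top.ne)
    · intro n
      filter_upwards with x
      by_cases hx : x ∈ Metric.closedBall (0 : E2) 2
      · rw [indicator_of_mem hx, Real.norm_eq_abs]
        unfold DJ
        have a0 := abs_quotient_le hu x (htpos n).ne' 0
        have a1 := abs_quotient_le hu x (htpos n).ne' 1
        have b0 := abs_quotient_le hh x (neg_ne_zero.mpr (htpos n).ne') 0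
        have b1 := abs_quotient_le hh x (neg_ne_zero.mpr (htpos n).ne') 1
        refine (abs_sub _ _).trans ?_
        have m0 := (abs_mul _ _).trans_le (mul_le_mul a0 b1 (abs_nonneg _) K.2)
        have m1 := (abs_mul _ _).trans_le (mul_le_mul a1 b0 (abs_nonneg _) K.2)
        refine (add_le_add m0 m1).trans (le_of_eq ?_)
        ring
      · rw [indicator_of_notMem hx]
        have hx' : 2 < ‖x‖ := by
          simpa using hx
        have z : ∀ i, u (x + t n • ee i) = 0 := by
          intro i
          apply h0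
          simp only [D, mem_closedBall_zero_iff, not_le]
          have h1 : ‖x‖ ≤ ‖x + t n • ee i‖ + ‖t n • ee i‖ := by
            calc ‖x‖ = ‖(x + t n • ee i) - t n • ee i‖ := by rw [add_sub_cancel_right]
              _ ≤ _ := norm_sub_le _ _
          rw [norm_smul, norm_ee, mul_one, Real.norm_eq_abs, abs_of_pos (htpos n)] at h1
          linarith [htle n]
        have z0 : u x = 0 := by
          apply h0
          simp only [D, mem_closedBall_zero_iff, not_le]
          linarith
        unfold DJ
        rw [z, z, z0]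
        simp
    · filter_upwards [hu.ae_differentiableAt, hh.ae_differentiableAt] with x hx1 hx2
      unfold DJ J2
      have hneg : Tendsto (fun n => - t n) atTop (𝓝 0) := by simpa using htlim.neg
      have u0 := tendsto_slope hx1 0 htlim (fun n => (htpos n).ne')
      have u1 := tendsto_slope hx1 1 htlim (fun n => (htpos n).ne')
      have v0 := tendsto_slope hx2 0 hneg (fun n => neg_ne_zero.mpr (htpos n).ne')
      have v1 := tendsto_slope hx2 1 hneg (fun n => neg_ne_zero.mpr (htpos n).ne')
      exact (u0.mul v1).sub (u1.mul v0)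
  have key2 : ∀ n, ∫ x, DJ (t n) u h x = 0 := fun n =>
    integral_DJ hu.continuous hh.continuous hc
  simp_rw [key2] at key
  exact (tendsto_nhds_unique key tendsto_const_nhds)

end Pool.Agent.helper71.LVR
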