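import Pool.Agent.helper71.LVR.Plane

/-!
# Integration by parts on the square: weak continuity and the boundary estimate
-/

open MeasureTheory Set Filter Topology
open scoped ENNReal NNReal Pointwise

namespace Pool.Agent.helper71.LVR

theorem lipschitz_mul {f g : E2 → ℝ} {K L A B : ℝ≥0} (hf : LipschitzWith K f)
    (hg : LipschitzWith L g) (hA : ∀ x, |f x| ≤ A) (hB : ∀ x, |g x| ≤ B) :
    LipschitzWith (A * L + B * K) (fun x => f x * g x) := by
  apply LipschitzWith.of_dist_le_mul
  intro x y
  have h1 := hf.dist_le_mul x y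
  have h2 := hg.dist_le_mul x y
  rw [Real.dist_eq] at h1 h2 ⊢
  have e : f x * g x - f y * g y = f x * (g x - g y) + g y * (f x - f y) := by ring
  rw [e]
  refine (abs_add_le _ _).trans ?_
  rw [abs_mul, abs_mul]
  push_cast
  calc |f x| * |g x - g y| + |g y| * |f x - f y|
      ≤ A * (L * dist x y) + B * (K * dist x y) := by
        gcongr
        · exact hA x
        · exact hB y
    _ = (A * L + B * K) * dist x y := by ring

theorem dd_mul {f g : E2 → ℝ} {x : E2} (hf : DifferentiableAt ℝ f x)
    (hg : DifferentiableAt ℝ g x) (i : Fin 2) :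
    dd i (fun y => f y * g y) x = f x * dd i g x + g x * dd i f x := by
  unfold dd
  rw [fderiv_fun_mul hf hg]
  simp

theorem J2_mul {f g : E2 → ℝ} {x : E2} (hf : DifferentiableAt ℝ f x)
    (hg : DifferentiableAt ℝ g x) (h : E2 → ℝ) :
    J2 (fun y => f y * g y) h x = f x * J2 g h x + g x * J2 f h x := by
  unfold J2
  rw [dd_mul hf hg, dd_mul hf hg]
  ring

theorem dd_sub {f g : E2 → ℝ} {x : E2} (hf : DifferentiableAt ℝ f x)
    (hg : DifferentiableAt ℝ g x) (i : Fin 2) :
    dd i (fun y => f y - g y) x = dd i f x - dd i g x := by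
  unfold dd
  rw [fderiv_fun_sub hf hg]
  simp

theorem dd_add {f g : E2 → ℝ} {x : E2} (hf : DifferentiableAt ℝ f x)
    (hg : DifferentiableAt ℝ g x) (i : Fin 2) :
    dd i (fun y => f y + g y) x = dd i f x + dd i g x := by
  unfold dd
  rw [fderiv_fun_add hf hg]
  simp

theorem dd_const_mul {f : E2 → ℝ} {x : E2} (hf : DifferentiableAt ℝ f x) (c : ℝ)
    (i : Fin 2) : dd i (fun y => c * f y) x = c * dd i f x := by
  unfold dd
  rw [fderiv_const_mul hf c]
  simp

theorem dd_eq_of_eventuallyEq {f g : E2 → ℝ} {x : E2} (h : f =ᶠ[𝓝 x] g) (i : Fin 2) :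
    dd i f x = dd i g x := by
  unfold dd
  rw [h.fderiv_eq]

theorem dd_const (c : ℝ) (i : Fin 2) (x : E2) : dd i (fun _ => c) x = 0 := by
  unfold dd
  simp

theorem integrable_of_bound {G : E2 → ℝ} (hG : Measurable G) {B : ℝ} (hB : ∀ x, |G x| ≤ B) :
    IntegrableOn G D := by
  apply Measure.integrableOn_of_bounded (M := B) (measure_closedBall_lt_top.ne)
    hG.aestronglyMeasurable
  exact Eventually.of_forall fun x => by simpa using hB x

theorem measurableSet_D : MeasurableSet D := measurableSet_closedBall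

theorem isOpen_compl_D : IsOpen (Dᶜ) := Metric.isClosed_closedBall.isOpen_compl

/-- If `F` vanishes outside `D` then `J2 F h` vanishes outside `D`. -/
theorem J2_eq_zero_of_notMem {F : E2 → ℝ} (hF : ∀ x, x ∉ D → F x = 0) (h : E2 → ℝ) {x : E2}
    (hx : x ∉ D) : J2 F h x = 0 := by
  have e : F =ᶠ[𝓝 x] fun _ => 0 := by
    filter_upwards [isOpen_compl_D.mem_nhds hx] with y hy
    exact hF y hy
  unfold J2
  rw [dd_eq_of_eventuallyEq e, dd_eq_of_eventuallyEq e, dd_const, dd_const]
  ring

/-- Integration by parts on the square. -/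
theorem setIntegral_J2_swap {F g h : E2 → ℝ} {K L M A B : ℝ≥0} (hF : LipschitzWith K F)
    (hg : LipschitzWith L g) (hh : LipschitzWith M h) (hA : ∀ x, |F x| ≤ A)
    (hB : ∀ x, |g x| ≤ B) (h0 : ∀ x, x ∉ D → F x = 0) :
    ∫ x in D, F x * J2 g h x = - ∫ x in D, g x * J2 F h x := by
  have hFg := lipschitz_mul hF hg hA hB
  have h1 : ∫ x, J2 (fun y => F y * g y) h x = 0 := by
    apply integral_J2_eq_zero hFg hh
    intro x hx
    rw [h0 x hx, zero_mul]
  have h2 : ∫ x in D, J2 (fun y => F y * g y) h x = 0 := by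
    rw [setIntegral_eq_integral_of_forall_compl_eq_zero, h1]
    intro x hx
    apply J2_eq_zero_of_notMem _ _ hx
    intro y hy
    rw [h0 y hy, zero_mul]
  have h3 : ∫ x in D, J2 (fun y => F y * g y) h x
      = ∫ x in D, (F x * J2 g h x + g x * J2 F h x) := by
    apply integral_congr_ae
    filter_upwards [ae_restrict_of_ae hF.ae_differentiableAt,
      ae_restrict_of_ae hg.ae_differentiableAt] with x h1 h2
    exact J2_mul h1 h2 h
  rw [h3, integral_add] at h2
  · linarith
  · apply integrable_of_bound (B := A * (2 * L * M))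
    · exact (hF.continuous.measurable).mul (measurable_J2 _ _)
    · intro x
      rw [abs_mul]
      exact mul_le_mul (hA x) (abs_J2_le hg hh x) (abs_nonneg _) A.2
  · apply integrable_of_bound (B := B * (2 * K * M))
    · exact (hg.continuous.measurable).mul (measurable_J2 _ _)
    · intro x
      rw [abs_mul]
      exact mul_le_mul (hB x) (abs_J2_le hF hh x) (abs_nonneg _) B.2

/-- The cut-off functions. -/
noncomputable def cut (δ : ℝ) (x : E2) : ℝ := min 1 (max 0 ((1 - ‖x‖) / δ))

theorem cut_nonneg (δ : ℝ) (x : E2) : 0 ≤ cut δ x := le_min zero_le_one (le_max_left _ _)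

theorem cut_le_one (δ : ℝ) (x : E2) : cut δ x ≤ 1 := min_le_left _ _

theorem abs_cut_le (δ : ℝ) (x : E2) : |cut δ x| ≤ ((1 : ℝ≥0) : ℝ) := by
  rw [abs_of_nonneg (cut_nonneg δ x)]
  exact cut_le_one δ x

theorem cut_eq_zero {δ : ℝ} (hδ : 0 < δ) {x : E2} (hx : x ∉ D) : cut δ x = 0 := by
  have h : 1 < ‖x‖ := by simpa [D] using hx
  unfold cut
  rw [max_eq_left (div_nonpos_of_nonpos_of_nonneg (by linarith) hδ.le)]
  exact min_eq_right zero_le_one

theorem cut_eq_one {δ : ℝ} (hδ : 0 < δ) {x : E2} (hx : ‖x‖ ≤ 1 - δ) : cut δ x = 1 := by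
  unfold cut
  apply min_eq_left
  apply le_max_of_le_right
  rw [le_div_iff₀ hδ]
  linarith

theorem lipschitz_cut {δ : ℝ≥0} (hδ : 0 < δ) : LipschitzWith (1 / δ) (cut δ) := by
  unfold cut
  have h1 : LipschitzWith (1 / δ) (fun x : E2 => (1 - ‖x‖) / (δ : ℝ)) := by
    apply LipschitzWith.of_dist_le_mul
    intro x y
    rw [Real.dist_eq, dist_eq_norm]
    have e : (1 - ‖x‖) / (δ : ℝ) - (1 - ‖y‖) / δ = (‖y‖ - ‖x‖) / δ := by ring
    rw [e, abs_div, NNReal.abs_eq, NNReal.coe_div, NNReal.coe_one, one_div, div_eq_inv_mul]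
    have := abs_norm_sub_norm_le y x
    rw [norm_sub_rev] at this
    gcongr
  exact (h1.const_max 0).const_min 1

theorem lipschitz_of_tendsto {X : Type*} [PseudoEMetricSpace X] {K : ℝ≥0} {g : ℕ → X → ℝ}
    {g' : X → ℝ} (hg : ∀ k, LipschitzWith K (g k))
    (h : ∀ x, Tendsto (fun k => g k x) atTop (𝓝 (g' x))) : LipschitzWith K g' := by
  intro x y
  have h1 : Tendsto (fun k => edist (g k x) (g k y)) atTop (𝓝 (edist (g' x) (g' y))) :=
    (h x).edist (h y)
  exact le_of_tendsto h1 (Eventually.of_forall fun k => hg k x y)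

theorem tendsto_setIntegral_J2_of_vanish {F : E2 → ℝ} {g h : ℕ → E2 → ℝ} {g' h' : E2 → ℝ}
    {A B K L : ℝ≥0} (hF : LipschitzWith L F) (hA : ∀ x, |F x| ≤ A)
    (h0 : ∀ x, x ∉ D → F x = 0) (hg : ∀ k, LipschitzWith K (g k))
    (hh : ∀ k, LipschitzWith K (h k)) (hgB : ∀ k x, |g k x| ≤ B) (hhB : ∀ k x, |h k x| ≤ B)
    (tg : ∀ x, Tendsto (fun k => g k x) atTop (𝓝 (g' x)))
    (th : ∀ x, Tendsto (fun k => h k x) atTop (𝓝 (h' x))) :
    Tendsto (fun k => ∫ x in D, F x * J2 (g k) (h k) x) atTop
      (𝓝 (∫ x in D, F x * J2 g' h' x)) := by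
  have hg' : LipschitzWith K g' := lipschitz_of_tendsto hg tg
  have hh' : LipschitzWith K h' := lipschitz_of_tendsto hh th
  have hgB' : ∀ x, |g' x| ≤ B := fun x =>
    le_of_tendsto (tg x).abs (Eventually.of_forall fun k => hgB k x)
  have hhB' : ∀ x, |h' x| ≤ B := fun x =>
    le_of_tendsto (th x).abs (Eventually.of_forall fun k => hhB k x)
  have hsub : ∀ {a b : E2 → ℝ}, LipschitzWith K a → LipschitzWith K b →
      LipschitzWith (K + K) (fun x => a x - b x) := fun ha hb => ha.sub hb
  have hsubB : ∀ {a b : E2 → ℝ}, (∀ x, |a x| ≤ B) → (∀ x, |b x| ≤ B) →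
      ∀ x, |a x - b x| ≤ ((B + B : ℝ≥0) : ℝ) := by
    intro a b ha hb x
    push_cast
    exact (abs_sub _ _).trans (add_le_add (ha x) (hb x))
  have hmF : Measurable F := hF.continuous.measurable
  -- decomposition
  have dec : ∀ k, (∫ x in D, F x * J2 (g k) (h k) x) - (∫ x in D, F x * J2 g' h' x) =
      (- ∫ x in D, (g k x - g' x) * J2 F (h k) x) +
        ∫ x in D, (h k x - h' x) * J2 F g' x := by
    intro k
    have s1 := setIntegral_J2_swap hF (hsub (hg k) hg') (hh k) hA (hsubB (hgB k) hgB') h0
    have s2 := setIntegral_J2_swap hF (hsub (hh k) hh') hg' hA (hsubB (hhB k) hhB') h0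
    have s2' := neg_eq_iff_eq_neg.mpr s2
    have I1 : IntegrableOn (fun x => F x * J2 (g k) (h k) x) D := by
      apply integrable_of_bound (B := A * (2 * K * K))
      · exact hmF.mul (measurable_J2 _ _)
      · intro x
        rw [abs_mul]
        exact mul_le_mul (hA x) (abs_J2_le (hg k) (hh k) x) (abs_nonneg _) A.2
    have I2 : IntegrableOn (fun x => F x * J2 g' h' x) D := by
      apply integrable_of_bound (B := A * (2 * K * K))
      · exact hmF.mul (measurable_J2 _ _)
      · intro x
        rw [abs_mul]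
        exact mul_le_mul (hA x) (abs_J2_le hg' hh' x) (abs_nonneg _) A.2
    have I3 : IntegrableOn (fun x => F x * J2 (fun x => g k x - g' x) (h k) x) D := by
      apply integrable_of_bound (B := A * (2 * ((K + K : ℝ≥0) : ℝ) * K))
      · exact hmF.mul (measurable_J2 _ _)
      · intro x
        rw [abs_mul]
        exact mul_le_mul (hA x) (abs_J2_le (hsub (hg k) hg') (hh k) x) (abs_nonneg _) A.2
    have I4 : IntegrableOn (fun x => F x * J2 (fun x => h k x - h' x) g' x) D := by
      apply integrable_of_bound (B := A * (2 * ((K + K : ℝ≥0) : ℝ) * K))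
      · exact hmF.mul (measurable_J2 _ _)
      · intro x
        rw [abs_mul]
        exact mul_le_mul (hA x) (abs_J2_le (hsub (hh k) hh') hg' x) (abs_nonneg _) A.2
    have e1 := integral_sub I1 I2
    have e2 := integral_sub I3 I4
    have e3 : ∫ x in D, (F x * J2 (g k) (h k) x - F x * J2 g' h' x) =
        ∫ x in D, (F x * J2 (fun x => g k x - g' x) (h k) x -
          F x * J2 (fun x => h k x - h' x) g' x) := by
      apply integral_congr_ae
      filter_upwards [ae_restrict_of_ae (hg k).ae_differentiableAt,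
        ae_restrict_of_ae (hh k).ae_differentiableAt,
        ae_restrict_of_ae hg'.ae_differentiableAt,
        ae_restrict_of_ae hh'.ae_differentiableAt] with x a1 a2 a3 a4
      unfold J2
      rw [dd_sub a1 a3, dd_sub a1 a3, dd_sub a2 a4, dd_sub a2 a4]
      ring
    linarith
  have lim : ∀ {a : ℕ → E2 → ℝ} {a' : E2 → ℝ} {b : ℕ → E2 → ℝ}, (∀ k, LipschitzWith K (a k)) →
      LipschitzWith K a' → (∀ k x, |a k x| ≤ B) → (∀ x, |a' x| ≤ B) →
      (∀ x, Tendsto (fun k => a k x) atTop (𝓝 (a' x))) → (∀ k, LipschitzWith K (b k)) →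
      Tendsto (fun k => ∫ x in D, (a k x - a' x) * J2 F (b k) x) atTop (𝓝 0) := by
    intro a a' b ha ha' haB haB' ta hb
    have h1 : Tendsto (fun k => ∫ x in D, (a k x - a' x) * J2 F (b k) x) atTop
        (𝓝 (∫ x in D, (0 : ℝ))) := by
      apply tendsto_integral_of_dominated_convergence
        (fun _ => ((B + B : ℝ≥0) : ℝ) * (2 * L * K))
      · intro k
        exact (((ha k).continuous.measurable.sub ha'.continuous.measurable).mul
          (measurable_J2 _ _)).aestronglyMeasurable
      · exact integrableOn_const (measure_closedBall_lt_top.ne)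
      · intro k
        filter_upwards with x
        rw [Real.norm_eq_abs, abs_mul]
        exact mul_le_mul (hsubB (haB k) haB' x) (abs_J2_le hF (hb k) x) (abs_nonneg _)
          (B + B).2
      · filter_upwards with x
        rw [tendsto_zero_iff_abs_tendsto_zero]
        have h2 : Tendsto (fun k => |a k x - a' x| * (2 * L * K)) atTop (𝓝 0) := by
          have h3 : Tendsto (fun k => a k x - a' x) atTop (𝓝 0) := by
            simpa using (ta x).sub_const (a' x)
          simpa using (h3.abs).mul_const (2 * (L : ℝ) * K)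
        refine squeeze_zero (fun k => abs_nonneg _) (fun k => ?_) h2
        simp only [Function.comp_apply, abs_mul]
        gcongr
        exact abs_J2_le hF (hb k) x
    simpa using h1
  rw [← tendsto_sub_nhds_zero_iff]
  simp_rw [dec]
  have l1 := lim hg hg' hgB hgB' tg hh
  have l2 := lim (b := fun _ => g') hh hh' hhB hhB' th (fun _ => hg')
  simpa using l1.neg.add l2

theorem ae_norm_lt_one : ∀ᵐ x ∂(volume.restrict D), ‖x‖ < 1 := by
  have h : ∀ᵐ x : E2, x ∉ Metric.sphere (0 : E2) 1 := by
    rw [ae_iff]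
    simp only [not_not, ofPred_mem_eq]
    exact Measure.addHaar_sphere_of_ne_zero _ _ one_ne_zero
  filter_upwards [ae_restrict_of_ae h, ae_restrict_mem measurableSet_D] with x h1 h2
  have h3 : ‖x‖ ≤ 1 := by simpa [D] using h2
  have h4 : ‖x‖ ≠ 1 := by simpa using h1
  exact lt_of_le_of_ne h3 h4

/-- `1 / (m + 1)` as a nonnegative real. -/
noncomputable def dl (m : ℕ) : ℝ≥0 := 1 / ((m : ℝ≥0) + 1)

theorem dl_pos (m : ℕ) : 0 < dl m := by unfold dl; positivity

theorem dl_pos' (m : ℕ) : (0 : ℝ) < (dl m : ℝ) := NNReal.coe_pos.mpr (dl_pos m)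

theorem dl_le_one (m : ℕ) : dl m ≤ 1 := by
  unfold dl
  rw [div_le_one (by positivity)]
  exact le_add_of_nonneg_left zero_le

theorem tendsto_dl : Tendsto (fun m => (dl m : ℝ)) atTop (𝓝 0) := by
  have : (fun m : ℕ => (dl m : ℝ)) = fun m : ℕ => 1 / ((m : ℝ) + 1) := by
    ext m; simp [dl]
  rw [this]
  exact tendsto_one_div_add_atTop_nhds_zero_nat

theorem continuous_cut {δ : ℝ≥0} (hδ : 0 < δ) : Continuous (cut δ) := (lipschitz_cut hδ).continuous

theorem tendsto_integral_one_sub_cut :
    Tendsto (fun m => ∫ x in D, (1 - cut (dl m) x)) atTop (𝓝 0) := by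
  have h : Tendsto (fun m => ∫ x in D, (1 - cut (dl m) x)) atTop (𝓝 (∫ x in D, (0 : ℝ))) := by
    apply tendsto_integral_of_dominated_convergence (fun _ => 1)
    · intro m
      have := continuous_cut (dl_pos m)
      exact (by fun_prop : Continuous fun x => 1 - cut (dl m) x).aestronglyMeasurable
    · exact integrableOn_const (measure_closedBall_lt_top.ne)
    · intro m
      filter_upwards with x
      rw [Real.norm_eq_abs, abs_of_nonneg (by linarith [cut_le_one (dl m) x])]
      linarith [cut_nonneg (dl m) x]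
    · filter_upwards [ae_norm_lt_one] with x hx
      apply tendsto_const_nhds.congr'
      have h1 : ∀ᶠ m in atTop, (dl m : ℝ) < 1 - ‖x‖ :=
        tendsto_dl.eventually_lt_const (by linarith)
      filter_upwards [h1] with m hm
      rw [cut_eq_one (dl_pos' m) (by linarith)]
      ring
  simpa using h

/-- Weak continuity of Jacobian determinants on the square. -/
theorem tendsto_setIntegral_J2 {f : E2 → ℝ} {g h : ℕ → E2 → ℝ} {g' h' : E2 → ℝ}
    {A B K L : ℝ≥0} (hf : LipschitzWith L f) (hA : ∀ x, |f x| ≤ A)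
    (hg : ∀ k, LipschitzWith K (g k))
    (hh : ∀ k, LipschitzWith K (h k)) (hgB : ∀ k x, |g k x| ≤ B) (hhB : ∀ k x, |h k x| ≤ B)
    (tg : ∀ x, Tendsto (fun k => g k x) atTop (𝓝 (g' x)))
    (th : ∀ x, Tendsto (fun k => h k x) atTop (𝓝 (h' x))) :
    Tendsto (fun k => ∫ x in D, f x * J2 (g k) (h k) x) atTop
      (𝓝 (∫ x in D, f x * J2 g' h' x)) := by
  have hg' : LipschitzWith K g' := lipschitz_of_tendsto hg tg
  have hh' : LipschitzWith K h' := lipschitz_of_tendsto hh th
  set c : ℕ → ℝ := fun m => (A * (2 * K * K)) * ∫ x in D, (1 - cut (dl m) x) with hc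
  have hclim : Tendsto c atTop (𝓝 0) := by
    simpa using tendsto_integral_one_sub_cut.const_mul ((A : ℝ) * (2 * K * K))
  have est : ∀ (m : ℕ) {a b : E2 → ℝ}, LipschitzWith K a → LipschitzWith K b →
      |(∫ x in D, f x * J2 a b x) - ∫ x in D, (f x * cut (dl m) x) * J2 a b x| ≤ c m := by
    intro m a b ha hb
    have I1 : IntegrableOn (fun x => f x * J2 a b x) D := by
      apply integrable_of_bound (B := A * (2 * K * K))
      · exact hf.continuous.measurable.mul (measurable_J2 _ _)
      · intro x
        rw [abs_mul]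
        exact mul_le_mul (hA x) (abs_J2_le ha hb x) (abs_nonneg _) A.2
    have I2 : IntegrableOn (fun x => (f x * cut (dl m) x) * J2 a b x) D := by
      apply integrable_of_bound (B := A * (2 * K * K))
      · exact (hf.continuous.measurable.mul (continuous_cut (dl_pos m)).measurable).mul
          (measurable_J2 _ _)
      · intro x
        rw [abs_mul, abs_mul]
        have := abs_cut_le (dl m) x
        calc |f x| * |cut (dl m) x| * |J2 a b x| ≤ (A * 1) * (2 * K * K) := by
              gcongr
              · exact hA x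
              · simpa using this
              · exact abs_J2_le ha hb x
          _ = A * (2 * K * K) := by ring
    rw [← integral_sub I1 I2, hc]
    simp only
    rw [← integral_const_mul, ← Real.norm_eq_abs]
    apply norm_integral_le_of_norm_le
    · have := continuous_cut (dl_pos m)
      apply ContinuousOn.integrableOn_compact (isCompact_closedBall 0 1)
      exact (by fun_prop : Continuous fun x => (A : ℝ) * (2 * K * K) *
        (1 - cut (dl m) x)).continuousOn
    · filter_upwards with x
      have e : f x * J2 a b x - f x * cut (dl m) x * J2 a b x =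
        f x * J2 a b x * (1 - cut (dl m) x) := by ring
      rw [e, Real.norm_eq_abs, abs_mul, abs_mul,
        abs_of_nonneg (by linarith [cut_le_one (dl m) x] : 0 ≤ 1 - cut (dl m) x)]
      have h1 : 0 ≤ 1 - cut (dl m) x := by linarith [cut_le_one (dl m) x]
      gcongr
      · exact hA x
      · exact abs_J2_le ha hb x
  rw [Metric.tendsto_atTop]
  intro ε hε
  obtain ⟨m, hm⟩ := (hclim.eventually_lt_const (show (0 : ℝ) < ε / 3 by linarith)).exists
  have hF : LipschitzWith (A * (1 / dl m) + 1 * L) (fun x => f x * cut (dl m) x) :=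
    lipschitz_mul hf (lipschitz_cut (dl_pos m)) hA (abs_cut_le _)
  have hFA : ∀ x, |f x * cut (dl m) x| ≤ A := by
    intro x
    rw [abs_mul]
    calc |f x| * |cut (dl m) x| ≤ A * 1 := by
          gcongr
          · exact hA x
          · simpa using abs_cut_le (dl m) x
      _ = A := mul_one _
  have hF0 : ∀ x, x ∉ D → f x * cut (dl m) x = 0 := by
    intro x hx
    rw [cut_eq_zero (dl_pos' m) hx, mul_zero]
  have t1 := tendsto_setIntegral_J2_of_vanish hF hFA hF0 hg hh hgB hhB tg th
  rw [Metric.tendsto_atTop] at t1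
  obtain ⟨N, hN⟩ := t1 (ε / 3) (by linarith)
  refine ⟨N, fun k hk => ?_⟩
  have h1 := hN k hk
  have h2 := est m (hg k) (hh k)
  have h3 := est m hg' hh'
  rw [Real.dist_eq] at h1 ⊢
  rw [abs_lt] at h1 ⊢
  rw [abs_le] at h2 h3
  constructor <;> linarith [h1.1, h1.2, h2.1, h2.2, h3.1, h3.2]

/-- The radial projection onto the boundary of the square. -/
noncomputable def nu (x : E2) : E2 := ‖x‖⁻¹ • x

theorem nu_smul {c : ℝ} (hc : 0 < c) (x : E2) : nu (c • x) = nu x := by
  unfold nu
  rw [norm_smul, Real.norm_eq_abs, abs_of_pos hc, smul_smul, mul_inv, mul_comm c⁻¹, mul_assoc,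
    inv_mul_cancel₀ hc.ne', mul_one]

theorem measurable_nu : Measurable nu := by
  unfold nu
  fun_prop

theorem integral_annulus {G : E2 → ℝ} (hG : ∀ c : ℝ, 0 < c → ∀ x, G (c • x) = G x)
    (hi : IntegrableOn G D) {s : ℝ} (hs : 0 < s) (hs1 : s ≤ 1) :
    ∫ x in D \ Metric.closedBall 0 s, G x = (1 - s ^ 2) * ∫ x in D, G x := by
  have hsub : Metric.closedBall (0 : E2) s ⊆ D := Metric.closedBall_subset_closedBall hs1
  rw [setIntegral_sdiff measurableSet_closedBall hi hsub]
  have h1 := Measure.setIntegral_comp_smul volume G D hs.ne'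
  have h2 : s • D = Metric.closedBall (0 : E2) s := by
    unfold D
    rw [smul_closedBall _ _ zero_le_one, smul_zero, Real.norm_eq_abs, abs_of_pos hs, mul_one]
  rw [h2] at h1
  simp only [hG s hs] at h1
  have h3 : Module.finrank ℝ E2 = 2 := by simp [E2]
  rw [h3, abs_of_pos (by positivity), smul_eq_mul] at h1
  have h4 : ∫ x in Metric.closedBall (0 : E2) s, G x = s ^ 2 * ∫ x in D, G x := by
    rw [h1]
    field_simp
  rw [h4]
  ring

theorem norm_sub_nu {x : E2} (hx : x ≠ 0) : ‖x - nu x‖ = |‖x‖ - 1| := by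
  have h0 : ‖x‖ ≠ 0 := norm_ne_zero_iff.mpr hx
  have e : x - nu x = (1 - ‖x‖⁻¹) • x := by
    rw [sub_smul, one_smul]; rfl
  rw [e, norm_smul, Real.norm_eq_abs]
  have e2 : |1 - ‖x‖⁻¹| * ‖x‖ = |(1 - ‖x‖⁻¹) * ‖x‖| := by rw [abs_mul, abs_norm]
  rw [e2]
  congr 1
  field_simp

/-- The boundary estimate: `|∫_D J(f, h)| ≤ 4 Lip(h) ∫_D |f(x / ‖x‖)| dx`. -/
theorem abs_setIntegral_J2_le {f h : E2 → ℝ} {A K L : ℝ≥0} (hf : LipschitzWith K f)
    (hh : LipschitzWith L h) (hA : ∀ x, |f x| ≤ A) :
    |∫ x in D, J2 f h x| ≤ 4 * L * ∫ x in D, |f (nu x)| := by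
  have hfn : Measurable fun x => |f (nu x)| :=
    (hf.continuous.measurable.comp measurable_nu).abs
  have hfnI : IntegrableOn (fun x => |f (nu x)|) D := by
    apply integrable_of_bound hfn (B := A)
    intro x
    rw [abs_abs]
    exact hA _
  have step : ∀ m : ℕ, 1 ≤ m →
      |∫ x in D, J2 f h x| ≤ 4 * L * (∫ x in D, |f (nu x)|) + 32 * K * L * dl m := by
    intro m hm
    set δ : ℝ≥0 := dl m with hδ
    have hδ0 : (0 : ℝ) < δ := dl_pos' m
    have hδ1 : (δ : ℝ) < 1 := by
      rw [hδ]
      have : dl m < 1 := by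
        unfold dl
        rw [div_lt_one (by positivity)]
        have : (0 : ℝ≥0) < m := by exact_mod_cast hm
        exact lt_add_of_pos_left 1 this
      exact_mod_cast this
    have hcut := lipschitz_cut (dl_pos m)
    have hF : LipschitzWith (A * (1 / δ) + 1 * K) (fun x => f x * cut δ x) :=
      lipschitz_mul hf hcut hA (abs_cut_le _)
    have z : ∫ x in D, J2 (fun x => f x * cut δ x) h x = 0 := by
      rw [setIntegral_eq_integral_of_forall_compl_eq_zero]
      · apply integral_J2_eq_zero hF hh
        intro x hx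
        rw [cut_eq_zero hδ0 hx, mul_zero]
      · intro x hx
        apply J2_eq_zero_of_notMem _ _ hx
        intro y hy
        rw [cut_eq_zero hδ0 hy, mul_zero]
    have I1 : IntegrableOn (fun x => J2 f h x) D :=
      integrable_of_bound (measurable_J2 _ _) (abs_J2_le hf hh)
    have I2 : IntegrableOn (fun x => J2 (fun x => f x * cut δ x) h x) D :=
      integrable_of_bound (measurable_J2 _ _) (abs_J2_le hF hh)
    have e1 : ∫ x in D, J2 f h x = ∫ x in D, (J2 f h x - J2 (fun x => f x * cut δ x) h x) := by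
      rw [integral_sub I1 I2, z, sub_zero]
    set G : E2 → ℝ := fun x => 4 * K * L + (2 * L / δ) * |f (nu x)| with hG
    have hGI : IntegrableOn G D := by
      apply Integrable.add
      · exact integrableOn_const (measure_closedBall_lt_top.ne)
      · exact hfnI.const_mul _
    have hs0 : 0 < 1 - (δ : ℝ) := by linarith
    have hann : ∫ x in D \ Metric.closedBall 0 (1 - (δ : ℝ)), G x
        = (1 - (1 - (δ : ℝ)) ^ 2) * ∫ x in D, G x := by
      apply integral_annulus _ hGI hs0 (by linarith)
      intro c hc x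
      simp only [hG, nu_smul hc]
    have hsph : ∀ᵐ x : E2, x ∉ Metric.sphere (0 : E2) (1 - (δ : ℝ)) := by
      rw [ae_iff]
      simp only [not_not, ofPred_mem_eq]
      exact Measure.addHaar_sphere_of_ne_zero _ _ hs0.ne'
    have hb : |∫ x in D, J2 f h x| ≤ ∫ x in D \ Metric.closedBall 0 (1 - (δ : ℝ)), G x := by
      rw [e1, ← Real.norm_eq_abs]
      have e2 : ∫ x in D \ Metric.closedBall 0 (1 - (δ : ℝ)), G x =
          ∫ x in D, indicator (Metric.closedBall 0 (1 - (δ : ℝ)))ᶜ G x := by
        rw [setIntegral_indicator measurableSet_closedBall.compl]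
        rfl
      rw [e2]
      apply norm_integral_le_of_norm_le
      · exact hGI.indicator measurableSet_closedBall.compl
      · filter_upwards [ae_restrict_of_ae hsph, ae_restrict_of_ae hf.ae_differentiableAt,
          ae_restrict_of_ae hcut.ae_differentiableAt, ae_restrict_mem measurableSet_D]
          with x h1 h2 h3 h4
        rw [J2_mul h2 h3]
        have hx1 : ‖x‖ ≤ 1 := by simpa [D] using h4
        have hx2 : ‖x‖ ≠ 1 - δ := by simpa using h1
        by_cases hx : ‖x‖ < 1 - δ
        · have hx' : x ∈ Metric.closedBall (0 : E2) (1 - (δ : ℝ)) := by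
            simpa using hx.le
          rw [indicator_of_notMem (by simpa using hx.le)]
          have e : cut δ =ᶠ[𝓝 x] fun _ => 1 := by
            have ho : IsOpen {y : E2 | ‖y‖ < 1 - δ} := isOpen_lt continuous_norm continuous_const
            filter_upwards [ho.mem_nhds hx] with y hy
            exact cut_eq_one hδ0 (le_of_lt hy)
          have e3 : J2 (cut δ) h x = 0 := by
            unfold J2
            rw [dd_eq_of_eventuallyEq e, dd_eq_of_eventuallyEq e, dd_const, dd_const]
            ring
          rw [e3, cut_eq_one hδ0 hx.le]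
          simp
        · have hx3 : 1 - (δ : ℝ) < ‖x‖ := lt_of_le_of_ne (not_lt.mp hx) (Ne.symm hx2)
          rw [indicator_of_mem (by simpa using hx3)]
          have hx0 : x ≠ 0 := by
            intro h
            rw [h, norm_zero] at hx3
            linarith
          have b1 : |f x| ≤ |f (nu x)| + K * δ := by
            have := hf.dist_le_mul x (nu x)
            rw [Real.dist_eq, dist_eq_norm, norm_sub_nu hx0] at this
            have h5 : |‖x‖ - 1| ≤ δ := by
              rw [abs_le]; constructor <;> linarith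
            have h6 : |f x| ≤ |f (nu x)| + |f x - f (nu x)| := by
              have := abs_add_le (f (nu x)) (f x - f (nu x))
              rwa [add_sub_cancel] at this
            have h7 : (K : ℝ) * |‖x‖ - 1| ≤ K * δ := by gcongr
            linarith
          have b2 := abs_J2_le hf hh x
          have b3 := abs_J2_le hcut hh x
          have b4 := cut_nonneg δ x
          have b5 := cut_le_one δ x
          have e4 : J2 f h x - (f x * J2 (cut δ) h x + cut δ x * J2 f h x) =
            (1 - cut δ x) * J2 f h x - f x * J2 (cut δ) h x := by ring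
          rw [e4, Real.norm_eq_abs]
          refine (abs_sub _ _).trans ?_
          rw [abs_mul, abs_mul, abs_of_nonneg (by linarith : 0 ≤ 1 - cut δ x)]
          have c1 : (1 - cut δ x) * |J2 f h x| ≤ 1 * (2 * K * L) := by
            apply mul_le_mul (by linarith) b2 (abs_nonneg _) zero_le_one
          have c2 : |f x| * |J2 (cut δ) h x| ≤ (|f (nu x)| + K * δ) * (2 * (1 / δ) * L) := by
            refine mul_le_mul b1 ?_ (abs_nonneg _) (by positivity)
            simpa using b3
          have c3 : (|f (nu x)| + K * δ) * (2 * (1 / δ) * L) =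
              (2 * L / δ) * |f (nu x)| + 2 * K * L := by
            field_simp
          simp only [hG]
          linarith
    have hGint : ∫ x in D, G x = 16 * K * L + (2 * L / δ) * ∫ x in D, |f (nu x)| := by
      have Ic : IntegrableOn (fun _ : E2 => 4 * (K : ℝ) * L) D :=
        integrableOn_const (measure_closedBall_lt_top.ne)
      have Id : IntegrableOn (fun x : E2 => (2 * (L : ℝ) / δ) * |f (nu x)|) D :=
        hfnI.const_mul _
      have e5 : ∫ x in D, (2 * (L : ℝ) / δ) * |f (nu x)| =
          (2 * (L : ℝ) / δ) * ∫ x in D, |f (nu x)| := integral_const_mul _ _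
      rw [hG, integral_add Ic Id, e5, setIntegral_const]
      have hv : volume.real D = 4 := by
        rw [Measure.real, D, Real.volume_pi_closedBall _ zero_le_one]
        norm_num
      rw [hv, smul_eq_mul]
      ring
    rw [hann, hGint] at hb
    have hpos : 0 ≤ ∫ x in D, |f (nu x)| := integral_nonneg fun x => abs_nonneg _
    have h1 : (1 - (1 - (δ : ℝ)) ^ 2) ≤ 2 * δ := by nlinarith [sq_nonneg (δ : ℝ)]
    calc |∫ x in D, J2 f h x| ≤ _ := hb
      _ ≤ (2 * δ) * (16 * K * L + (2 * L / δ) * ∫ x in D, |f (nu x)|) := by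
          gcongr
      _ = 4 * L * (∫ x in D, |f (nu x)|) + 32 * K * L * δ := by
          field_simp
          ring
  have lim : Tendsto (fun m => 4 * L * (∫ x in D, |f (nu x)|) + 32 * K * L * dl m) atTop
      (𝓝 (4 * L * (∫ x in D, |f (nu x)|) + 32 * K * L * 0)) :=
    (tendsto_dl.const_mul _).const_add _
  rw [mul_zero, add_zero] at lim
  exact ge_of_tendsto lim (eventually_atTop.mpr ⟨1, step⟩)

end Pool.Agent.helper71.LVR
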