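import Pool.Agent.helper71.LVR.Plane2

/-!
# A Lipschitz function vanishing on the diagonal with large gradient almost everywhere
-/

open MeasureTheory Set Filter Topology
open scoped ENNReal NNReal

namespace Pool.Agent.helper71.LVR

theorem volume_line (ℓ : E2 →ₗ[ℝ] ℝ) (hℓ : ℓ ≠ 0) (c : ℝ) :
    volume {y : E2 | ℓ y = c} = 0 := by
  have hk : volume ((LinearMap.ker ℓ : Submodule ℝ E2) : Set E2) = 0 := by
    apply Measure.addHaar_submodule
    rw [Ne, LinearMap.ker_eq_top]
    exact hℓ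
  by_cases h : ∃ p, ℓ p = c
  · obtain ⟨p, hp⟩ := h
    have e : {y : E2 | ℓ y = c} = (fun y => y + (-p)) ⁻¹' (LinearMap.ker ℓ : Submodule ℝ E2) := by
      ext y
      simp only [mem_ofPred_eq, mem_preimage, SetLike.mem_coe, LinearMap.mem_ker, map_add,
        map_neg, hp]
      constructor <;> intro h <;> linarith
    rw [e, measure_preimage_add_right, hk]
  · have e : {y : E2 | ℓ y = c} = ∅ := by
      ext y
      simp only [mem_ofPred_eq, mem_empty_iff_false, iff_false]
      exact fun hy => h ⟨y, hy⟩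
    rw [e, measure_empty]

theorem volume_coord (i : Fin 2) (c : ℝ) : volume {y : E2 | y i = c} = 0 := by
  refine volume_line (LinearMap.proj i) ?_ c
  intro h
  have := congrArg (fun ℓ : E2 →ₗ[ℝ] ℝ => ℓ (ee i)) h
  simp [ee] at this

theorem volume_diag (c : ℝ) : volume {y : E2 | y 0 - y 1 = c} = 0 := by
  refine volume_line ((LinearMap.proj 0 : E2 →ₗ[ℝ] ℝ) - (LinearMap.proj 1 : E2 →ₗ[ℝ] ℝ)) ?_ c
  intro h
  have := congrArg (fun ℓ : E2 →ₗ[ℝ] ℝ => ℓ (ee 0)) h
  simp [ee] at this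

theorem volume_antidiag (c : ℝ) : volume {y : E2 | y 0 + y 1 = c} = 0 := by
  refine volume_line ((LinearMap.proj 0 : E2 →ₗ[ℝ] ℝ) + (LinearMap.proj 1 : E2 →ₗ[ℝ] ℝ)) ?_ c
  intro h
  have := congrArg (fun ℓ : E2 →ₗ[ℝ] ℝ => ℓ (ee 0)) h
  simp [ee] at this

/-- The open square minus the diagonal. -/
def UU : Set E2 := {x | ‖x‖ < 1 ∧ x 0 ≠ x 1}

theorem isOpen_UU : IsOpen UU := by
  apply (isOpen_lt continuous_norm continuous_const).inter
  exact isOpen_ne_fun (continuous_apply 0) (continuous_apply 1)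

theorem exists_cover : ∃ (t : Set E2) (r : E2 → ℝ), t.Countable ∧ t ⊆ UU ∧
    (∀ x ∈ t, 0 < r x ∧ r x < Metric.infDist x UUᶜ) ∧
    volume (UU \ ⋃ x ∈ t, Metric.closedBall x (r x)) = 0 ∧
    t.PairwiseDisjoint fun x => Metric.closedBall x (r x) := by
  have hne : (UUᶜ).Nonempty := ⟨0, by simp [UU]⟩
  obtain ⟨t, r, h1, h2, h3, h4, h5⟩ := Besicovitch.exists_disjoint_closedBall_covering_ae
    (volume : Measure E2) (fun _ => univ) UU
    (fun x _ δ hδ => ⟨δ / 2, mem_univ _, by constructor <;> linarith⟩)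
    (fun x => Metric.infDist x UUᶜ)
    (fun x hx => (isOpen_UU.isClosed_compl.notMem_iff_infDist_pos hne).1 (by simpa using hx))
  exact ⟨t, r, h1, h2, fun x hx => (h3 x hx).2, h4, h5⟩

/-- Centers of the balls. -/
noncomputable def tt : Set E2 := exists_cover.choose

/-- Radii of the balls. -/
noncomputable def rr : E2 → ℝ := exists_cover.choose_spec.choose

theorem tt_countable : tt.Countable := exists_cover.choose_spec.choose_spec.1

theorem tt_subset : tt ⊆ UU := exists_cover.choose_spec.choose_spec.2.1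

theorem rr_pos {x : E2} (hx : x ∈ tt) : 0 < rr x :=
  (exists_cover.choose_spec.choose_spec.2.2.1 x hx).1

theorem rr_lt {x : E2} (hx : x ∈ tt) : rr x < Metric.infDist x UUᶜ :=
  (exists_cover.choose_spec.choose_spec.2.2.1 x hx).2

theorem tt_ae : volume (UU \ ⋃ x ∈ tt, Metric.closedBall x (rr x)) = 0 :=
  exists_cover.choose_spec.choose_spec.2.2.2.1

theorem tt_disj : tt.PairwiseDisjoint fun x => Metric.closedBall x (rr x) :=
  exists_cover.choose_spec.choose_spec.2.2.2.2

/-- The union of the open balls. -/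
noncomputable def GG : Set E2 := ⋃ x ∈ tt, Metric.ball x (rr x)

theorem GG_subset : GG ⊆ UU := by
  intro y hy
  simp only [GG, mem_iUnion] at hy
  obtain ⟨x, hx, hy⟩ := hy
  exact Metric.ball_infDist_compl_subset (Metric.ball_subset_ball (rr_lt hx).le hy)

/-- The wild function: `3/4` times the (sup norm) distance to the complement of the balls. -/
noncomputable def FF (y : E2) : ℝ := 3 / 4 * Metric.infDist y GGᶜ

theorem FF_lipschitz (x y : E2) : |FF x - FF y| ≤ 3 / 4 * ‖x - y‖ := by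
  have h := (Metric.lipschitz_infDist_pt (GGᶜ)).dist_le_mul x y
  rw [Real.dist_eq, dist_eq_norm, NNReal.coe_one, one_mul] at h
  unfold FF
  rw [← mul_sub, abs_mul, abs_of_pos (by norm_num : (0 : ℝ) < 3 / 4)]
  linarith

theorem FF_eq_zero_of_notMem {y : E2} (hy : y ∉ GG) : FF y = 0 := by
  unfold FF
  rw [Metric.infDist_zero_of_mem (by simpa using hy), mul_zero]

theorem FF_diag {y : E2} (hy : y 0 = y 1) : FF y = 0 :=
  FF_eq_zero_of_notMem fun h => (GG_subset h).2 hy

/-- The formula for `FF` in each of the balls. -/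
theorem FF_ball {x : E2} (hx : x ∈ tt) {y : E2} (hy : y ∈ Metric.ball x (rr x)) :
    FF y = 3 / 4 * (rr x - ‖y - x‖) := by
  have hr := rr_pos hx
  have hne : (GGᶜ : Set E2).Nonempty := ⟨0, fun h => (GG_subset h).2 rfl⟩
  unfold FF
  congr 1
  rw [← dist_eq_norm]
  apply le_antisymm
  · -- a unit vector in the direction of `y - x`
    obtain ⟨e, he1, he2⟩ : ∃ e : E2, ‖e‖ = 1 ∧ y - x = ‖y - x‖ • e := by
      by_cases h : y - x = 0
      · exact ⟨ee 0, norm_ee 0, by rw [h]; simp⟩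
      · have h0 : ‖y - x‖ ≠ 0 := norm_ne_zero_iff.mpr h
        refine ⟨‖y - x‖⁻¹ • (y - x), ?_, ?_⟩
        · rw [norm_smul, norm_inv, norm_norm, inv_mul_cancel₀ h0]
        · rw [smul_smul, mul_inv_cancel₀ h0, one_smul]
    have hz : x + rr x • e ∈ GGᶜ := by
      intro hz
      simp only [GG, mem_iUnion] at hz
      obtain ⟨x', hx', hz⟩ := hz
      by_cases hxx : x' = x
      · subst hxx
        rw [Metric.mem_ball, dist_eq_norm, add_sub_cancel_left, norm_smul, he1, mul_one,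
          Real.norm_eq_abs, abs_of_pos hr] at hz
        exact lt_irrefl _ hz
      · have h1 := tt_disj hx' hx hxx
        refine Set.disjoint_left.mp h1 (Metric.ball_subset_closedBall hz) ?_
        rw [Metric.mem_closedBall, dist_eq_norm, add_sub_cancel_left, norm_smul, he1, mul_one,
          Real.norm_eq_abs, abs_of_pos hr]
    refine (Metric.infDist_le_dist_of_mem hz).trans (le_of_eq ?_)
    rw [dist_eq_norm]
    have e1 : y - (x + rr x • e) = (‖y - x‖ - rr x) • e := by
      rw [sub_smul, ← he2]; abel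
    rw [e1, norm_smul, he1, mul_one, Real.norm_eq_abs, dist_eq_norm, abs_sub_comm,
      abs_of_nonneg]
    have : ‖y - x‖ < rr x := by rwa [Metric.mem_ball, dist_eq_norm] at hy
    linarith
  · rw [Metric.le_infDist hne]
    intro z hz
    have h1 : rr x ≤ dist z x := by
      by_contra hcon
      apply hz
      simp only [GG, mem_iUnion]
      exact ⟨x, hx, by rw [Metric.mem_ball]; exact not_le.mp hcon⟩
    have h2 := dist_triangle z y x
    rw [dist_comm z y] at h2
    linarith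

/-- Points around which `FF` is affine, with slope `± 3/4` in one of the coordinates. -/
def TT (i : Fin 2) (s : ℝ) : Set E2 :=
  {y | ∀ᶠ z in 𝓝 y, FF z = FF y + s * (3 / 4) * (z i - y i)}

theorem isOpen_TT (i : Fin 2) (s : ℝ) : IsOpen (TT i s) := by
  rw [isOpen_iff_mem_nhds]
  intro y hy
  have hy' : ∀ᶠ z in 𝓝 y, FF z = FF y + s * (3 / 4) * (z i - y i) := hy
  have h1 := hy'.eventually_nhds
  filter_upwards [h1, hy'] with z hz hz'
  show ∀ᶠ w in 𝓝 z, FF w = FF z + s * (3 / 4) * (w i - z i)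
  filter_upwards [hz] with w hw
  rw [hw, hz']
  ring

theorem dd_FF {i : Fin 2} {s : ℝ} {y : E2} (hy : y ∈ TT i s) (j : Fin 2) :
    dd j FF y = if j = i then s * (3 / 4) else 0 := by
  have e : FF =ᶠ[𝓝 y] fun z => FF y + s * (3 / 4) * (z i - y i) := hy
  rw [dd_eq_of_eventuallyEq e]
  unfold dd
  have h1 : HasFDerivAt (fun z : E2 => z i) (ContinuousLinearMap.proj i : E2 →L[ℝ] ℝ) y :=
    hasFDerivAt_apply i y
  have h2 : HasFDerivAt (fun z : E2 => FF y + s * (3 / 4) * (z i - y i))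
      ((s * (3 / 4)) • (ContinuousLinearMap.proj i : E2 →L[ℝ] ℝ)) y :=
    ((h1.sub_const (y i)).const_mul (s * (3 / 4))).const_add (FF y)
  rw [h2.fderiv]
  show (s * (3 / 4)) * (ee j i) = _
  rw [ee, Pi.single_apply]
  by_cases h : i = j
  · subst h; simp
  · simp [h, Ne.symm h]

theorem norm_eq_max (v : E2) : ‖v‖ = max |v 0| |v 1| := by
  apply le_antisymm
  · rw [pi_norm_le_iff_of_nonneg (by positivity)]
    intro i
    fin_cases i
    · exact le_max_left _ _
    · exact le_max_right _ _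
  · exact max_le (by simpa using norm_le_pi_norm v 0) (by simpa using norm_le_pi_norm v 1)

/-- Almost every point of the square lies in one of the sets `TT i s`. -/
theorem ae_mem_TT : ∀ᵐ y ∂(volume.restrict D), ∃ (i : Fin 2) (s : ℝ),
    (s = 1 ∨ s = -1) ∧ y ∈ TT i s := by
  have n1 : ∀ᵐ y : E2, y 0 ≠ y 1 := by
    rw [ae_iff]
    have := volume_diag 0
    simpa [sub_eq_zero] using this
  have n2 : ∀ᵐ y : E2, y ∉ UU \ ⋃ x ∈ tt, Metric.closedBall x (rr x) := by
    rw [ae_iff]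
    simp only [not_not, ofPred_mem_eq]
    exact tt_ae
  have n3 : ∀ᵐ y : E2, ∀ x ∈ tt, y ∉ Metric.sphere x (rr x) ∧ y 0 ≠ x 0 ∧ y 1 ≠ x 1 ∧
      y 0 - y 1 ≠ x 0 - x 1 ∧ y 0 + y 1 ≠ x 0 + x 1 := by
    rw [ae_ball_iff tt_countable]
    intro x hx
    have a1 : ∀ᵐ y : E2, y ∉ Metric.sphere x (rr x) := by
      rw [ae_iff]
      simp only [not_not, ofPred_mem_eq]
      exact Measure.addHaar_sphere_of_ne_zero _ _ (rr_pos hx).ne'
    have a2 : ∀ᵐ y : E2, y 0 ≠ x 0 := by
      rw [ae_iff]; simpa using volume_coord 0 (x 0)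
    have a3 : ∀ᵐ y : E2, y 1 ≠ x 1 := by
      rw [ae_iff]; simpa using volume_coord 1 (x 1)
    have a4 : ∀ᵐ y : E2, y 0 - y 1 ≠ x 0 - x 1 := by
      rw [ae_iff]; simpa using volume_diag (x 0 - x 1)
    have a5 : ∀ᵐ y : E2, y 0 + y 1 ≠ x 0 + x 1 := by
      rw [ae_iff]; simpa using volume_antidiag (x 0 + x 1)
    filter_upwards [a1, a2, a3, a4, a5] with y b1 b2 b3 b4 b5
    exact ⟨b1, b2, b3, b4, b5⟩
  filter_upwards [ae_restrict_of_ae n1, ae_restrict_of_ae n2, ae_restrict_of_ae n3,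
    ae_norm_lt_one] with y h1 h2 h3 h4
  have hU : y ∈ UU := ⟨h4, h1⟩
  have hmem : y ∈ ⋃ x ∈ tt, Metric.closedBall x (rr x) := by
    by_contra hcon
    exact h2 ⟨hU, hcon⟩
  simp only [mem_iUnion] at hmem
  obtain ⟨x, hx, hy⟩ := hmem
  obtain ⟨c1, c2, c3, c4, c5⟩ := h3 x hx
  have hb : y ∈ Metric.ball x (rr x) := by
    rw [Metric.mem_ball]
    exact lt_of_le_of_ne hy (fun h => c1 h)
  have hnb : ∀ᶠ z in 𝓝 y, z ∈ Metric.ball x (rr x) := Metric.isOpen_ball.mem_nhds hb
  -- key: local formula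
  have key : ∀ (i j : Fin 2), (∀ v : E2, ‖v‖ = max |v i| |v j|) → |y j - x j| < |y i - x i| →
      y i ≠ x i → ∃ s : ℝ, (s = 1 ∨ s = -1) ∧ y ∈ TT i s := by
    intro i j hnorm hij hi
    have e1 : ∀ᶠ z in 𝓝 y, |z j - x j| < |z i - x i| := by
      have ho : IsOpen {z : E2 | |z j - x j| < |z i - x i|} := by
        apply isOpen_lt <;> fun_prop
      exact ho.mem_nhds hij
    have loc : ∀ᶠ z in 𝓝 y, FF z = 3 / 4 * (rr x - |z i - x i|) := by
      filter_upwards [e1, hnb] with z hz hzb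
      rw [FF_ball hx hzb, hnorm (z - x), max_eq_left]
      · rfl
      · exact le_of_lt hz
    rcases lt_or_gt_of_ne hi with hlt | hgt
    · refine ⟨1, Or.inl rfl, ?_⟩
      have e2 : ∀ᶠ z in 𝓝 y, z i < x i :=
        (isOpen_lt (continuous_apply i) continuous_const).mem_nhds hlt
      show ∀ᶠ z in 𝓝 y, FF z = FF y + 1 * (3 / 4) * (z i - y i)
      filter_upwards [loc, e2] with z hz hz2
      rw [hz, loc.self_of_nhds, abs_of_neg (by linarith), abs_of_neg (by linarith)]
      ring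
    · refine ⟨-1, Or.inr rfl, ?_⟩
      have e2 : ∀ᶠ z in 𝓝 y, x i < z i :=
        (isOpen_lt continuous_const (continuous_apply i)).mem_nhds hgt
      show ∀ᶠ z in 𝓝 y, FF z = FF y + (-1) * (3 / 4) * (z i - y i)
      filter_upwards [loc, e2] with z hz hz2
      rw [hz, loc.self_of_nhds, abs_of_pos (by linarith), abs_of_pos (by linarith)]
      ring
  have hne : |y 0 - x 0| ≠ |y 1 - x 1| := by
    intro h
    rcases abs_eq_abs.mp h with h | h
    · apply c4; linarith
    · apply c5; linarith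
  rcases lt_or_gt_of_ne hne with h | h
  · obtain ⟨s, hs, hs2⟩ := key 1 0 (fun v => by rw [norm_eq_max, max_comm]) h c3
    exact ⟨1, s, hs, hs2⟩
  · obtain ⟨s, hs, hs2⟩ := key 0 1 norm_eq_max h c2
    exact ⟨0, s, hs, hs2⟩

end Pool.Agent.helper71.LVR
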