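import Pool.Agent.helper71.LVR.Chart2

/-!
# The integral current space `X`
-/

open MeasureTheory Set Filter Topology
open scoped ENNReal NNReal

namespace Pool.Agent.helper71.LVR

/-- The function `ψ`. -/
noncomputable def psi (x : E2) : ℝ := max 0 (3 / 4 - 3 / 4 * (|x 0| + |x 1|))

theorem abs_psi_sub_le (x y : E2) :
    |psi x - psi y| ≤ 3 / 4 * (|x 0 - y 0| + |x 1 - y 1|) := by
  unfold psi
  rw [max_comm 0, max_comm 0]
  refine (abs_max_sub_max_le_abs _ _ 0).trans ?_
  have e : 3 / 4 - 3 / 4 * (|x 0| + |x 1|) - (3 / 4 - 3 / 4 * (|y 0| + |y 1|)) =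
    3 / 4 * ((|y 0| - |x 0|) + (|y 1| - |x 1|)) := by ring
  rw [e, abs_mul, abs_of_pos (by norm_num : (0 : ℝ) < 3 / 4)]
  have h0 := abs_abs_sub_abs_le_abs_sub (y 0) (x 0)
  have h1 := abs_abs_sub_abs_le_abs_sub (y 1) (x 1)
  rw [abs_sub_comm (y 0)] at h0
  rw [abs_sub_comm (y 1)] at h1
  have h2 := abs_add_le (|y 0| - |x 0|) (|y 1| - |x 1|)
  linarith

/-- The distance of `X`. -/
noncomputable def edX (x y : E2) : ℝ≥0∞ :=
  max (intrinsicEDist YY (PP x) (PP y)) (edist (psi x) (psi y))

/-- The square, to be endowed with the distance `max (d_Y, |ψ - ψ|)`. -/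
def XS : Type := {x : E2 // x ∈ D}

theorem edX_self {x : E2} (hx : x ∈ D) : edX x x = 0 := by
  have h : PP x ∈ YY := ⟨x, hx, rfl⟩
  unfold edX
  rw [intrinsicEDist_self h, edist_self, max_self]

theorem edX_comm (x y : E2) : edX x y = edX y x := by
  unfold edX
  rw [edist_comm (psi x), le_antisymm (intrinsicEDist_comm_le YY (PP x) (PP y))
    (intrinsicEDist_comm_le YY (PP y) (PP x))]

theorem edX_triangle (x y z : E2) : edX x z ≤ edX x y + edX y z := by
  unfold edX
  apply max_le
  · exact (intrinsicEDist_triangle _ _ _ _).trans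
      (add_le_add (le_max_left _ _) (le_max_left _ _))
  · exact (edist_triangle _ _ _).trans (add_le_add (le_max_right _ _) (le_max_right _ _))

theorem edX_ne_top {x y : E2} (hx : x ∈ D) (hy : y ∈ D) : edX x y ≠ ⊤ := by
  unfold edX
  rw [ne_eq, max_eq_top, not_or]
  constructor
  · refine ((intrinsic_le hx hy).trans_lt ?_).ne
    exact ENNReal.mul_lt_top (by simp) (edist_lt_top x y)
  · exact edist_ne_top _ _

/-- The extended metric of `X`. -/
@[reducible] noncomputable def emX : EMetricSpace XS where
  edist p q := edX p.1 q.1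
  edist_self p := edX_self p.2
  edist_comm p q := edX_comm _ _
  edist_triangle p q r := edX_triangle _ _ _
  eq_of_edist_eq_zero := by
    intro p q h
    apply Subtype.ext
    have h1 : edist (PP p.1) (PP q.1) = 0 := by
      refine le_antisymm ?_ zero_le
      exact ((edist_le_intrinsicEDist YY _ _).trans (le_max_left _ _)).trans (le_of_eq h)
    have h2 : PP p.1 = PP q.1 := eq_of_edist_eq_zero h1
    have h3 := le_dist_PP p.1 q.1
    rw [h2, dist_self] at h3
    exact sub_eq_zero.mp (norm_le_zero_iff.mp h3)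

noncomputable instance : MetricSpace XS :=
  @EMetricSpace.toMetricSpace XS emX fun p q => edX_ne_top p.2 q.2

theorem edist_XS (p q : XS) : edist p q = edX p.1 q.1 := rfl

/-- The map from the plane to `X`. -/
noncomputable def toX (x : E2) : XS := ⟨cl x, cl_mem x⟩

/-- The parametrisation of the completion of `X`. -/
noncomputable def eX (x : E2) : UniformSpace.Completion XS := (toX x : UniformSpace.Completion XS)

theorem edist_eX (x y : E2) : edist (eX x) (eX y) = edX (cl x) (cl y) := by
  unfold eX
  rw [UniformSpace.Completion.coe_isometry.edist_eq]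
  rfl

theorem lipschitz_eX : LipschitzWith 2 eX := by
  intro x y
  rw [edist_eX]
  have hcl := lipschitz_cl x y
  rw [ENNReal.coe_one, one_mul] at hcl
  unfold edX
  apply max_le
  · refine (intrinsic_le (cl_mem x) (cl_mem y)).trans ?_
    calc 2 * edist (cl x) (cl y) ≤ 2 * edist x y := by gcongr
      _ = _ := rfl
  · have h1 : edist (psi (cl x)) (psi (cl y)) ≤ 2 * edist (cl x) (cl y) := by
      rw [edist_dist, edist_dist, show (2 : ℝ≥0∞) = ENNReal.ofReal 2 by simp,
        ← ENNReal.ofReal_mul (by norm_num)]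
      apply ENNReal.ofReal_le_ofReal
      rw [Real.dist_eq, dist_eq_norm]
      refine (abs_psi_sub_le _ _).trans ?_
      have h0 := abs_coord_le (cl x - cl y) 0
      have h1 := abs_coord_le (cl x - cl y) 1
      simp only [Pi.sub_apply] at h0 h1
      linarith [norm_nonneg (cl x - cl y)]
    refine h1.trans ?_
    calc 2 * edist (cl x) (cl y) ≤ 2 * edist x y := by gcongr
      _ = _ := rfl

theorem continuous_toX : Continuous toX := by
  have h : LipschitzWith 2 toX := by
    intro x y
    have := lipschitz_eX x y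
    unfold eX at this
    rwa [UniformSpace.Completion.coe_isometry.edist_eq] at this
  exact h.continuous

theorem coe_surjective : Function.Surjective ((↑) : XS → UniformSpace.Completion XS) := by
  have hc : IsCompact (Set.range ((↑) : XS → UniformSpace.Completion XS)) := by
    have h1 : Set.range ((↑) : XS → UniformSpace.Completion XS) = eX '' D := by
      ext z
      constructor
      · rintro ⟨⟨x, hx⟩, rfl⟩
        refine ⟨x, hx, ?_⟩
        unfold eX toX
        congr 1
        exact Subtype.ext (cl_of_mem hx)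
      · rintro ⟨x, _, rfl⟩
        exact ⟨toX x, rfl⟩
    rw [h1]
    exact (isCompact_closedBall (0 : E2) 1).image lipschitz_eX.continuous
  have hd : DenseRange ((↑) : XS → UniformSpace.Completion XS) :=
    UniformSpace.Completion.denseRange_coe
  have : Set.range ((↑) : XS → UniformSpace.Completion XS) = univ := by
    rw [← hc.isClosed.closure_eq]
    exact hd.closure_range
  exact Set.range_eq_univ.mp this

/-- `|ψ - ψ|` is locally bounded by the Euclidean distance near points of `TT i s`. -/
theorem psi_local {i : Fin 2} {s : ℝ} (hs : s ^ 2 = 1) {x : E2} (hx : x ∈ TT i s) :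
    ∀ᶠ z in 𝓝 x, edist (psi z) (psi x) ≤ edist (PP z) (PP x) := by
  have hx' : ∀ᶠ z in 𝓝 x, FF z = FF x + s * (3 / 4) * (z i - x i) := hx
  filter_upwards [hx'] with z hz
  rw [edist_dist, edist_dist]
  apply ENNReal.ofReal_le_ofReal
  rw [Real.dist_eq]
  refine (abs_psi_sub_le z x).trans ?_
  apply le_of_sq_le_sq _ dist_nonneg
  rw [dist_PP_sq, hz]
  have e : (FF x + s * (3 / 4) * (z i - x i) - FF x) ^ 2 = 9 / 16 * (z i - x i) ^ 2 := by
    have : (FF x + s * (3 / 4) * (z i - x i) - FF x) ^ 2 =
      s ^ 2 * (9 / 16 * (z i - x i) ^ 2) := by ring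
    rw [this, hs, one_mul]
  rw [e, ← sq_abs (z 0 - x 0), ← sq_abs (z 1 - x 1), ← sq_abs (z i - x i)]
  set u := |z 0 - x 0|
  set v := |z 1 - x 1|
  fin_cases i
  · show _ ≤ u ^ 2 + v ^ 2 + 9 / 16 * u ^ 2
    nlinarith [sq_nonneg (16 * u - 9 * v), sq_nonneg u, sq_nonneg v, sq_nonneg (u - v)]
  · show _ ≤ u ^ 2 + v ^ 2 + 9 / 16 * v ^ 2
    nlinarith [sq_nonneg (16 * v - 9 * u), sq_nonneg u, sq_nonneg v, sq_nonneg (u - v)]

theorem isModel_eX : IsModel eX where
  lip := lipschitz_eX
  surj := by
    intro z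
    obtain ⟨⟨x, hx⟩, rfl⟩ := coe_surjective z
    refine ⟨x, hx, ?_⟩
    unfold eX toX
    congr 1
    exact Subtype.ext (cl_of_mem hx)
  lower := by
    intro x hx y hy
    rw [edist_eX, cl_of_mem hx, cl_of_mem hy]
    exact (edist_le_intrinsicEDist _ _ _).trans (le_max_left _ _)
  loc := by
    filter_upwards [ae_mem_TT, ae_norm_lt_one] with x ⟨i, s, hs, hT⟩ hx
    have hs2 : s ^ 2 = 1 := by
      rcases hs with h | h <;> rw [h] <;> norm_num
    filter_upwards [intrinsic_le_local hT hx, psi_local hs2 hT,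
      (isOpen_lt continuous_norm continuous_const).mem_nhds hx] with y hy1 hy2 hy3
    have hxD : x ∈ D := by simpa [D] using hx.le
    have hyD : y ∈ D := by simpa [D] using le_of_lt hy3
    rw [edist_eX, cl_of_mem hxD, cl_of_mem hyD]
    unfold edX
    apply max_le _ hy2
    refine (intrinsicEDist_comm_le _ _ _).trans ?_
    rw [edist_comm (PP y)]
    exact hy1

theorem eX_cl (x : E2) : eX (cl x) = eX x := by
  unfold eX toX
  congr 1
  exact Subtype.ext (cl_of_mem (cl_mem x))

/-- The integral current space `X`. -/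
noncomputable def XX : IntegralCurrentSpace 1 where
  X := XS
  T := TZ eX
  integral := isIntegralCurrent_TZ isModel_eX
  μ := muZ eX
  isMassMeasure := isMassMeasure_muZ isModel_eX
  set_eq := by
    have h1 : {p | 0 < lowerDensity (1 + 1) (muZ eX) p} = univ := by
      ext p
      simp only [mem_ofPred_eq, mem_univ, iff_true]
      exact lowerDensity_pos isModel_eX p
    rw [h1, coe_surjective.range_eq]

/-- The map `f : X → Y`. -/
noncomputable def fXY (p : XS) : Intrinsic YY := ⟨PP p.1, p.1, p.2, rfl⟩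

theorem lipschitz_fXY : LipschitzWith 1 fXY := by
  intro p q
  rw [ENNReal.coe_one, one_mul, edist_XS]
  exact le_max_left _ _

theorem extension_eX (x : E2) : UniformSpace.Completion.extension fXY (eX x) = eY x := by
  unfold eX
  rw [UniformSpace.Completion.extension_coe lipschitz_fXY.uniformContinuous]
  rfl

theorem not_isometry_fXY : ¬ Isometry fXY := by
  intro h
  have hq : (![1 / 2, 1 / 2] : E2) ∈ D := by
    rw [mem_D_iff, Fin.forall_fin_two]
    simp only [Matrix.cons_val_zero, Matrix.cons_val_one]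
    rw [abs_of_pos (by norm_num)]
    norm_num
  have h0 : (0 : E2) ∈ D := by simp [D]
  have key : ∀ p q : XS, p.1 = 0 → q.1 = ![1 / 2, 1 / 2] → False := by
    intro p q hp hq'
    have h1 := h p q
    have h2 : edist (fXY p) (fXY q) ≤ ((18 / 25 : ℝ≥0) : ℝ≥0∞) := by
      show intrinsicEDist YY (PP p.1) (PP q.1) ≤ _
      rw [hp, hq']
      apply intrinsic_le_of_seg h0 hq
      intro s _ t _
      apply le_of_sq_le_sq _ (by positivity)
      rw [dist_PP_sq, FF_diag, FF_diag, mul_pow, sq_abs]
      · simp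
        nlinarith [sq_nonneg (s - t)]
      · simp
      · simp
    have h3 : ((3 / 4 : ℝ≥0) : ℝ≥0∞) ≤ edist p q := by
      rw [edist_XS, hp, hq']
      refine le_trans (le_of_eq ?_) (le_max_right _ _)
      have e0 : psi 0 = 3 / 4 := by
        unfold psi
        simp
        norm_num
      have e1 : psi ![1 / 2, 1 / 2] = 0 := by
        unfold psi
        simp only [Matrix.cons_val_zero, Matrix.cons_val_one]
        rw [abs_of_pos (by norm_num)]
        norm_num
      rw [e0, e1, edist_dist, Real.dist_eq, sub_zero, abs_of_pos (by norm_num),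
        ENNReal.ofReal_div_of_pos (by norm_num), ENNReal.coe_div (by norm_num)]
      simp
    rw [← h1] at h3
    have h4 := h3.trans h2
    have h5 : (3 / 4 : ℝ≥0) ≤ 18 / 25 := by exact_mod_cast h4
    have h6 : ((3 / 4 : ℝ≥0) : ℝ) ≤ ((18 / 25 : ℝ≥0) : ℝ) := by exact_mod_cast h5
    push_cast at h6
    norm_num at h6
  exact key (toX 0) (toX ![1 / 2, 1 / 2]) (cl_of_mem h0) (cl_of_mem hq)

end Pool.Agent.helper71.LVR
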